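import Mathlib
set_option autoImplicit false

namespace Pool.Agent.Helper25.AlgGal

open Polynomial

/-- In a finite normal extension, elements fixed by all automorphisms are purely inseparable. -/
theorem pow_mem_of_fixed {F E : Type} [Field F] [Field E] [Algebra F E] [FiniteDimensional F E]
    [Normal F E] (q : ℕ) [ExpChar F q] (w : E) (hw : ∀ g : E ≃ₐ[F] E, g w = w) :
    ∃ (e : ℕ) (c : F), algebraMap F E c = w ^ q ^ e := by
  classical
  have hint : IsIntegral F w := Algebra.IsIntegral.isIntegral w
  have h1 : (minpoly F w).natSepDegree = 1 := by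
    rw [natSepDegree_eq_of_splits (minpoly F w) (Normal.splits inferInstance w),
      Finset.card_eq_one]
    refine ⟨w, ?_⟩
    ext x
    rw [Multiset.mem_toFinset, mem_aroots, Finset.mem_singleton]
    constructor
    · rintro ⟨_, hx⟩
      obtain ⟨σ, hσ⟩ := minpoly.exists_algEquiv_of_root' (K := F) (x := x) (y := w)
        hint.isAlgebraic hx
      rw [← hσ, hw]
    · rintro rfl
      exact ⟨minpoly.ne_zero hint, minpoly.aeval F x⟩
  obtain ⟨n, c, hc⟩ := (minpoly.natSepDegree_eq_one_iff_pow_mem q).1 h1
  exact ⟨n, c, hc⟩

section
variable {A F K : Type} [CommRing A] [IsDomain A] [IsIntegrallyClosed A] [Field F] [Field K]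
  [Algebra A F] [IsFractionRing A F] [Algebra F K] [Algebra A K] [IsScalarTower A F K]
  [FiniteDimensional F K] [Normal F K]

variable (A F K) in
/-- the action of the automorphism group on the integral closure -/
@[instance_reducible]
def act : MulSemiringAction (K ≃ₐ[F] K) (integralClosure A K) where
  smul g x := ⟨g x, x.2.map (g.restrictScalars A)⟩
  one_smul _ := Subtype.ext rfl
  mul_smul _ _ _ := Subtype.ext rfl
  smul_zero g := Subtype.ext (map_zero g)
  smul_add g x y := Subtype.ext (map_add g (x : K) y)
  smul_one g := Subtype.ext (map_one g)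
  smul_mul g x y := Subtype.ext (map_mul g (x : K) y)

theorem galois_part : ∃ (_ : MulSemiringAction (K ≃ₐ[F] K) (integralClosure A K))
    (_ : SMulCommClass (K ≃ₐ[F] K) A (integralClosure A K)),
      (∀ P Q : Ideal (integralClosure A K), P.IsPrime → Q.IsPrime →
        P.comap (algebraMap A (integralClosure A K)) = Q.comap (algebraMap A (integralClosure A K)) →
          ∃ g : K ≃ₐ[F] K, ∀ x, x ∈ Q ↔ g • x ∈ P) ∧
      (∀ w : integralClosure A K, (∀ g : K ≃ₐ[F] K, g • w = w) →
        ∃ (e : ℕ) (a : A), algebraMap A (integralClosure A K) a = w ^ (ringExpChar A ^ e)) ∧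
      (∀ H : Subgroup (K ≃ₐ[F] K), (∀ w : integralClosure A K, (∀ h ∈ H, h • w = w) →
        ∀ g : K ≃ₐ[F] K, g • w = w) → H = ⊤) := by
  classical
  let _ := act A F K
  have hsmul : ∀ (g : K ≃ₐ[F] K) (x : integralClosure A K), ((g • x : integralClosure A K) : K) = g x :=
    fun g x => rfl
  have hcomm : SMulCommClass (K ≃ₐ[F] K) A (integralClosure A K) := by
    constructor
    intro g a x
    apply Subtype.ext
    rw [hsmul]
    simp only [Subalgebra.coe_smul, hsmul]
    rw [← algebraMap_smul F a (x : K), map_smul, algebraMap_smul]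
  have hexp : ExpChar F (ringExpChar A) :=
    expChar_of_injective_ringHom (IsFractionRing.injective A F) (ringExpChar A)
  have hfix : ∀ w : integralClosure A K, (∀ g : K ≃ₐ[F] K, g • w = w) →
      ∃ (e : ℕ) (a : A), algebraMap A (integralClosure A K) a = w ^ (ringExpChar A ^ e) := by
    intro w hw
    obtain ⟨e, c, hc⟩ := pow_mem_of_fixed (F := F) (ringExpChar A) (w : K) (fun g => by
      have := congrArg Subtype.val (hw g)
      rwa [hsmul] at this)
    have hci : IsIntegral A c := by
      have h1 : IsIntegral A (algebraMap F K c) := by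
        rw [hc]; exact w.2.pow _
      exact (isIntegral_algebraMap_iff (algebraMap F K).injective).1 h1
    obtain ⟨a, ha⟩ := IsIntegrallyClosed.algebraMap_eq_of_integral hci
    refine ⟨e, a, ?_⟩
    apply Subtype.ext
    change algebraMap A K a = (w : K) ^ _
    rw [← hc, ← ha, ← IsScalarTower.algebraMap_apply]
  refine ⟨inferInstance, hcomm, ?_, hfix, ?_⟩
  · intro P Q hP hQ hPQ
    let B := FixedPoints.subring (integralClosure A K) (K ≃ₐ[F] K)
    have hB : Algebra.IsInvariant B (integralClosure A K) (K ≃ₐ[F] K) :=
      ⟨fun b hb => ⟨⟨b, fun g => hb g⟩, rfl⟩⟩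
    have hmem : ∀ (b : B) (P : Ideal (integralClosure A K)), P.IsPrime →
        ∀ (e : ℕ) (a : A), algebraMap A (integralClosure A K) a = (b : integralClosure A K) ^ (ringExpChar A ^ e) →
          ((b : integralClosure A K) ∈ P ↔ a ∈ P.comap (algebraMap A (integralClosure A K))) := by
      intro b P hP e a ha
      rw [Ideal.mem_comap, ha]
      constructor
      · intro h
        exact Ideal.pow_mem_of_mem P h _ (pow_pos (expChar_pos F _) _)
      · intro h
        exact hP.mem_of_pow_mem _ h
    have hunder : P.under B = Q.under B := by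
      ext b
      obtain ⟨e, a, ha⟩ := hfix (b : integralClosure A K) (fun g => b.2 g)
      have h1 := hmem b P hP e a ha
      have h2 := hmem b Q hQ e a ha
      rw [hPQ] at h1
      exact h1.trans h2.symm
    obtain ⟨g, hg⟩ := Algebra.IsInvariant.exists_smul_of_under_eq B (integralClosure A K)
      (K ≃ₐ[F] K) P Q hunder
    refine ⟨g⁻¹, fun x => ?_⟩
    rw [hg, Ideal.mem_pointwise_smul_iff_inv_smul_mem]
  · intro H hH
    have hle : IntermediateField.fixedField H ≤
        IntermediateField.fixedField (⊤ : Subgroup (K ≃ₐ[F] K)) := by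
      intro w hw
      have halg : IsAlgebraic A w := by
        have : IsAlgebraic F w := Algebra.IsAlgebraic.isAlgebraic w
        exact (IsFractionRing.isAlgebraic_iff A F K).2 this
      obtain ⟨a, ha0, haw⟩ := halg.exists_integral_multiple
      have hcoe : ∀ g : K ≃ₐ[F] K, g (a • w) = a • g w := by
        intro g
        rw [← algebraMap_smul F a w, map_smul, algebraMap_smul]
      have hHfix : ∀ h ∈ H, h • (⟨a • w, haw⟩ : integralClosure A K) = ⟨a • w, haw⟩ := by
        intro h hh
        apply Subtype.ext
        rw [hsmul]
        change h (a • w) = a • w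
        rw [hcoe]
        congr 1
        exact hw ⟨h, hh⟩
      have hG := hH ⟨a • w, haw⟩ hHfix
      rintro ⟨g, _⟩
      change g w = w
      have h1 := congrArg Subtype.val (hG g)
      rw [hsmul] at h1
      change g (a • w) = a • w at h1
      rw [hcoe, Algebra.smul_def, Algebra.smul_def] at h1
      refine mul_left_cancel₀ ?_ h1
      rw [IsScalarTower.algebraMap_apply A F K]
      intro h0
      apply ha0
      apply IsFractionRing.injective A F
      rw [map_zero]
      exact (algebraMap F K).injective (by rw [h0, map_zero])
    have h1 := IntermediateField.fixingSubgroup_fixedField H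
    have h2 := IntermediateField.fixingSubgroup_fixedField (⊤ : Subgroup (K ≃ₐ[F] K))
    have h3 : IntermediateField.fixingSubgroup (IntermediateField.fixedField (⊤ : Subgroup (K ≃ₐ[F] K)))
        ≤ IntermediateField.fixingSubgroup (IntermediateField.fixedField H) :=
      IntermediateField.fixingSubgroup_le hle
    rw [h1, h2] at h3
    exact top_le_iff.1 h3

end

theorem exists_galois_cover {A R : Type} [CommRing A] [IsDomain A] [IsIntegrallyClosed A]
    [CommRing R] [IsDomain R] [Algebra A R] [Module.Finite A R]
    (hinj : Function.Injective (algebraMap A R)) :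
    ∃ (R' : Type) (_ : CommRing R') (_ : IsDomain R') (_ : Algebra A R') (_ : Algebra R R')
      (_ : IsScalarTower A R R') (G : Type) (_ : Group G) (_ : Finite G)
      (_ : MulSemiringAction G R') (_ : SMulCommClass G A R'),
      Function.Injective (algebraMap R R') ∧ Algebra.IsIntegral A R' ∧
      (∀ P Q : Ideal R', P.IsPrime → Q.IsPrime →
        P.comap (algebraMap A R') = Q.comap (algebraMap A R') → ∃ g : G, ∀ x, x ∈ Q ↔ g • x ∈ P) ∧
      (∀ w : R', (∀ g : G, g • w = w) →
        ∃ (e : ℕ) (a : A), algebraMap A R' a = w ^ (ringExpChar A ^ e)) ∧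
      (∀ H : Subgroup G, (∀ w : R', (∀ h ∈ H, h • w = w) → ∀ g : G, g • w = w) → H = ⊤) := by
  classical
  have : FaithfulSMul A R := (faithfulSMul_iff_algebraMap_injective A R).2 hinj
  have : Module.IsTorsionFree A R := inferInstance
  let F := FractionRing A
  let E := FractionRing R
  let _ : Algebra F E := FractionRing.liftAlgebra A E
  have : IsScalarTower A F E := FractionRing.isScalarTower_liftAlgebra A E
  have : FiniteDimensional F E := by
    have : Algebra.IsIntegral A R := inferInstance
    have : IsLocalization (Algebra.algebraMapSubmonoid R (nonZeroDivisors A)) E := inferInstance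
    exact .of_isLocalization A R (nonZeroDivisors A)
  let Ω := AlgebraicClosure E
  let K := IntermediateField.normalClosure F E Ω
  have hFK : FiniteDimensional F K := normalClosure.is_finiteDimensional F E Ω
  have : Algebra.IsAlgebraic F E := inferInstance
  have hΩalg : Algebra.IsAlgebraic F Ω := Algebra.IsAlgebraic.trans F E Ω
  have hΩ : IsAlgClosure F Ω := ⟨inferInstance, hΩalg⟩
  have hΩn : Normal F Ω := IsAlgClosure.normal F Ω
  have hKn : Normal F K := normalClosure.normal F E Ω
  let _ : Algebra A K := ((algebraMap F K).comp (algebraMap A F)).toAlgebra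
  have hAFK : IsScalarTower A F K := IsScalarTower.of_algebraMap_eq (fun _ => rfl)
  let ψ : R →+* K := (algebraMap E K).comp (algebraMap R E)
  have hψA : ∀ a : A, ψ (algebraMap A R a) = algebraMap A K a := by
    intro a
    change algebraMap E K (algebraMap R E (algebraMap A R a)) = algebraMap F K (algebraMap A F a)
    rw [← IsScalarTower.algebraMap_apply A R E, IsScalarTower.algebraMap_apply A F E,
      ← IsScalarTower.algebraMap_apply F E K]
  have hψinj : Function.Injective ψ :=
    (algebraMap E K).injective.comp (IsFractionRing.injective R E)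
  have hψint : ∀ x : R, ψ x ∈ integralClosure A K := by
    intro x
    have h1 : IsIntegral A x := Algebra.IsIntegral.isIntegral x
    let ψ' : R →ₐ[A] K := { ψ with commutes' := hψA }
    exact h1.map ψ'
  obtain ⟨inst1, inst2, h1, h2, h3⟩ := galois_part (A := A) (F := F) (K := K)
  let ψ0 : R →+* integralClosure A K := ψ.codRestrict (integralClosure A K).toSubring hψint
  let _ : Algebra R (integralClosure A K) := ψ0.toAlgebra
  have htower : IsScalarTower A R (integralClosure A K) := by
    apply IsScalarTower.of_algebraMap_eq
    intro a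
    apply Subtype.ext
    exact (hψA a).symm
  refine ⟨integralClosure A K, inferInstance, inferInstance, inferInstance, inferInstance,
    htower, K ≃ₐ[F] K, inferInstance, inferInstance, inst1, inst2, ?_, inferInstance, h1, h2, h3⟩
  intro x y hxy
  apply hψinj
  exact congrArg Subtype.val hxy

end Pool.Agent.Helper25.AlgGal
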