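import Mathlib
set_option autoImplicit false
open Polynomial Module

namespace Pool.Agent.Helper25


theorem totient_le_of_root {E : Type*} [AddCommGroup E] [Module ℚ E] (T : Module.End ℚ E)
    (W : Submodule ℚ E) [FiniteDimensional ℚ W] (w : E)
    (hW : ∀ Q : ℚ[X], aeval T Q w ∈ W) (m : ℕ) (hm : 0 < m)
    (hw : w ≠ 0) (h0 : aeval T (cyclotomic m ℚ) w = 0) : Nat.totient m ≤ finrank ℚ W := by
  classical
  let L : degreeLT ℚ (Nat.totient m) →ₗ[ℚ] W :=
    { toFun := fun R => ⟨aeval T (R : ℚ[X]) w, hW _⟩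
      map_add' := by intro a b; ext; simp
      map_smul' := by intro a b; ext; simp }
  have hinj : Function.Injective L := by
    rw [← LinearMap.ker_eq_bot, LinearMap.ker_eq_bot']
    intro R hR
    by_contra hne
    have hR' : aeval T (R : ℚ[X]) w = 0 := congrArg Subtype.val hR
    have hRne : (R : ℚ[X]) ≠ 0 := fun h => hne (Subtype.ext h)
    have hdeg : (R : ℚ[X]).degree < (cyclotomic m ℚ).degree := by
      rw [degree_cyclotomic]
      exact mem_degreeLT.1 R.2
    have hirr := cyclotomic.irreducible_rat hm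
    have hcop : IsCoprime (cyclotomic m ℚ) (R : ℚ[X]) := by
      rw [hirr.coprime_iff_not_dvd]
      intro hd
      exact absurd (degree_le_of_dvd hd hRne) (not_le.2 hdeg)
    obtain ⟨a, b, hab⟩ := hcop
    apply hw
    have : aeval T (a * cyclotomic m ℚ + b * (R : ℚ[X])) w = w := by
      rw [hab]; simp
    rw [← this]
    simp [h0, hR']
  have := LinearMap.finrank_le_finrank_of_injective hinj
  rwa [finrank_eq_card_basis (degreeLT.basis ℚ (Nat.totient m)), Fintype.card_fin] at this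

theorem exists_cyclotomic {E : Type*} [AddCommGroup E] [Module ℚ E] (T : Module.End ℚ E) {N : ℕ}
    (hN : 0 < N) (hT : T ^ N = 1) (W : Submodule ℚ E) [FiniteDimensional ℚ W] (v : E)
    (hW : ∀ Q : ℚ[X], aeval T Q v ∈ W) (P : ℚ[X]) (hP : aeval T P v ≠ 0) :
    ∃ m, m ∣ N ∧ Nat.totient m ≤ finrank ℚ W ∧ ¬ cyclotomic m ℚ ∣ P := by
  classical
  by_contra hcon
  push Not at hcon
  set A := N.divisors.filter (fun m => Nat.totient m ≤ finrank ℚ W) with hA
  set B := N.divisors.filter (fun m => ¬ Nat.totient m ≤ finrank ℚ W) with hB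
  have hdvd : (∏ m ∈ A, cyclotomic m ℚ) ∣ P := by
    apply Finset.prod_dvd_of_coprime
    · intro a ha b hb hab
      exact cyclotomic.isCoprime_rat hab
    · intro m hm
      rw [hA, Finset.mem_filter, Nat.mem_divisors] at hm
      exact hcon m hm.1.1 hm.2
  have hprod : (∏ m ∈ A, cyclotomic m ℚ) * (∏ m ∈ B, cyclotomic m ℚ) = X ^ N - 1 := by
    rw [← prod_cyclotomic_eq_X_pow_sub_one hN ℚ, hA, hB, Finset.prod_filter_mul_prod_filter_not]
  set u := aeval T (∏ m ∈ A, cyclotomic m ℚ) v with hu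
  have key : ∀ S : Finset ℕ, S ⊆ B → aeval T (∏ m ∈ S, cyclotomic m ℚ) u = 0 → u = 0 := by
    intro S
    induction S using Finset.induction_on with
    | empty => intro _ h; simpa using h
    | insert m S hmS ih =>
      intro hS h
      apply ih ((Finset.subset_insert _ _).trans hS)
      by_contra hne
      have hmB : m ∈ B := hS (Finset.mem_insert_self _ _)
      rw [hB, Finset.mem_filter, Nat.mem_divisors] at hmB
      apply hmB.2
      refine totient_le_of_root T W (aeval T (∏ m ∈ S, cyclotomic m ℚ) u) ?_ m ?_ hne ?_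
      · intro Q
        have : aeval T Q (aeval T (∏ m ∈ S, cyclotomic m ℚ) u) =
            aeval T (Q * (∏ m ∈ S, cyclotomic m ℚ) * (∏ m ∈ A, cyclotomic m ℚ)) v := by
          rw [hu]; simp [map_mul, Module.End.mul_apply]
        rw [this]; exact hW _
      · exact Nat.pos_of_dvd_of_pos hmB.1.1 hN
      · rw [Finset.prod_insert hmS] at h
        rw [← h, map_mul, Module.End.mul_apply]
  have hu0 : u = 0 := by
    apply key B (Finset.Subset.refl _)
    have : aeval T (∏ m ∈ B, cyclotomic m ℚ) u =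
        aeval T ((∏ m ∈ A, cyclotomic m ℚ) * (∏ m ∈ B, cyclotomic m ℚ)) v := by
      rw [hu, mul_comm, map_mul, Module.End.mul_apply]
    rw [this, hprod]
    simp [hT]
  apply hP
  obtain ⟨Q, rfl⟩ := hdvd
  rw [mul_comm, map_mul, Module.End.mul_apply, ← hu, hu0, map_zero]



theorem two_pow_card_le (m : ℕ) (hm : m ≠ 0) : 2 ^ m.primeFactors.card ≤ 2 * Nat.totient m := by
  classical
  have h1 : Nat.totient m = ∏ p ∈ m.primeFactors, (p ^ (m.factorization p - 1) * (p - 1)) := by
    rw [Nat.totient_eq_prod_factorization hm]; rfl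
  have h2 : ∏ p ∈ m.primeFactors, (if p = 2 then 1 else 2) ≤ Nat.totient m := by
    rw [h1]
    apply Finset.prod_le_prod' 
    intro p hp
    have hpp := Nat.prime_of_mem_primeFactors hp
    have hpos : 1 ≤ p ^ (m.factorization p - 1) := Nat.one_le_pow _ _ hpp.pos
    split_ifs with h
    · subst h; simp; exact hpos
    · have : 3 ≤ p := by
        rcases hpp.eq_two_or_odd with h' | h'
        · exact absurd h' h
        · have := hpp.two_le; omega
      calc 2 = 1 * 2 := rfl
        _ ≤ p ^ (m.factorization p - 1) * (p - 1) := Nat.mul_le_mul hpos (by omega)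
  have h3 : 2 ^ m.primeFactors.card ≤ 2 * ∏ p ∈ m.primeFactors, (if p = 2 then 1 else 2) := by
    rw [← Finset.prod_const]
    by_cases h2m : 2 ∈ m.primeFactors
    · rw [← Finset.mul_prod_erase _ _ h2m, ← Finset.mul_prod_erase m.primeFactors (fun p => if p = 2 then 1 else 2) h2m]
      simp only [if_true, one_mul]
      apply Nat.mul_le_mul_left
      apply Finset.prod_le_prod'
      intro p hp
      rw [if_neg (Finset.ne_of_mem_erase hp)]
    · have : ∏ p ∈ m.primeFactors, (if p = 2 then 1 else 2) = ∏ p ∈ m.primeFactors, 2 := by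
        apply Finset.prod_congr rfl
        intro p hp
        rw [if_neg]; rintro rfl; exact h2m hp
      rw [this]; omega
  omega

/-- A system of exponents realising the primary decomposition. -/
theorem exists_idem (N : ℕ) (hN : N ≠ 0) : ∃ e : ℕ → ℕ, ∀ p ∈ N.primeFactors,
    e p ≡ 1 [MOD p ^ N.factorization p] ∧
    ∀ q ∈ N.primeFactors, q ≠ p → q ^ N.factorization q ∣ e p := by
  have : ∀ p : ℕ, ∃ e : ℕ, p ∈ N.primeFactors → (e ≡ 1 [MOD p ^ N.factorization p] ∧
    ∀ q ∈ N.primeFactors, q ≠ p → q ^ N.factorization q ∣ e) := by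
    intro p
    by_cases hp : p ∈ N.primeFactors
    · have hpp := Nat.prime_of_mem_primeFactors hp
      have hco : Nat.Coprime (p ^ N.factorization p) (N / p ^ N.factorization p) := 
        (Nat.coprime_ordCompl hpp hN).pow_left _
      obtain ⟨e, he1, he2⟩ := Nat.chineseRemainder hco 1 0
      refine ⟨e, fun _ => ⟨he1, ?_⟩⟩
      intro q hq hqp
      have hqq := Nat.prime_of_mem_primeFactors hq
      have h1 : q ^ N.factorization q ∣ N / p ^ N.factorization p := by
        have h2 : q ^ N.factorization q ∣ p ^ N.factorization p * (N / p ^ N.factorization p) := by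
          rw [Nat.ordProj_mul_ordCompl_eq_self]; exact Nat.ordProj_dvd _ _
        refine Nat.Coprime.dvd_of_dvd_mul_left ?_ h2
        exact Nat.Coprime.pow _ _ ((Nat.coprime_primes hqq hpp).2 hqp)
      exact h1.trans ((Nat.modEq_zero_iff_dvd).1 he2)
    · exact ⟨0, fun h => absurd h hp⟩
  choose e he using this
  exact ⟨e, fun p hp => he p hp⟩

theorem dvd_of_forall_primeFactors {m N : ℕ} (hm : m ≠ 0)
    (h : ∀ q ∈ m.primeFactors, q ^ m.factorization q ∣ N) : m ∣ N := by
  rw [Nat.dvd_iff_prime_pow_dvd_dvd]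
  intro p k hp hk
  by_cases hk0 : k = 0
  · subst hk0; simp
  · have hpm : p ∈ m.primeFactors := by
      rw [Nat.mem_primeFactors]
      exact ⟨hp, (dvd_pow_self p hk0).trans hk, hm⟩
    exact (pow_dvd_pow p ((hp.pow_dvd_iff_le_factorization hm).1 hk)).trans (h p hpm)

section
variable {N : ℕ} (hN : N ≠ 0) {e : ℕ → ℕ}
  (he : ∀ p ∈ N.primeFactors, e p ≡ 1 [MOD p ^ N.factorization p] ∧
    ∀ q ∈ N.primeFactors, q ≠ p → q ^ N.factorization q ∣ e p)
include he

theorem sum_dvd {B : Finset ℕ} (hB : B ⊆ N.primeFactors) {q : ℕ} (hq : q ∈ N.primeFactors)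
    (hqB : q ∉ B) : q ^ N.factorization q ∣ ∑ p ∈ B, e p := by
  apply Finset.dvd_sum
  intro p hp
  exact (he p (hB hp)).2 q hq (fun h => hqB (h ▸ hp))

theorem sum_modEq {B : Finset ℕ} (hB : B ⊆ N.primeFactors) {q : ℕ} 
    (hqB : q ∈ B) : ∑ p ∈ B, e p ≡ 1 [MOD q ^ N.factorization q] := by
  classical
  rw [← Finset.add_sum_erase _ _ hqB]
  have h1 := (he q (hB hqB)).1
  have h2 : q ^ N.factorization q ∣ ∑ p ∈ B.erase q, e p :=
    sum_dvd he ((Finset.erase_subset _ _).trans hB) (hB hqB) (by simp)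
  have := h1.add ((Nat.modEq_zero_iff_dvd).2 h2)
  simpa using this

include hN

omit he in
theorem modEq_of_forall {a b : ℕ} (h : ∀ q ∈ N.primeFactors, a ≡ b [MOD q ^ N.factorization q]) :
    a ≡ b [MOD N] := by
  rw [Nat.modEq_iff_dvd]
  have : N ∣ ((b : ℤ) - a).natAbs := by
    apply dvd_of_forall_primeFactors hN
    intro q hq
    have := (Nat.modEq_iff_dvd).1 (h q hq)
    exact Int.natCast_dvd.1 this
  exact Int.natCast_dvd.2 this

theorem sum_full_modEq : ∑ p ∈ N.primeFactors, e p ≡ 1 [MOD N] :=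
  modEq_of_forall hN fun _ hq => sum_modEq he (Finset.Subset.refl _) hq

theorem sum_mul_modEq_zero {B C : Finset ℕ} (hB : B ⊆ N.primeFactors) (hC : C ⊆ N.primeFactors)
    (hBC : Disjoint B C) : (∑ p ∈ B, e p) * (∑ p ∈ C, e p) ≡ 0 [MOD N] := by
  apply modEq_of_forall hN
  intro q hq
  rw [Nat.modEq_zero_iff_dvd]
  by_cases hqB : q ∈ B
  · have : q ∉ C := fun h => (Finset.disjoint_left.1 hBC) hqB h
    exact Dvd.dvd.mul_left (sum_dvd he hC hq this) _
  · exact Dvd.dvd.mul_right (sum_dvd he hB hq hqB) _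

theorem sum_mul_self_modEq {B : Finset ℕ} (hB : B ⊆ N.primeFactors) :
    (∑ p ∈ B, e p) * (∑ p ∈ B, e p) ≡ ∑ p ∈ B, e p [MOD N] := by
  apply modEq_of_forall hN
  intro q hq
  by_cases hqB : q ∈ B
  · have := sum_modEq he hB hqB
    calc (∑ p ∈ B, e p) * (∑ p ∈ B, e p) ≡ (∑ p ∈ B, e p) * 1 [MOD _] := this.mul_left _
      _ = _ := by ring
  · have h := (Nat.modEq_zero_iff_dvd).2 (sum_dvd he hB hq hqB)
    exact (h.mul h).trans (by simpa using h.symm)

theorem sum_mul_subset_modEq {B C : Finset ℕ} (hC : C ⊆ N.primeFactors) (hBC : B ⊆ C) :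
    (∑ p ∈ C, e p) * (∑ p ∈ B, e p) ≡ ∑ p ∈ B, e p [MOD N] := by
  apply modEq_of_forall hN
  intro q hq
  by_cases hqC : q ∈ C
  · have := sum_modEq he hC hqC
    calc (∑ p ∈ C, e p) * (∑ p ∈ B, e p) ≡ 1 * (∑ p ∈ B, e p) [MOD _] := this.mul_right _
      _ = _ := by ring
  · have h := (Nat.modEq_zero_iff_dvd).2 (sum_dvd he (hBC.trans hC) hq (fun h => hqC (hBC h)))
    exact (h.mul_left _).trans (by simpa using h.symm)

/-- (N3) -/
theorem card_le_card_primeFactors {ι : Type*} (T : Finset ι) (B : ι → Finset ℕ)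
    (hB : ∀ j ∈ T, B j ⊆ N.primeFactors)
    (hdis : ∀ i ∈ T, ∀ j ∈ T, i ≠ j → Disjoint (B i) (B j)) {m : ℕ} (hm : m ∣ N)
    (hmd : ∀ j ∈ T, ¬ m ∣ ∑ p ∈ B j, e p) : T.card ≤ m.primeFactors.card := by
  classical
  have hm0 : m ≠ 0 := fun h => hN (by rw [h] at hm; exact Nat.eq_zero_of_zero_dvd hm)
  have hex : ∀ j ∈ T, ∃ q ∈ m.primeFactors, q ∈ B j := by
    intro j hj
    by_contra hcon
    push Not at hcon
    apply hmd j hj
    apply dvd_of_forall_primeFactors hm0
    intro q hq
    have hqN : q ∈ N.primeFactors := Nat.primeFactors_mono hm hN hq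
    refine Dvd.dvd.trans (pow_dvd_pow q ?_) (sum_dvd he (hB j hj) hqN (hcon q hq))
    exact (Nat.factorization_le_iff_dvd hm0 hN).2 hm q
  choose! g hg using hex
  apply Finset.card_le_card_of_injOn g
  · intro j hj; exact (hg j hj).1
  · intro i hi j hj hij
    by_contra hne
    have := Finset.disjoint_left.1 (hdis i hi j hj hne) (hg i hi).2
    rw [hij] at this
    exact this (hg j hj).2

/-- (N4) -/
theorem dvd_sum_mul_prod {P : Finset ℕ} (hP : P ⊆ N.primeFactors) {m r : ℕ} (hm : m ∣ N)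
    (hr : Nat.totient m ≤ r) :
    m ∣ (∑ p ∈ P, e p) * ∏ p ∈ P, p ^ Nat.log p (2 * r) := by
  classical
  have hm0 : m ≠ 0 := fun h => hN (by rw [h] at hm; exact Nat.eq_zero_of_zero_dvd hm)
  apply dvd_of_forall_primeFactors hm0
  intro q hq
  have hqq := Nat.prime_of_mem_primeFactors hq
  have hqN : q ∈ N.primeFactors := Nat.primeFactors_mono hm hN hq
  by_cases hqP : q ∈ P
  · apply Dvd.dvd.mul_left
    refine Dvd.dvd.trans ?_ (Finset.dvd_prod_of_mem _ hqP)
    apply pow_dvd_pow
    apply Nat.le_log_of_pow_le hqq.one_lt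
    -- q^k ≤ 2 φ(q^k) ≤ 2 φ(m) ≤ 2 r
    have hk : 0 < m.factorization q := hqq.factorization_pos_of_dvd hm0 (Nat.dvd_of_mem_primeFactors hq)
    have h1 : Nat.totient (q ^ m.factorization q) ≤ Nat.totient m := by
      apply Nat.le_of_dvd (Nat.totient_pos.2 (Nat.pos_of_ne_zero hm0))
      exact Nat.totient_dvd_of_dvd (Nat.ordProj_dvd _ _)
    have h2 : q ^ m.factorization q ≤ 2 * Nat.totient (q ^ m.factorization q) := by
      rw [Nat.totient_prime_pow hqq hk]
      have : q ^ m.factorization q = q ^ (m.factorization q - 1) * q := by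
        rw [← pow_succ]; congr 1; omega
      rw [this]
      have h3 := hqq.two_le
      have h4 : q ≤ 2 * (q - 1) := by omega
      calc q ^ (m.factorization q - 1) * q ≤ q ^ (m.factorization q - 1) * (2 * (q - 1)) :=
            Nat.mul_le_mul_left _ h4
        _ = _ := by ring
    omega
  · apply Dvd.dvd.mul_right
    refine Dvd.dvd.trans (pow_dvd_pow q ?_) (sum_dvd he hP hqN hqP)
    exact (Nat.factorization_le_iff_dvd hm0 hN).2 hm q

end



theorem sum_inv_sq_le (n : ℕ) : ∑ i ∈ Finset.range n, 1 / ((i : ℚ) + 1) ^ 2 ≤ 2 := by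
  have h : ∀ n : ℕ, ∑ i ∈ Finset.range (n + 1), 1 / ((i : ℚ) + 1) ^ 2 ≤ 2 - 1 / ((n : ℚ) + 1) := by
    intro n
    induction n with
    | zero => norm_num
    | succ n ih =>
      rw [Finset.sum_range_succ]
      have h1 : 1 / (((n + 1 : ℕ) : ℚ) + 1) ^ 2 ≤ 1 / ((n : ℚ) + 1) - 1 / (((n + 1 : ℕ) : ℚ) + 1) := by
        push_cast
        rw [div_sub_div _ _ (by positivity) (by positivity), div_le_div_iff₀ (by positivity) (by positivity)]
        nlinarith [(Nat.cast_nonneg n : (0 : ℚ) ≤ n)]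
      linarith
  cases n with
  | zero => norm_num
  | succ n =>
    have := h n
    have h2 : 0 < 1 / ((n : ℚ) + 1) := by positivity
    linarith

theorem coeff_one_le (p : ℚ[X]) (d : ℕ) (hd : p.natDegree ≤ d) (h0 : p.coeff 0 = 0)
    (hp : ∀ x : ℚ, 0 ≤ x → x ≤ 1 → |p.eval x| ≤ 1) : p.coeff 1 ≤ 4 * (d : ℚ) ^ 2 := by
  rcases Nat.eq_zero_or_pos d with rfl | hdpos
  · have : p.coeff 1 = 0 := coeff_eq_zero_of_natDegree_lt (by omega)
    rw [this]; positivity
  have hdq : (0 : ℚ) < d := by exact_mod_cast hdpos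
  set R := p.divX with hR
  have hRp : ∀ x : ℚ, p.eval x = x * R.eval x := by
    intro x
    have := congrArg (eval x) (divX_mul_X_add p)
    rw [← this]; simp [h0, hR, mul_comm]
  have hR0 : R.eval 0 = p.coeff 1 := by
    rw [← coeff_zero_eq_eval_zero, hR, coeff_divX]
  have hRdeg : R.natDegree ≤ d - 1 := by
    rw [hR, natDegree_divX_eq_natDegree_tsub_one]; omega
  set q : ℚ[X] := R.comp (C (1 / (d : ℚ) ^ 2) * (X - C (d : ℚ)) ^ 2) with hq
  have hqdeg : q.natDegree < 2 * d := by
    have h1 : (C (1 / (d : ℚ) ^ 2) * (X - C (d : ℚ)) ^ 2).natDegree ≤ 2 := by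
      refine (natDegree_C_mul_le _ _).trans ?_
      rw [natDegree_pow, natDegree_X_sub_C]
    have h2 : q.natDegree ≤ (d - 1) * 2 := by
      rw [hq]
      refine natDegree_comp_le.trans ?_
      exact Nat.mul_le_mul hRdeg h1
    omega
  have hev : ∀ k : ℕ, q.eval (k : ℚ) = R.eval (((k : ℚ) - d) ^ 2 / (d : ℚ) ^ 2) := by
    intro k
    rw [hq, eval_comp]; congr 1; simp; ring
  have hdiff := congrFun (Polynomial.fwdDiff_iter_eq_zero_of_degree_lt hqdeg) (0 : ℚ)
  rw [fwdDiff_iter_eq_sum_shift, Pi.zero_apply] at hdiff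
  have hsplit : 2 * d + 1 = d + (1 + d) := by ring
  have habs : ∀ k : ℕ, k ≤ 2 * d → k ≠ d → |q.eval (k : ℚ)| ≤ (d : ℚ) ^ 2 / ((k : ℚ) - d) ^ 2 := by
    intro k hk hkd
    rw [hev]
    have hne : ((k : ℚ) - d) ≠ 0 := by
      intro h; apply hkd; have : (k : ℚ) = d := by linarith
      exact_mod_cast this
    have hsq : 0 < ((k : ℚ) - d) ^ 2 := by positivity
    set x := ((k : ℚ) - d) ^ 2 / (d : ℚ) ^ 2 with hx
    have hxpos : 0 < x := by positivity
    have hx1 : x ≤ 1 := by
      rw [hx, div_le_one (by positivity)]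
      apply sq_le_sq'
      · have : (0 : ℚ) ≤ k := Nat.cast_nonneg k
        linarith
      · have : (k : ℚ) ≤ 2 * d := by exact_mod_cast hk
        linarith
    have h1 := hp x hxpos.le hx1
    rw [hRp x, abs_mul, abs_of_pos hxpos] at h1
    have h2 : |R.eval x| ≤ 1 / x := by
      rw [le_div_iff₀ hxpos]; linarith
    refine h2.trans (le_of_eq ?_)
    rw [hx, one_div_div]
  -- triangle inequality
  set c : ℕ → ℚ := fun k => ((-1 : ℤ) ^ (2 * d - k) * ((2 * d).choose k : ℤ) : ℤ) with hc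
  have hcabs : ∀ k, |c k| ≤ (2 * d).choose d := by
    intro k
    simp only [hc]
    push_cast
    rw [abs_mul, abs_pow, abs_neg, abs_one, one_pow, one_mul, abs_of_nonneg (by positivity)]
    exact_mod_cast Nat.choose_le_centralBinom k d
  have hcd : |c d| = (2 * d).choose d := by
    simp only [hc]
    push_cast
    rw [abs_mul, abs_pow, abs_neg, abs_one, one_pow, one_mul, abs_of_nonneg (by positivity)]
  have hsum : ∑ k ∈ Finset.range (2 * d + 1), c k * q.eval (k : ℚ) = 0 := by
    rw [← hdiff]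
    apply Finset.sum_congr rfl
    intro k _
    simp [hc]
  rw [hsplit, Finset.sum_range_add, Finset.sum_range_add] at hsum
  simp only [Finset.sum_range_one, add_zero] at hsum
  have hmid : q.eval ((d : ℕ) : ℚ) = p.coeff 1 := by
    rw [hev, sub_self]; simp [hR0]
  rw [hmid] at hsum
  have hchoose : (0 : ℚ) < (2 * d).choose d := by
    exact_mod_cast Nat.choose_pos (by omega)
  -- bound for the two side sums
  have hA : |∑ k ∈ Finset.range d, c k * q.eval (k : ℚ)| ≤ (2 * d).choose d * ((d : ℚ) ^ 2 * 2) := by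
    refine (Finset.abs_sum_le_sum_abs _ _).trans ?_
    have : ∀ k ∈ Finset.range d, |c k * q.eval (k : ℚ)| ≤
        (2 * d).choose d * ((d : ℚ) ^ 2 * (1 / (((d - 1 - k : ℕ) : ℚ) + 1) ^ 2)) := by
      intro k hk
      rw [Finset.mem_range] at hk
      rw [abs_mul]
      apply mul_le_mul (hcabs k) _ (abs_nonneg _) hchoose.le
      refine (habs k (by omega) (by omega)).trans (le_of_eq ?_)
      have h3 : (((d - 1 - k : ℕ) : ℚ) + 1) = d - k := by
        have : d - 1 - k + 1 = d - k := by omega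
        have h4 : ((d - 1 - k + 1 : ℕ) : ℚ) = ((d - k : ℕ) : ℚ) := by rw [this]
        rw [Nat.cast_sub hk.le] at h4
        push_cast at h4
        exact h4
      rw [h3]; ring
    refine (Finset.sum_le_sum this).trans ?_
    rw [← Finset.mul_sum, ← Finset.mul_sum]
    apply mul_le_mul_of_nonneg_left _ hchoose.le
    apply mul_le_mul_of_nonneg_left _ (by positivity)
    rw [Finset.sum_range_reflect (fun i => 1 / ((i : ℚ) + 1) ^ 2) d]
    exact sum_inv_sq_le d
  have hB : |∑ k ∈ Finset.range d, c (d + (1 + k)) * q.eval (((d + (1 + k) : ℕ)) : ℚ)| ≤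
      (2 * d).choose d * ((d : ℚ) ^ 2 * 2) := by
    refine (Finset.abs_sum_le_sum_abs _ _).trans ?_
    have : ∀ k ∈ Finset.range d, |c (d + (1 + k)) * q.eval (((d + (1 + k) : ℕ)) : ℚ)| ≤
        (2 * d).choose d * ((d : ℚ) ^ 2 * (1 / ((k : ℚ) + 1) ^ 2)) := by
      intro k hk
      rw [Finset.mem_range] at hk
      rw [abs_mul]
      apply mul_le_mul (hcabs _) _ (abs_nonneg _) hchoose.le
      refine (habs _ (by omega) (by omega)).trans (le_of_eq ?_)
      push_cast
      have : ((d : ℚ) + (1 + k) - d) = k + 1 := by ring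
      rw [this]; ring
    refine (Finset.sum_le_sum this).trans ?_
    rw [← Finset.mul_sum, ← Finset.mul_sum]
    apply mul_le_mul_of_nonneg_left _ hchoose.le
    apply mul_le_mul_of_nonneg_left _ (by positivity)
    exact sum_inv_sq_le d
  have hfin : |c d * p.coeff 1| ≤ (2 * d).choose d * (4 * (d : ℚ) ^ 2) := by
    have h5 : c d * p.coeff 1 = -(∑ k ∈ Finset.range d, c k * q.eval (k : ℚ)) -
        ∑ k ∈ Finset.range d, c (d + (1 + k)) * q.eval (((d + (1 + k) : ℕ)) : ℚ) := by
      linarith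
    rw [h5]
    refine (abs_sub _ _).trans ?_
    rw [abs_neg]
    linarith
  rw [abs_mul, hcd] at hfin
  have := le_of_mul_le_mul_left hfin hchoose
  exact (le_abs_self _).trans this


end Pool.Agent.Helper25
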