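import Mathlib
import Pool.Agent.Helper25.CycBase
set_option autoImplicit false
open Polynomial Module

namespace Pool.Agent.Helper25

section
variable {Γ : Type*} [Group Γ] {K : Type*} [CommRing K]

/-- iterated differences -/
def Del : List Γ → (Γ → K) → Γ → K
  | [], f, y => f y
  | z :: L, f, y => Del L f (y * z) - Del L f y

theorem Del_eq_zero (f : Γ → K) (L : List Γ) (y : Γ)
    (h : ∀ T : List Γ, T.Sublist L → f (y * T.prod) = 0) : Del L f y = 0 := by
  induction L generalizing y with
  | nil => have := h [] (List.Sublist.refl _); simpa [Del] using this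
  | cons z L ih =>
    have h1 : Del L f (y * z) = 0 := ih (y * z) (fun T hT => by
      have := h (z :: T) (hT.cons_cons z)
      rwa [List.prod_cons, ← mul_assoc] at this)
    have h2 : Del L f y = 0 := ih y (fun T hT => h T (hT.cons z))
    rw [Del, h1, h2, sub_self]

theorem Del_eq (f : Γ → K) (L : List Γ) (y : Γ)
    (h : ∀ T : List Γ, T.Sublist L → T ≠ [] → f (y * T.prod) = 0) :
    Del L f y = (-1) ^ L.length * f y := by
  induction L with
  | nil => simp [Del]
  | cons z L ih =>
    have h1 : Del L f (y * z) = 0 := Del_eq_zero f L (y * z) (fun T hT => by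
      have := h (z :: T) (hT.cons_cons z) (by simp)
      rwa [List.prod_cons, ← mul_assoc] at this)
    rw [Del, h1, ih (fun T hT hne => h T (hT.cons z) hne), List.length_cons, pow_succ]
    ring

/-- the multi-affine extension of `f` along `L`, restricted to the diagonal -/
noncomputable def cubePoly : List Γ → (Γ → K) → Γ → K[X]
  | [], f, y => C (f y)
  | z :: L, f, y => (1 - X) * cubePoly L f y + X * cubePoly L f (y * z)

theorem cubePoly_coeff_zero (f : Γ → K) (L : List Γ) (y : Γ) : (cubePoly L f y).coeff 0 = f y := by
  induction L generalizing y with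
  | nil => simp [cubePoly]
  | cons z L ih => simp [cubePoly, ih, mul_coeff_zero]

theorem cubePoly_coeff_one (f : Γ → K) (L : List Γ) (y : Γ) :
    (cubePoly L f y).coeff 1 = (L.map (fun z => f (y * z) - f y)).sum := by
  induction L generalizing y with
  | nil => simp [cubePoly]
  | cons z L ih =>
    rw [cubePoly, coeff_add, sub_mul, one_mul, coeff_sub]
    have e : ∀ q : K[X], (X * q).coeff 1 = q.coeff 0 := fun q => coeff_X_mul q 0
    rw [e, e, cubePoly_coeff_zero, cubePoly_coeff_zero, ih, List.map_cons, List.sum_cons]
    ring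

theorem cubePoly_eq_sum (f : Γ → K) (L : List Γ) (y : Γ) :
    cubePoly L f y = (L.sublists'.map (fun T => X ^ T.length * C (Del T f y))).sum := by
  induction L generalizing y with
  | nil => simp [cubePoly, Del]
  | cons z L ih =>
    rw [cubePoly, List.sublists'_cons, List.map_append, List.sum_append, List.map_map]
    have h1 : ((fun T : List Γ => X ^ T.length * C (Del T f y)) ∘ List.cons z) =
        fun T => X * (X ^ T.length * C (Del T f (y * z))) - X * (X ^ T.length * C (Del T f y)) := by
      funext T
      simp only [Function.comp_apply, List.length_cons, Del, C_sub, pow_succ]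
      ring
    have h2 : ∀ (M : List (List Γ)) (a b : List Γ → K[X]),
        (M.map (fun T => a T - b T)).sum = (M.map a).sum - (M.map b).sum := by
      intro M a b
      induction M with
      | nil => simp
      | cons T M ih => rw [List.map_cons, List.map_cons, List.map_cons, List.sum_cons, List.sum_cons,
          List.sum_cons, ih]; ring
    rw [h1, h2, List.sum_map_mul_left, List.sum_map_mul_left, ← ih, ← ih]
    ring

theorem cubePoly_natDegree (f : Γ → K) (L : List Γ) (y : Γ) (D : ℕ)
    (hD : ∀ T : List Γ, T.Sublist L → D < T.length → Del T f y = 0) :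
    (cubePoly L f y).natDegree ≤ D := by
  rw [natDegree_le_iff_coeff_eq_zero]
  intro n hn
  rw [cubePoly_eq_sum]
  have : ∀ M : List (List Γ), (∀ T ∈ M, T.Sublist L) →
      ((M.map (fun T : List Γ => X ^ T.length * C (Del T f y))).sum).coeff n = 0 := by
    intro M
    induction M with
    | nil => intro _; simp
    | cons T M ih =>
      intro hM
      rw [List.map_cons, List.sum_cons, coeff_add, ih (fun T hT => hM T (by simp [hT])), add_zero,
        coeff_mul_C, coeff_X_pow]
      split_ifs with h
      · rw [one_mul]; exact hD T (hM T (by simp)) (by omega)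
      · rw [zero_mul]
  exact this _ (fun T hT => List.mem_sublists'.1 hT)

end

section
variable {Γ : Type*} [Group Γ]

theorem cubePoly_eval (f : Γ → ℚ) (hf01 : ∀ x, f x = 0 ∨ f x = 1) (L : List Γ) (y : Γ) (x : ℚ)
    (hx0 : 0 ≤ x) (hx1 : x ≤ 1) : 0 ≤ (cubePoly L f y).eval x ∧ (cubePoly L f y).eval x ≤ 1 := by
  induction L generalizing y with
  | nil =>
    simp only [cubePoly, eval_C]
    rcases hf01 y with h | h <;> simp [h]
  | cons z L ih =>
    simp only [cubePoly, eval_add, eval_mul, eval_sub, eval_one, eval_X]
    obtain ⟨a0, a1⟩ := ih y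
    obtain ⟨b0, b1⟩ := ih (y * z)
    constructor
    · have h1 : 0 ≤ 1 - x := by linarith
      positivity
    · nlinarith [mul_nonneg hx0 (sub_nonneg.2 b1), mul_nonneg (sub_nonneg.2 hx1) (sub_nonneg.2 a1)]

/-- block sensitivity bound -/
theorem length_le_of_family (f : Γ → ℚ) (hf01 : ∀ x, f x = 0 ∨ f x = 1) (L : List Γ) (y : Γ)
    (D : ℕ) (hD : ∀ T : List Γ, T.Sublist L → D < T.length → Del T f y = 0) (hy : f y = 0)
    (hz : ∀ z ∈ L, f (y * z) = 1) : L.length ≤ 4 * D ^ 2 := by
  have h1 := coeff_one_le (cubePoly L f y) D (cubePoly_natDegree f L y D hD)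
    (by rw [cubePoly_coeff_zero, hy]) (fun x hx0 hx1 => by
      obtain ⟨a, b⟩ := cubePoly_eval f hf01 L y x hx0 hx1
      rw [abs_of_nonneg a]; exact b)
  rw [cubePoly_coeff_one] at h1
  have h2 : (L.map (fun z => f (y * z) - f y)).sum = L.length := by
    rw [List.map_congr_left (g := fun _ => (1 : ℚ))]
    · simp
    · intro z hz'
      rw [hz z hz', hy, sub_zero]
  rw [h2] at h1
  exact_mod_cast h1

end

end Pool.Agent.Helper25
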