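import Mathlib
import Pool.Agent.Helper25.CubeLemma
set_option autoImplicit false
open Polynomial Module

namespace Pool.Agent.Helper25

/-- A block system on a group: a notion of support in a set `Ω` of atoms. -/
structure BlockSys (Γ : Type*) [Group Γ] (Ω : Type*) [DecidableEq Ω] where
  supp : Γ → Finset Ω
  good : Finset Ω → Prop
  sub : Finset Ω → Subgroup Γ
  mem_sub : ∀ (B : Finset Ω) (g : Γ), g ∈ sub B ↔ supp g ⊆ B
  faithful : ∀ g : Γ, supp g = ∅ → g = 1
  comm : ∀ B C : Finset Ω, Disjoint B C → ∀ g ∈ sub B, ∀ h ∈ sub C, Commute g h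
  enlarge : ∀ U : Finset Ω, good U → ∀ g ∈ sub U, ∃ B U' : Finset Ω, good B ∧ good U' ∧
    supp g ⊆ B ∧ B ⊆ U ∧ U' ⊆ U ∧ Disjoint B U' ∧ (U \ U').card ≤ 5 * (supp g).card
  reduce : ∀ U : Finset Ω, good U → ∀ g ∈ sub U, ∃ L : List (Finset Ω × Γ),
    L.Pairwise (fun a b => Disjoint a.1 b.1) ∧
    (∀ a ∈ L, good a.1 ∧ a.1 ⊆ U ∧ a.2 ∈ sub a.1) ∧
    (supp g).card ≤ 10 * L.length ∧
    ∀ T : List (Finset Ω × Γ), T.Sublist L → T ≠ [] →
      (supp (g * (T.map Prod.snd).prod)).card < (supp g).card

variable {Γ : Type*} [Group Γ] {Ω : Type*} [DecidableEq Ω]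

theorem BlockSys.sub_mono (S : BlockSys Γ Ω) {B C : Finset Ω} (h : B ⊆ C) : S.sub B ≤ S.sub C := by
  intro g hg
  rw [S.mem_sub] at hg ⊢
  exact hg.trans h

/-- A function `f` has degree at most `D` with respect to the block system. -/
def BlockSys.DegLE (S : BlockSys Γ Ω) (f : Γ → ℚ) (D : ℕ) : Prop :=
  ∀ L : List (Finset Ω × Γ), L.Pairwise (fun a b => Disjoint a.1 b.1) →
    (∀ a ∈ L, S.good a.1 ∧ a.2 ∈ S.sub a.1) → D < L.length → ∀ y, Del (L.map Prod.snd) f y = 0

theorem BlockSys.exists_cert (S : BlockSys Γ Ω) [Fintype Ω] (huniv : S.good Finset.univ)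
    (f : Γ → ℚ) (hf01 : ∀ x, f x = 0 ∨ f x = 1) (hf1 : f 1 = 0) (D : ℕ) (hD : S.DegLE f D) :
    ∃ A : Finset Ω, A.card ≤ 200 * D ^ 3 ∧ ∀ z, Disjoint (S.supp z) A → f z = 0 := by
  classical
  by_contra hcon
  push Not at hcon
  have hfam : ∀ k : ℕ, ∃ L : List (Finset Ω × Γ), L.length = k ∧
      L.Pairwise (fun a b => Disjoint a.1 b.1) ∧
      (∀ a ∈ L, S.good a.1 ∧ a.2 ∈ S.sub a.1 ∧ f a.2 = 1) ∧
      k ≤ 4 * D ^ 2 ∧
      ∃ U : Finset Ω, S.good U ∧ (∀ a ∈ L, Disjoint a.1 U) ∧ (Finset.univ \ U).card ≤ 50 * D * k := by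
    intro k
    induction k with
    | zero =>
      refine ⟨[], rfl, List.Pairwise.nil, by simp, by simp, Finset.univ, huniv, by simp, by simp⟩
    | succ k ih =>
      obtain ⟨L, hlen, hpw, hL, hk, U, hU, hLU, hUc⟩ := ih
      have hc : (Finset.univ \ U).card ≤ 200 * D ^ 3 := by
        calc (Finset.univ \ U).card ≤ 50 * D * k := hUc
          _ ≤ 50 * D * (4 * D ^ 2) := Nat.mul_le_mul_left _ hk
          _ = 200 * D ^ 3 := by ring
      obtain ⟨z0, hz0, hfz0⟩ := hcon _ hc
      have hz0U : S.supp z0 ⊆ U := by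
        intro x hx
        by_contra hxU
        exact (Finset.disjoint_left.1 hz0 hx) (by simp [hxU])
      -- minimal element
      have hmin : ∃ z, S.supp z ⊆ U ∧ f z ≠ 0 ∧
          ∀ w, S.supp w ⊆ U → (S.supp w).card < (S.supp z).card → f w = 0 := by
        have hex : ∃ n, ∃ z, S.supp z ⊆ U ∧ f z ≠ 0 ∧ (S.supp z).card = n :=
          ⟨_, z0, hz0U, hfz0, rfl⟩
        obtain ⟨z, h1, h2, h3⟩ := Nat.find_spec hex
        refine ⟨z, h1, h2, fun w hw hlt => ?_⟩
        by_contra hne
        rw [h3] at hlt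
        exact Nat.find_min hex hlt ⟨w, hw, hne, rfl⟩
      obtain ⟨z, hzU, hfz, hzmin⟩ := hmin
      have hzsub : z ∈ S.sub U := (S.mem_sub _ _).2 hzU
      obtain ⟨R, hR1, hR2, hR3, hR4⟩ := S.reduce U hU z hzsub
      have hRD : R.length ≤ D := by
        by_contra hlt
        push Not at hlt
        have h1 := hD R hR1 (fun a ha => ⟨(hR2 a ha).1, (hR2 a ha).2.2⟩) hlt z
        rw [Del_eq] at h1
        · rcases mul_eq_zero.1 h1 with h | h
          · exact absurd h (pow_ne_zero _ (by norm_num))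
          · exact hfz h
        · intro T hT hne
          rw [List.sublist_map_iff] at hT
          obtain ⟨T', hT', rfl⟩ := hT
          apply hzmin
          · rw [← S.mem_sub]
            apply Subgroup.mul_mem _ hzsub
            apply Subgroup.list_prod_mem
            intro x hx
            rw [List.mem_map] at hx
            obtain ⟨a, ha, rfl⟩ := hx
            obtain ⟨_, h2, h3⟩ := hR2 a (hT'.subset ha)
            exact S.sub_mono h2 h3
          · apply hR4 T' hT'
            rintro rfl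
            exact hne rfl
      have hzc : (S.supp z).card ≤ 10 * D := hR3.trans (Nat.mul_le_mul_left _ hRD)
      obtain ⟨B, U', hB, hU', hzB, hBU, hU'U, hBU', hcard⟩ := S.enlarge U hU z hzsub
      have hf1z : f z = 1 := by
        rcases hf01 z with h | h
        · exact absurd h hfz
        · exact h
      have hpw' : ((B, z) :: L).Pairwise (fun a b => Disjoint a.1 b.1) := by
        rw [List.pairwise_cons]
        refine ⟨fun a ha => ?_, hpw⟩
        exact (Disjoint.mono_right hBU (hLU a ha)).symm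
      have hL' : ∀ a ∈ ((B, z) :: L), S.good a.1 ∧ a.2 ∈ S.sub a.1 ∧ f a.2 = 1 := by
        intro a ha
        rcases List.mem_cons.1 ha with rfl | ha
        · exact ⟨hB, (S.mem_sub _ _).2 hzB, hf1z⟩
        · exact hL a ha
      refine ⟨(B, z) :: L, by simp [hlen], hpw', hL', ?_, U', hU', ?_, ?_⟩
      · have h1 := length_le_of_family f hf01 (((B, z) :: L).map Prod.snd) 1 D ?_ hf1 ?_
        · rw [List.length_map, List.length_cons, hlen] at h1
          exact h1
        · intro T hT hlt
          rw [List.sublist_map_iff] at hT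
          obtain ⟨T', hT', rfl⟩ := hT
          rw [List.length_map] at hlt
          exact hD T' (hpw'.sublist hT') (fun a ha => ⟨(hL' a (hT'.subset ha)).1,
            (hL' a (hT'.subset ha)).2.1⟩) hlt 1
        · intro x hx
          rw [List.mem_map] at hx
          obtain ⟨a, ha, rfl⟩ := hx
          rw [one_mul]
          exact (hL' a ha).2.2
      · intro a ha
        rcases List.mem_cons.1 ha with rfl | ha
        · exact hBU'
        · exact Disjoint.mono_right hU'U (hLU a ha)
      · have h1 : Finset.univ \ U' ⊆ (Finset.univ \ U) ∪ (U \ U') := by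
          intro x hx
          simp only [Finset.mem_sdiff, Finset.mem_univ, true_and, Finset.mem_union] at hx ⊢
          by_cases h : x ∈ U
          · exact Or.inr ⟨h, hx⟩
          · exact Or.inl h
        calc (Finset.univ \ U').card ≤ ((Finset.univ \ U) ∪ (U \ U')).card := Finset.card_le_card h1
          _ ≤ (Finset.univ \ U).card + (U \ U').card := Finset.card_union_le _ _
          _ ≤ 50 * D * k + 5 * (10 * D) := by
            apply Nat.add_le_add hUc
            exact hcard.trans (Nat.mul_le_mul_left _ hzc)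
          _ = 50 * D * (k + 1) := by ring
  obtain ⟨_, _, _, _, h, _⟩ := hfam (4 * D ^ 2 + 1)
  omega

end Pool.Agent.Helper25
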