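import Mathlib
set_option autoImplicit false
open Polynomial Module

namespace Pool.Agent.Helper25

/-- A group with no nontrivial linear character over `ℂ`. -/
def NoChar (P : Type*) [Group P] : Prop := ∀ (χ : P →* ℂˣ) (x : P), χ x = 1

section
variable {E : Type*} [AddCommGroup E] [Module ℂ E]

theorem mem_iSup_eigen (T : Module.End ℂ E) {N : ℕ} (hN : 0 < N) (hT : T ^ N = 1)
    (W : Submodule ℂ E) [FiniteDimensional ℂ W] (hW : ∀ w ∈ W, T w ∈ W) (w : E) (hw : w ∈ W) :
    w ∈ ⨆ μ : ℂ, (W ⊓ T.eigenspace μ) := by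
  set T' : Module.End ℂ W := T.restrict hW with hT'
  have hT'N : T' ^ N = 1 := by
    apply LinearMap.ext
    intro x
    apply Subtype.ext
    rw [hT', Module.End.pow_restrict, LinearMap.restrict_apply]
    simp [hT]
  have hss : T'.IsSemisimple := by
    apply Module.End.isSemisimple_of_squarefree_aeval_eq_zero (p := X ^ N - C (1 : ℂ))
    · exact (separable_X_pow_sub_C (1 : ℂ) (by exact_mod_cast hN.ne') one_ne_zero).squarefree
    · simp [hT'N]
  have htop := hss.iSup_eigenspace_eq_top
  have h1 : (⟨w, hw⟩ : W) ∈ ⨆ μ : ℂ, T'.eigenspace μ := by rw [htop]; exact Submodule.mem_top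
  have h2 : W.subtype ⟨w, hw⟩ ∈ (⨆ μ : ℂ, T'.eigenspace μ).map W.subtype :=
    Submodule.mem_map_of_mem h1
  rw [Submodule.map_iSup] at h2
  refine (iSup_mono ?_ : (⨆ μ : ℂ, (T'.eigenspace μ).map W.subtype) ≤ _) h2
  intro μ
  rintro _ ⟨x, hx, rfl⟩
  refine ⟨x.2, ?_⟩
  have hx' : T' x = μ • x := Module.End.mem_eigenspace_iff.1 hx
  have h3 := congrArg (fun y : W => (y : E)) hx'
  exact Module.End.mem_eigenspace_iff.2 h3

/-- product of the operators `ρ z - 1` -/
def opL {Γ : Type*} [Group Γ] (ρ : Γ →* Module.End ℂ E) : List Γ → Module.End ℂ E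
  | [] => 1
  | z :: L => (ρ z - 1) * opL ρ L

theorem opL_comm {Γ : Type*} [Group Γ] (ρ : Γ →* Module.End ℂ E) (b : Γ) (L : List Γ)
    (h : ∀ z ∈ L, Commute b z) : Commute (ρ b) (opL ρ L) := by
  induction L with
  | nil => exact Commute.one_right _
  | cons z L ih =>
    have h1 : Commute (ρ b) (ρ z) := (h z (by simp)).map ρ
    exact (h1.sub_right (Commute.one_right _)).mul_right (ih (fun z hz => h z (by simp [hz])))

theorem opL_mem {Γ : Type*} [Group Γ] (ρ : Γ →* Module.End ℂ E) (L : List Γ) (W : Submodule ℂ E)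
    (hW : ∀ z ∈ L, ∀ w ∈ W, ρ z w ∈ W) (w : E) (hw : w ∈ W) : opL ρ L w ∈ W := by
  induction L with
  | nil => simpa [opL] using hw
  | cons z L ih =>
    have h1 := ih (fun z hz => hW z (by simp [hz]))
    simp only [opL, Module.End.mul_apply, LinearMap.sub_apply, Module.End.one_apply]
    exact W.sub_mem (hW z (by simp) _ h1) h1

theorem two_pow_le_finrank {Γ : Type*} [Group Γ] [Finite Γ] (ρ : Γ →* Module.End ℂ E) :
    ∀ (L : List (Subgroup Γ × Γ)),
      L.Pairwise (fun a b => ∀ x ∈ a.1, ∀ y ∈ b.1, Commute x y) →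
      (∀ a ∈ L, a.2 ∈ a.1 ∧ NoChar a.1) →
      ∀ (W : Submodule ℂ E) [FiniteDimensional ℂ W],
      (∀ a ∈ L, ∀ x ∈ a.1, ∀ w ∈ W, ρ x w ∈ W) →
      ∀ w ∈ W, opL ρ (L.map Prod.snd) w ≠ 0 → 2 ^ L.length ≤ finrank ℂ W := by
  intro L
  induction L with
  | nil =>
    intro _ _ W _ _ w hw hne
    simp only [List.map_nil, opL, Module.End.one_apply] at hne
    simp only [List.length_nil, pow_zero]
    rw [Nat.one_le_iff_ne_zero, ← Nat.pos_iff_ne_zero]
    have : Nontrivial W := ⟨⟨⟨w, hw⟩, 0, fun h => hne (congrArg Subtype.val h)⟩⟩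
    exact finrank_pos
  | cons a L ih =>
    intro hpw hmem W _ hW w hw hne
    rw [List.pairwise_cons] at hpw
    have ih' := ih hpw.2 (fun b hb => hmem b (by simp [hb]))
    by_contra hlt
    set A := opL ρ (L.map Prod.snd) with hA
    have hAw : A w ≠ 0 := by
      intro h
      apply hne
      simp only [List.map_cons, opL, Module.End.mul_apply]
      rw [← hA, h, map_zero]
    have hcommA : ∀ b ∈ a.1, Commute (ρ b) A := by
      intro b hb
      apply opL_comm
      intro z hz
      rw [List.mem_map] at hz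
      obtain ⟨p, hp, rfl⟩ := hz
      exact hpw.1 p hp b hb p.2 (hmem p (by simp [hp])).1
    have hN : 0 < Nat.card Γ := Nat.card_pos
    have hfin : ∀ b : Γ, ρ b ^ Nat.card Γ = 1 := by
      intro b
      rw [← map_pow, pow_card_eq_one', map_one]
    have hdim : ∀ b ∈ a.1, ∀ μ : ℂ, ∀ u ∈ W ⊓ (ρ b).eigenspace μ, A u ≠ 0 →
        2 ^ L.length ≤ finrank ℂ (W ⊓ (ρ b).eigenspace μ : Submodule ℂ E) := by
      intro b hb μ u hu hAu
      refine ih' (W ⊓ (ρ b).eigenspace μ) ?_ u hu hAu
      intro p hp x hx y hy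
      refine ⟨hW p (by simp [hp]) x hx y hy.1, ?_⟩
      have h1 : ρ b y = μ • y := Module.End.mem_eigenspace_iff.1 hy.2
      apply Module.End.mem_eigenspace_iff.2
      have h2 : Commute (ρ b) (ρ x) := (hpw.1 p hp b hb x hx).map ρ
      have h3 : ρ b (ρ x y) = ρ x (ρ b y) := by
        rw [← Module.End.mul_apply, h2.eq, Module.End.mul_apply]
      rw [h3, h1, map_smul]
    have hscal : ∀ b : a.1, ∃ l : ℂ, ρ b (A w) = l • A w := by
      intro b
      have huniq : ∃ μ0 : ℂ, ∀ ν ≠ μ0, ∀ u ∈ W ⊓ (ρ b).eigenspace ν, A u = 0 := by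
        by_cases hex : ∃ μ0 : ℂ, ∃ u ∈ W ⊓ (ρ b).eigenspace μ0, A u ≠ 0
        · obtain ⟨μ0, u, hu, hAu⟩ := hex
          refine ⟨μ0, fun ν hν u' hu' => ?_⟩
          by_contra hAu'
          apply hlt
          have h1 := hdim b b.2 μ0 u hu hAu
          have h2 := hdim b b.2 ν u' hu' hAu'
          have h3 := Submodule.finrank_sup_add_finrank_inf_eq (W ⊓ (ρ b).eigenspace μ0)
            (W ⊓ (ρ b).eigenspace ν)
          have h4 : (W ⊓ (ρ b).eigenspace μ0) ⊓ (W ⊓ (ρ b).eigenspace ν) = ⊥ := by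
            rw [eq_bot_iff]
            rintro y ⟨⟨_, hy1⟩, ⟨_, hy2⟩⟩
            have e1 : ρ b y = μ0 • y := Module.End.mem_eigenspace_iff.1 hy1
            have e2 : ρ b y = ν • y := Module.End.mem_eigenspace_iff.1 hy2
            have e3 : (μ0 - ν) • y = 0 := by rw [sub_smul, ← e1, ← e2, sub_self]
            rcases smul_eq_zero.1 e3 with h | h
            · exact absurd (sub_eq_zero.1 h).symm hν
            · exact h
          rw [h4, finrank_bot, add_zero] at h3
          have h5 : finrank ℂ ((W ⊓ (ρ b).eigenspace μ0) ⊔ (W ⊓ (ρ b).eigenspace ν) : Submodule ℂ E)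
              ≤ finrank ℂ W := Submodule.finrank_mono (sup_le inf_le_left inf_le_left)
          rw [List.length_cons, pow_succ]
          omega
        · push Not at hex
          exact ⟨0, fun ν _ u hu => hex ν u hu⟩
      obtain ⟨μ0, hμ0⟩ := huniq
      have hbW : ∀ w ∈ W, ρ b w ∈ W := hW a (by simp) b b.2
      have hmemw := mem_iSup_eigen (ρ (b : Γ)) hN (hfin b) W hbW w hw
      have : A w ∈ (ρ (b : Γ)).eigenspace μ0 := by
        refine Submodule.iSup_induction (fun μ : ℂ => W ⊓ (ρ (b : Γ)).eigenspace μ)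
          (motive := fun y => A y ∈ (ρ (b : Γ)).eigenspace μ0) hmemw ?_ ?_ ?_
        · intro ν u hu
          by_cases hν : ν = μ0
          · subst hν
            apply Module.End.mem_eigenspace_iff.2
            have h1 : ρ b u = ν • u := Module.End.mem_eigenspace_iff.1 hu.2
            have h3 : ρ b (A u) = A (ρ b u) := by
              rw [← Module.End.mul_apply, (hcommA b b.2).eq, Module.End.mul_apply]
            rw [h3, h1, map_smul]
          · rw [hμ0 ν hν u hu]; exact Submodule.zero_mem _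
        · rw [map_zero]; exact Submodule.zero_mem _
        · intro x y hx hy
          rw [map_add]; exact Submodule.add_mem _ hx hy
      exact ⟨μ0, Module.End.mem_eigenspace_iff.1 this⟩
    choose l hl using hscal
    have hinj : ∀ s t : ℂ, s • A w = t • A w → s = t := by
      intro s t hst
      have : (s - t) • A w = 0 := by rw [sub_smul, hst, sub_self]
      rcases smul_eq_zero.1 this with h | h
      · exact sub_eq_zero.1 h
      · exact absurd h hAw
    let χ : a.1 →* ℂ :=
      { toFun := l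
        map_one' := by
          apply hinj
          rw [← hl]; simp
        map_mul' := by
          intro x y
          apply hinj
          rw [← hl, Subgroup.coe_mul, map_mul, Module.End.mul_apply, hl, map_smul, hl, smul_smul,
            mul_comm] }
    have h1 := (hmem a (by simp)).2 χ.toHomUnits ⟨a.2, (hmem a (by simp)).1⟩
    have h2 : l ⟨a.2, (hmem a (by simp)).1⟩ = 1 := congrArg Units.val h1
    have h3 := hl ⟨a.2, (hmem a (by simp)).1⟩
    rw [h2, one_smul] at h3
    apply hne
    simp only [List.map_cons, opL, Module.End.mul_apply, LinearMap.sub_apply, Module.End.one_apply]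
    rw [← hA, sub_eq_zero]
    exact h3

end

end Pool.Agent.Helper25
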