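import Mathlib
import Pool.Agent.Helper25.BlockSys
import Pool.Agent.Helper25.DegLemma
set_option autoImplicit false
open Equiv

namespace Pool.Agent.Helper25

section
variable {α : Type*} [Fintype α] [DecidableEq α]

theorem mem_sub_iff (B : Finset α) (g : alternatingGroup α) :
    g ∈ (alternatingGroup.ofSubtype B).range ↔ (g : Perm α).support ⊆ B :=
  alternatingGroup.mem_range_ofSubtype_iff B g

theorem alt_comm (B C : Finset α) (hBC : Disjoint B C) (g : alternatingGroup α)
    (hg : g ∈ (alternatingGroup.ofSubtype B).range) (h : alternatingGroup α)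
    (hh : h ∈ (alternatingGroup.ofSubtype C).range) : Commute g h := by
  rw [mem_sub_iff] at hg hh
  have h1 : Equiv.Perm.Disjoint (g : Perm α) (h : Perm α) := by
    rw [Equiv.Perm.disjoint_iff_disjoint_support]
    exact Disjoint.mono hg hh hBC
  exact Subtype.ext h1.commute.eq

theorem alt_enlarge (U : Finset α) (hU : U = ∅ ∨ 5 ≤ U.card) (g : alternatingGroup α)
    (hg : g ∈ (alternatingGroup.ofSubtype U).range) :
    ∃ B U' : Finset α, (B = ∅ ∨ 5 ≤ B.card) ∧ (U' = ∅ ∨ 5 ≤ U'.card) ∧
    (g : Perm α).support ⊆ B ∧ B ⊆ U ∧ U' ⊆ U ∧ Disjoint B U' ∧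
    (U \ U').card ≤ 5 * ((g : Perm α).support).card := by
  rw [mem_sub_iff] at hg
  by_cases h1 : (g : Perm α) = 1
  · refine ⟨∅, U, Or.inl rfl, hU, ?_, Finset.empty_subset _, Finset.Subset.refl _,
      Finset.disjoint_empty_left _, ?_⟩
    · rw [h1]; simp
    · simp
  · have h2 := Equiv.Perm.two_le_card_support_of_ne_one h1
    have hU5 : 5 ≤ U.card := by
      rcases hU with h | h
      · exfalso
        rw [h, Finset.subset_empty] at hg
        rw [hg] at h2
        simp at h2
      · exact h
    have h3 : ((g : Perm α).support).card ≤ U.card := Finset.card_le_card hg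
    obtain ⟨B, hB1, hB2, hB3⟩ := Finset.exists_subsuperset_card_eq hg
      (n := max ((g : Perm α).support).card 5) (le_max_left _ _) (max_le h3 hU5)
    have hB5 : 5 ≤ B.card := by rw [hB3]; exact le_max_right _ _
    have hBs : B.card + 4 ≤ 5 * ((g : Perm α).support).card := by
      rw [hB3]
      rcases le_total ((g : Perm α).support).card 5 with h | h
      · rw [max_eq_right h]; omega
      · rw [max_eq_left h]; omega
    by_cases h4 : 5 ≤ (U \ B).card
    · refine ⟨B, U \ B, Or.inr hB5, Or.inr h4, hB1, hB2, Finset.sdiff_subset,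
        Finset.disjoint_sdiff, ?_⟩
      have : U \ (U \ B) ⊆ B := by
        intro x hx
        simp only [Finset.mem_sdiff, not_and, not_not] at hx
        exact hx.2 hx.1
      exact (Finset.card_le_card this).trans (by omega)
    · refine ⟨B, ∅, Or.inr hB5, Or.inl rfl, hB1, hB2, Finset.empty_subset _,
        Finset.disjoint_empty_right _, ?_⟩
      have : (U \ B).card + B.card = U.card := Finset.card_sdiff_add_card_eq_card hB2
      rw [Finset.sdiff_empty]
      omega

theorem list_prod_apply_fix (x : α) (L : List (Finset α × alternatingGroup α))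
    (h : ∀ a ∈ L, (a.2 : Perm α) x = x) :
    (((L.map Prod.snd).prod : alternatingGroup α) : Perm α) x = x := by
  induction L with
  | nil => simp
  | cons a L ih =>
    rw [List.map_cons, List.prod_cons, Subgroup.coe_mul, Equiv.Perm.mul_apply,
      ih (fun b hb => h b (by simp [hb])), h a (by simp)]

theorem alt_family (g : alternatingGroup α) (h10 : 10 < ((g : Perm α).support).card) (k : ℕ)
    (hk : 10 * k < ((g : Perm α).support).card + 10) :
    ∃ L : List (Finset α × alternatingGroup α), L.length = k ∧
      L.Pairwise (fun a b => Disjoint a.1 b.1) ∧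
      ∀ a ∈ L, a.1 ⊆ (g : Perm α).support ∧ a.1.card = 5 ∧
        a.2 ∈ (alternatingGroup.ofSubtype a.1).range ∧
        ∃ x ∈ (g : Perm α).support, x ∈ a.1 ∧ (a.2 : Perm α) x = (g : Perm α)⁻¹ x := by
  classical
  set s := (g : Perm α).support with hs
  induction k with
  | zero => exact ⟨[], rfl, List.Pairwise.nil, by simp⟩
  | succ k ih =>
    obtain ⟨L, hlen, hpw, hL⟩ := ih (by omega)
    set V := L.toFinset.biUnion Prod.fst with hV
    have hVc : V.card ≤ 5 * k := by
      have h1 : V.card ≤ L.toFinset.card * 5 := by
        apply Finset.card_biUnion_le_card_mul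
        intro a ha
        exact (hL a (List.mem_toFinset.1 ha)).2.1.le
      have h2 : L.toFinset.card ≤ k := by rw [← hlen]; exact List.toFinset_card_le L
      omega
    have hbad : (V ∪ V.image (g : Perm α)).card < s.card := by
      have h1 := Finset.card_union_le V (V.image (g : Perm α))
      have h2 : (V.image (g : Perm α)).card ≤ V.card := Finset.card_image_le
      omega
    obtain ⟨x, hxs, hxbad⟩ := Finset.exists_mem_notMem_of_card_lt_card hbad
    rw [Finset.mem_union, not_or] at hxbad
    have hyV : (g : Perm α)⁻¹ x ∉ V := by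
      intro h
      apply hxbad.2
      rw [Finset.mem_image]
      exact ⟨_, h, by simp⟩
    set y := (g : Perm α)⁻¹ x with hy
    have hgx : (g : Perm α) x ≠ x := Equiv.Perm.mem_support.1 hxs
    have hyx : y ≠ x := by
      intro h
      apply hgx
      rw [hy, Equiv.Perm.inv_eq_iff_eq] at h
      exact h.symm
    have hys : y ∈ s := by
      rw [hs, Equiv.Perm.mem_support]
      intro h
      apply hyx
      rw [← h, hy]; simp
    have hsub : ({x, y} : Finset α) ⊆ s \ V := by
      intro z hz
      rw [Finset.mem_insert, Finset.mem_singleton] at hz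
      rw [Finset.mem_sdiff]
      rcases hz with rfl | rfl
      · exact ⟨hxs, hxbad.1⟩
      · exact ⟨hys, hyV⟩
    have hc2 : ({x, y} : Finset α).card = 2 := Finset.card_pair hyx.symm
    have hsV : 5 ≤ (s \ V).card := by
      have := Finset.le_card_sdiff V s
      omega
    obtain ⟨C, hC1, hC2, hC3⟩ := Finset.exists_subsuperset_card_eq hsub (n := 5) (by omega) hsV
    have hlt : ({x, y} : Finset α).card < C.card := by omega
    obtain ⟨c, hcC, hc⟩ := Finset.exists_mem_notMem_of_card_lt_card hlt
    rw [Finset.mem_insert, Finset.mem_singleton, not_or] at hc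
    have hxC : x ∈ C := hC1 (by simp)
    have hyC : y ∈ C := hC1 (by simp)
    set τ : Perm α := swap x y * swap y c with hτ
    have hτalt : τ ∈ alternatingGroup α :=
      Equiv.Perm.mul_mem_alternatingGroup_of_isSwap ⟨x, y, hyx.symm, rfl⟩ ⟨y, c, (Ne.symm hc.2), rfl⟩
    have hτx : τ x = y := by
      rw [hτ, Equiv.Perm.mul_apply, swap_apply_of_ne_of_ne hyx.symm (Ne.symm hc.1), swap_apply_left]
    have hτs : τ.support ⊆ C := by
      intro z hz
      by_contra hzC
      rw [Equiv.Perm.mem_support] at hz
      apply hz
      have h1 : z ≠ x := fun h => hzC (h ▸ hxC)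
      have h2 : z ≠ y := fun h => hzC (h ▸ hyC)
      have h3 : z ≠ c := fun h => hzC (h ▸ hcC)
      rw [hτ, Equiv.Perm.mul_apply, swap_apply_of_ne_of_ne h2 h3, swap_apply_of_ne_of_ne h1 h2]
    refine ⟨(C, ⟨τ, hτalt⟩) :: L, by simp [hlen], ?_, ?_⟩
    · rw [List.pairwise_cons]
      refine ⟨fun a ha => ?_, hpw⟩
      rw [Finset.disjoint_left]
      intro z hz hz'
      have h1 := hC2 hz
      rw [Finset.mem_sdiff] at h1
      apply h1.2
      rw [hV, Finset.mem_biUnion]
      exact ⟨a, List.mem_toFinset.2 ha, hz'⟩
    · intro a ha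
      rcases List.mem_cons.1 ha with rfl | ha
      · refine ⟨hC2.trans Finset.sdiff_subset, hC3, ?_, x, hxs, hxC, hτx⟩
        rw [mem_sub_iff]; exact hτs
      · exact hL a ha

theorem alt_reduce (U : Finset α) (hU : U = ∅ ∨ 5 ≤ U.card) (g : alternatingGroup α)
    (hg : g ∈ (alternatingGroup.ofSubtype U).range) :
    ∃ L : List (Finset α × alternatingGroup α),
    L.Pairwise (fun a b => Disjoint a.1 b.1) ∧
    (∀ a ∈ L, (a.1 = ∅ ∨ 5 ≤ a.1.card) ∧ a.1 ⊆ U ∧ a.2 ∈ (alternatingGroup.ofSubtype a.1).range) ∧
    ((g : Perm α).support).card ≤ 10 * L.length ∧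
    ∀ T : List (Finset α × alternatingGroup α), T.Sublist L → T ≠ [] →
      (((g * (T.map Prod.snd).prod : alternatingGroup α) : Perm α).support).card <
        ((g : Perm α).support).card := by
  classical
  have hg' := (mem_sub_iff _ _).1 hg
  rcases Nat.eq_zero_or_pos ((g : Perm α).support).card with h0 | hpos
  · refine ⟨[], List.Pairwise.nil, by simp, by simp [h0], ?_⟩
    intro T hT hne
    exact absurd (List.sublist_nil.1 hT) hne
  rcases Nat.lt_or_ge 10 ((g : Perm α).support).card with h10 | h10
  · obtain ⟨L, hlen, hpw, hL⟩ := alt_family g h10 ((((g : Perm α).support).card + 9) / 10) (by omega)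
    refine ⟨L, hpw, ?_, by rw [hlen]; omega, ?_⟩
    · intro a ha
      obtain ⟨h1, h2, h3, _⟩ := hL a ha
      exact ⟨Or.inr h2.ge, h1.trans hg', h3⟩
    · intro T hT hne
      match T, hT, hne with
      | a :: T', hT, _ =>
        have haL : a ∈ L := hT.subset (by simp)
        obtain ⟨h1, h2, h3, x, hx1, hx2, hx3⟩ := hL a haL
        have hpwT := hpw.sublist hT
        rw [List.pairwise_cons] at hpwT
        have hfix : ((((T'.map Prod.snd).prod : alternatingGroup α)) : Perm α) x = x := by
          apply list_prod_apply_fix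
          intro b hb
          have hbL : b ∈ L := hT.subset (by simp [hb])
          have h4 := (mem_sub_iff _ _).1 (hL b hbL).2.2.1
          by_contra hne
          exact (Finset.disjoint_left.1 (hpwT.1 b hb) hx2) (h4 (Equiv.Perm.mem_support.2 hne))
        have hxfix : ((g * ((a :: T').map Prod.snd).prod : alternatingGroup α) : Perm α) x = x := by
          rw [List.map_cons, List.prod_cons, Subgroup.coe_mul, Subgroup.coe_mul,
            Equiv.Perm.mul_apply, Equiv.Perm.mul_apply, hfix, hx3]
          simp
        have hsub : ((g * ((a :: T').map Prod.snd).prod : alternatingGroup α) : Perm α).support ⊆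
            (g : Perm α).support := by
          rw [← mem_sub_iff]
          apply Subgroup.mul_mem
          · rw [mem_sub_iff]
          · apply Subgroup.list_prod_mem
            intro y hy
            rw [List.mem_map] at hy
            obtain ⟨b, hb, rfl⟩ := hy
            obtain ⟨h5, _, h6, _⟩ := hL b (hT.subset hb)
            rw [mem_sub_iff] at h6 ⊢
            exact h6.trans h5
        apply Finset.card_lt_card
        rw [Finset.ssubset_iff_of_subset hsub]
        refine ⟨x, hx1, ?_⟩
        rw [Equiv.Perm.notMem_support]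
        exact hxfix
  · refine ⟨[(U, g⁻¹)], List.pairwise_singleton _ _, ?_, by simpa using h10, ?_⟩
    · intro a ha
      rw [List.mem_singleton] at ha
      subst ha
      exact ⟨hU, Finset.Subset.refl _, Subgroup.inv_mem _ hg⟩
    · intro T hT hne
      have hT' : T = [(U, g⁻¹)] := by
        rcases List.sublist_singleton.1 hT with h | h
        · exact absurd h hne
        · exact h
      subst hT'
      simp only [List.map_cons, List.map_nil, List.prod_singleton, mul_inv_cancel,
        Subgroup.coe_one, Equiv.Perm.support_one, Finset.card_empty]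
      exact hpos

/-- the block system of an alternating group -/
def altSys (α : Type*) [Fintype α] [DecidableEq α] : BlockSys (alternatingGroup α) α where
  supp g := (g : Perm α).support
  good B := B = ∅ ∨ 5 ≤ B.card
  sub B := (alternatingGroup.ofSubtype B).range
  mem_sub B g := mem_sub_iff B g
  faithful g hg := Subtype.ext (Equiv.Perm.support_eq_empty_iff.1 hg)
  comm := alt_comm
  enlarge := alt_enlarge
  reduce := alt_reduce

theorem noChar_of_perfect {P : Type*} [Group P] (h : commutator P = ⊤) : NoChar P := by
  intro χ x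
  have h1 : x ∈ commutator P := by rw [h]; exact Subgroup.mem_top x
  exact MonoidHom.mem_ker.1 (Abelianization.commutator_subset_ker χ h1)

theorem noChar_of_surjective {P Q : Type*} [Group P] [Group Q] (φ : P →* Q)
    (hφ : Function.Surjective φ) (h : NoChar P) : NoChar Q := by
  intro χ x
  obtain ⟨y, rfl⟩ := hφ x
  exact h (χ.comp φ) y

theorem alt_noChar (B : Finset α) (hB : B = ∅ ∨ 5 ≤ B.card) :
    NoChar ((altSys α).sub B) := by
  rcases hB with rfl | hB
  · intro χ x
    have : x = 1 := by
      have h1 := ((altSys α).mem_sub ∅ x).1 x.2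
      rw [Finset.subset_empty] at h1
      have h2 : ((x : alternatingGroup α) : Perm α) = 1 := Equiv.Perm.support_eq_empty_iff.1 h1
      exact Subtype.ext (Subtype.ext h2)
    rw [this, map_one]
  · apply noChar_of_surjective (alternatingGroup.ofSubtype B).rangeRestrict
      (MonoidHom.rangeRestrict_surjective _)
    apply noChar_of_perfect
    exact commutator_alternatingGroup_eq_top (by simpa using hB)

end

end Pool.Agent.Helper25
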