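import Mathlib
import Pool.Agent.Helper25.CycBase
set_option autoImplicit false
open Polynomial Module

namespace Pool.Agent.Helper25

section
variable {Γ : Type*} [Group Γ]

/-- translation operator `(tr x g) y = g (y * x)` -/
def tr (x : Γ) : Module.End ℚ (Γ → ℚ) := LinearMap.funLeft ℚ ℚ (fun y => y * x)

theorem tr_apply (x : Γ) (g : Γ → ℚ) (y : Γ) : tr x g y = g (y * x) := rfl

theorem tr_mul (a b : Γ) : tr a * tr b = tr (a * b) := by
  apply LinearMap.ext
  intro g
  funext y
  rw [Module.End.mul_apply, tr_apply, tr_apply, tr_apply, mul_assoc]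

theorem tr_pow (x : Γ) (k : ℕ) : tr x ^ k = tr (x ^ k) := by
  induction k with
  | zero => 
    ext g y
    simp [tr_apply]
  | succ k ih => rw [pow_succ, ih, tr_mul, pow_succ]

theorem tr_one : tr (1 : Γ) = 1 := by
  ext g y; simp [tr_apply]

/-- evaluation functional -/
noncomputable def lam (f : Γ → ℚ) (x : Γ) : ℚ[X] →ₗ[ℚ] ℚ where
  toFun Q := (aeval (tr x) Q f) 1
  map_add' a b := by simp
  map_smul' a b := by simp

theorem lam_X_pow (f : Γ → ℚ) (x : Γ) (k : ℕ) : lam f x (X ^ k) = f (x ^ k) := by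
  simp [lam, tr_pow, tr_apply]

theorem lam_C_mul (f : Γ → ℚ) (x : Γ) (a : ℚ) (Q : ℚ[X]) : lam f x (C a * Q) = a * lam f x Q := by
  rw [← smul_eq_C_mul, map_smul, smul_eq_mul]

theorem aeval_mem (f : Γ → ℚ) (W : Submodule ℚ (Γ → ℚ)) (hW : ∀ x, (fun y => f (y * x)) ∈ W)
    (x g : Γ) (Q : ℚ[X]) : aeval (tr x) Q (tr g f) ∈ W := by
  rw [aeval_eq_sum_range, LinearMap.sum_apply]
  apply Submodule.sum_mem
  intro i _
  rw [LinearMap.smul_apply, tr_pow, ← Module.End.mul_apply, tr_mul]
  exact W.smul_mem _ (hW _)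

theorem lemD (f : Γ → ℚ) (W : Submodule ℚ (Γ → ℚ)) [FiniteDimensional ℚ W]
    (hW : ∀ x, (fun y => f (y * x)) ∈ W) {N : ℕ} (hN : 0 < N) (x g : Γ) (hx : x ^ N = 1)
    {ι : Type*} (T : Finset ι) (E : ι → ℕ)
    (hne : aeval (tr x) (∏ j ∈ T, (X ^ E j - 1 : ℚ[X])) (tr g f) ≠ 0) :
    ∃ m, m ∣ N ∧ Nat.totient m ≤ finrank ℚ W ∧ ∀ j ∈ T, ¬ m ∣ E j := by
  obtain ⟨m, hmN, hphi, hnd⟩ := exists_cyclotomic (tr x) hN (by rw [tr_pow, hx, tr_one]) W (tr g f)
    (aeval_mem f W hW x g) _ hne
  refine ⟨m, hmN, hphi, fun j hj hmj => hnd ?_⟩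
  have h1 : cyclotomic m ℚ ∣ X ^ m - 1 := cyclotomic.dvd_X_pow_sub_one m ℚ
  obtain ⟨k, hk⟩ := hmj
  have h2 : (X ^ m - 1 : ℚ[X]) ∣ X ^ E j - 1 := by
    rw [hk]; exact pow_one_sub_dvd_pow_mul_sub_one X m k
  exact (h1.trans h2).trans (Finset.dvd_prod_of_mem _ hj)

variable {N : ℕ} (hN : N ≠ 0) {e : ℕ → ℕ}
  (he : ∀ p ∈ N.primeFactors, e p ≡ 1 [MOD p ^ N.factorization p] ∧
    ∀ q ∈ N.primeFactors, q ≠ p → q ^ N.factorization q ∣ e p)
  (hexp : ∀ x : Γ, x ^ N = 1)
  (hhom : ∀ B ⊆ N.primeFactors, ∀ x y : Γ,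
    (x * y) ^ (∑ p ∈ B, e p) = x ^ (∑ p ∈ B, e p) * y ^ (∑ p ∈ B, e p))
  (f : Γ → ℚ) (W : Submodule ℚ (Γ → ℚ)) [FiniteDimensional ℚ W]
    (hW : ∀ x, (fun y => f (y * x)) ∈ W) {r : ℕ} (hr : finrank ℚ W ≤ r)

include hN he hexp hW hr

theorem card_le_log {ι : Type*} (T : Finset ι) (B : ι → Finset ℕ)
    (hB : ∀ j ∈ T, B j ⊆ N.primeFactors)
    (hdis : ∀ i ∈ T, ∀ j ∈ T, i ≠ j → Disjoint (B i) (B j)) (x : Γ)
    (hne : lam f x (∏ j ∈ T, (X ^ (∑ p ∈ B j, e p) - 1 : ℚ[X])) ≠ 0) :
    T.card ≤ Nat.log 2 (2 * r) := by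
  have hne' : aeval (tr x) (∏ j ∈ T, (X ^ (∑ p ∈ B j, e p) - 1 : ℚ[X])) (tr 1 f) ≠ 0 := by
    intro h
    apply hne
    change (aeval (tr x) _ f) 1 = 0
    rw [tr_one] at h
    change aeval (tr x) _ f = 0 at h
    rw [h]; rfl
  obtain ⟨m, hmN, hphi, hnd⟩ := lemD f W hW (Nat.pos_of_ne_zero hN) x 1 (hexp x) T _ hne'
  have h1 := card_le_card_primeFactors hN he T B hB hdis hmN hnd
  have hm0 : m ≠ 0 := fun h => hN (by rw [h] at hmN; exact Nat.eq_zero_of_zero_dvd hmN)
  have h2 := two_pow_card_le m hm0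
  have h3 : 2 ^ T.card ≤ 2 ^ m.primeFactors.card := Nat.pow_le_pow_right (by norm_num) h1
  have h4 : 2 ^ T.card ≤ 2 * r := by omega
  exact Nat.le_log_of_pow_le (by norm_num) h4

theorem block_card_le (B : Finset ℕ) (hB : B ⊆ N.primeFactors) (x : Γ)
    (h1 : f (x ^ (∑ p ∈ B, e p)) ≠ 0)
    (h0 : ∀ B' ⊆ B, B' ≠ B → f (x ^ (∑ p ∈ B', e p)) = 0) : B.card ≤ Nat.log 2 (2 * r) := by
  classical
  apply card_le_log hN he hexp f W hW hr B (fun j => {j})
  · intro j hj; simpa using hB hj
  · intro i _ j _ hij; simpa using hij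
  · simp only [Finset.sum_singleton, sub_eq_add_neg]
    rw [Finset.prod_add, map_sum, Finset.sum_eq_single B]
    · rw [Finset.sdiff_self, Finset.prod_empty, mul_one, Finset.prod_pow_eq_pow_sum, lam_X_pow]
      exact h1
    · intro t ht htB
      rw [Finset.prod_pow_eq_pow_sum, Finset.prod_const]
      have : (-1 : ℚ[X]) ^ (B \ t).card = C ((-1) ^ (B \ t).card) := by simp
      rw [this, mul_comm, lam_C_mul, lam_X_pow, h0 t (Finset.mem_powerset.1 ht) htB, mul_zero]
    · intro h; exact absurd (Finset.mem_powerset_self B) h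


omit [FiniteDimensional ℚ W] hW hr in
include hhom in
theorem exists_glue (k : ℕ) (B : Fin k → Finset ℕ)
    (z : Fin k → Γ) (hB : ∀ j, B j ⊆ N.primeFactors) (hdis : ∀ i j, i ≠ j → Disjoint (B i) (B j)) :
    ∃ w : Γ, ∀ j, w ^ (∑ p ∈ B j, e p) = z j ^ (∑ p ∈ B j, e p) := by
  classical
  induction k with
  | zero => exact ⟨1, fun j => j.elim0⟩
  | succ k ih =>
    obtain ⟨w, hw⟩ := ih (fun j => B j.castSucc) (fun j => z j.castSucc) (fun j => hB _)
      (fun i j hij => hdis _ _ (fun h => hij (Fin.castSucc_injective _ h)))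
    set U := (Finset.univ : Finset (Fin k)).biUnion (fun j => B j.castSucc) with hU
    have hUsub : U ⊆ N.primeFactors := by
      intro q hq
      rw [hU, Finset.mem_biUnion] at hq
      obtain ⟨j, _, hj⟩ := hq
      exact hB _ hj
    have hUlast : Disjoint U (B (Fin.last k)) := by
      rw [hU, Finset.disjoint_biUnion_left]
      intro j _
      exact hdis _ _ (Fin.castSucc_lt_last j).ne
    refine ⟨w ^ (∑ p ∈ U, e p) * z (Fin.last k) ^ (∑ p ∈ B (Fin.last k), e p), ?_⟩
    intro j
    rw [hhom _ (hB j), ← pow_mul, ← pow_mul]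
    induction j using Fin.lastCases with
    | last =>
      rw [pow_eq_pow_of_modEq (sum_mul_modEq_zero hN he hUsub (hB _) hUlast) (hexp w), pow_zero, one_mul]
      exact pow_eq_pow_of_modEq (sum_mul_self_modEq hN he (hB _)) (hexp _)
    | cast j =>
      have h1 : Disjoint (B (Fin.last k)) (B j.castSucc) := hdis _ _ (Fin.castSucc_lt_last j).ne'
      rw [pow_eq_pow_of_modEq (sum_mul_modEq_zero hN he (hB _) (hB _) h1) (hexp _), pow_zero, mul_one,
        ← hw j]
      have h2 : B j.castSucc ⊆ U := by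
        intro q hq; rw [hU, Finset.mem_biUnion]; exact ⟨j, Finset.mem_univ _, hq⟩
      exact pow_eq_pow_of_modEq (sum_mul_subset_modEq hN he hUsub h2) (hexp w)

include hhom in
theorem family_le (hf01 : ∀ x, f x = 0 ∨ f x = 1) (hf1 : f 1 = 0) (k : ℕ) (B : Fin k → Finset ℕ)
    (z : Fin k → Γ) (hB : ∀ j, B j ⊆ N.primeFactors) (hdis : ∀ i j, i ≠ j → Disjoint (B i) (B j))
    (hz : ∀ j, f (z j ^ (∑ p ∈ B j, e p)) = 1) : k ≤ 4 * (Nat.log 2 (2 * r)) ^ 2 := by
  classical
  set d := Nat.log 2 (2 * r) with hd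
  set E : Fin k → ℕ := fun j => ∑ p ∈ B j, e p with hE
  obtain ⟨w, hwj⟩ := exists_glue hN he hexp hhom k B z hB hdis
  set c : Finset (Fin k) → ℚ := fun T => lam f w (∏ j ∈ T, (X ^ E j - 1 : ℚ[X])) with hc
  have hc0 : ∀ T, d < T.card → c T = 0 := by
    intro T hT
    by_contra hne
    have := card_le_log hN he hexp f W hW hr T B (fun j _ => hB j) (fun i _ j _ hij => hdis i j hij) w hne
    omega
  set p : ℚ[X] := ∑ T ∈ (Finset.univ : Finset (Fin k)).powerset, C (c T) * X ^ T.card with hp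
  have hpdeg : p.natDegree ≤ d := by
    apply natDegree_sum_le_of_forall_le
    intro T _
    by_cases hT : T.card ≤ d
    · exact (natDegree_C_mul_X_pow_le _ _).trans hT
    · rw [hc0 T (by omega)]; simp
  have hp0 : p.coeff 0 = 0 := by
    rw [hp, finsetSum_coeff, Finset.sum_eq_single ∅]
    · simp only [hc, Finset.prod_empty, Finset.card_empty, pow_zero, mul_one, coeff_C_zero]
      have := lam_X_pow f w 0
      rw [pow_zero, pow_zero] at this
      rw [this, hf1]
    · intro T _ hT
      rw [coeff_C_mul_X_pow, if_neg]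
      exact fun h => hT (Finset.card_eq_zero.1 h.symm)
    · intro h; exact absurd (Finset.empty_mem_powerset _) h
  have hp1 : p.coeff 1 = k := by
    rw [hp, finsetSum_coeff]
    have h1 : ∀ T ∈ (Finset.univ : Finset (Fin k)).powerset, (C (c T) * X ^ T.card).coeff 1 =
        if T.card = 1 then c T else 0 := by
      intro T _
      rw [coeff_C_mul_X_pow]
      by_cases h : T.card = 1
      · simp [h]
      · rw [if_neg h, if_neg (fun h' => h h'.symm)]
    rw [Finset.sum_congr rfl h1, ← Finset.sum_filter]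
    have h2 : (Finset.univ : Finset (Fin k)).powerset.filter (fun T => T.card = 1) =
        (Finset.univ : Finset (Fin k)).image (fun j => {j}) := by
      ext T
      simp only [Finset.mem_filter, Finset.mem_powerset, Finset.mem_image, Finset.mem_univ, true_and,
        Finset.card_eq_one]
      constructor
      · rintro ⟨_, a, rfl⟩; exact ⟨a, rfl⟩
      · rintro ⟨a, rfl⟩; exact ⟨Finset.subset_univ _, a, rfl⟩
    rw [h2, Finset.sum_image (by intro a _ b _ h; simpa using h)]
    have h3 : ∀ j : Fin k, c {j} = 1 := by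
      intro j
      simp only [hc, Finset.prod_singleton, map_sub]
      rw [lam_X_pow, hwj j, hz j]
      have := lam_X_pow f w 0
      rw [pow_zero, pow_zero] at this
      rw [this, hf1]; norm_num
    simp [h3]
  have hpe : ∀ x : ℚ, 0 ≤ x → x ≤ 1 → |p.eval x| ≤ 1 := by
    intro x hx0 hx1
    have h1 : p.eval x = lam f w (∏ j : Fin k, (1 + C x * (X ^ E j - 1 : ℚ[X]))) := by
      rw [Finset.prod_one_add, map_sum, hp, eval_finsetSum]
      apply Finset.sum_congr rfl
      intro T _
      rw [Finset.prod_mul_distrib, Finset.prod_const, ← C_pow, lam_C_mul, eval_mul, eval_C, eval_pow,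
        eval_X, mul_comm]
    have h2 : ∀ j : Fin k, (1 + C x * (X ^ E j - 1 : ℚ[X])) = C x * X ^ E j + C (1 - x) := by
      intro j; rw [C_sub, C_1]; ring
    rw [Finset.prod_congr rfl (fun j _ => h2 j), Finset.prod_add, map_sum] at h1
    have h3 : ∀ T ∈ (Finset.univ : Finset (Fin k)).powerset,
        lam f w ((∏ i ∈ T, C x * X ^ E i) * ∏ i ∈ Finset.univ \ T, C (1 - x)) =
        x ^ T.card * (1 - x) ^ (Finset.univ \ T).card * f (w ^ (∑ i ∈ T, E i)) := by
      intro T _
      rw [Finset.prod_mul_distrib, Finset.prod_const, Finset.prod_const, Finset.prod_pow_eq_pow_sum,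
        ← C_pow, ← C_pow]
      have : C (x ^ T.card) * X ^ (∑ i ∈ T, E i) * C ((1 - x) ^ (Finset.univ \ T).card) =
        C (x ^ T.card * (1 - x) ^ (Finset.univ \ T).card) * X ^ (∑ i ∈ T, E i) := by
        rw [C_mul]; ring
      rw [this, lam_C_mul, lam_X_pow]
    rw [Finset.sum_congr rfl h3] at h1
    have h4 : ∑ T ∈ (Finset.univ : Finset (Fin k)).powerset,
        x ^ T.card * (1 - x) ^ (Finset.univ \ T).card = 1 := by
      have := Finset.prod_add (fun _ : Fin k => x) (fun _ : Fin k => 1 - x) Finset.univ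
      simp only [Finset.prod_const] at this
      rw [← this]; simp
    have h5 : 0 ≤ p.eval x := by
      rw [h1]
      apply Finset.sum_nonneg
      intro T _
      have hfn : 0 ≤ f (w ^ (∑ i ∈ T, E i)) := by rcases hf01 (w ^ (∑ i ∈ T, E i)) with h | h <;> simp [h]
      have : 0 ≤ 1 - x := by linarith
      positivity
    have h6 : p.eval x ≤ 1 := by
      rw [h1]
      refine le_trans (Finset.sum_le_sum ?_) h4.le
      intro T _
      have hfn : f (w ^ (∑ i ∈ T, E i)) ≤ 1 := by rcases hf01 (w ^ (∑ i ∈ T, E i)) with h | h <;> simp [h]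
      have h7 : 0 ≤ 1 - x := by linarith
      have h8 : 0 ≤ x ^ T.card * (1 - x) ^ (Finset.univ \ T).card := by positivity
      calc _ ≤ x ^ T.card * (1 - x) ^ (Finset.univ \ T).card * 1 := mul_le_mul_of_nonneg_left hfn h8
        _ = _ := mul_one _
    rw [abs_of_nonneg h5]; exact h6
  have := coeff_one_le p d hpdeg hp0 hpe
  rw [hp1] at this
  exact_mod_cast this


include hhom in
theorem exists_cert (hf01 : ∀ x, f x = 0 ∨ f x = 1) (hf1 : f 1 = 0) :
    ∃ P ⊆ N.primeFactors, P.card ≤ 4 * (Nat.log 2 (2 * r)) ^ 3 ∧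
      ∀ z : Γ, z ^ (∑ p ∈ P, e p) = 1 → f z = 0 := by
  classical
  set d := Nat.log 2 (2 * r) with hd
  by_contra hcon
  push Not at hcon
  have hfam : ∀ k : ℕ, ∃ (B : Fin k → Finset ℕ) (z : Fin k → Γ), (∀ j, B j ⊆ N.primeFactors) ∧
      (∀ i j, i ≠ j → Disjoint (B i) (B j)) ∧ (∀ j, (B j).card ≤ d) ∧
      (∀ j, f (z j ^ (∑ p ∈ B j, e p)) = 1) := by
    intro k
    induction k with
    | zero => exact ⟨fun j => j.elim0, fun j => j.elim0, fun j => j.elim0, fun i => i.elim0,
        fun j => j.elim0, fun j => j.elim0⟩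
    | succ k ih =>
      obtain ⟨B, z, hB, hdis, hcard, hz⟩ := ih
      have hk := family_le hN he hexp hhom f W hW hr hf01 hf1 k B z hB hdis hz
      set P := Finset.univ.biUnion B with hP
      have hPsub : P ⊆ N.primeFactors := by
        intro q hq
        rw [hP, Finset.mem_biUnion] at hq
        obtain ⟨j, _, hj⟩ := hq
        exact hB j hj
      have hPcard : P.card ≤ 4 * d ^ 3 := by
        calc P.card ≤ ∑ j : Fin k, (B j).card := Finset.card_biUnion_le
          _ ≤ ∑ _j : Fin k, d := Finset.sum_le_sum fun j _ => hcard j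
          _ = k * d := by simp
          _ ≤ 4 * d ^ 2 * d := Nat.mul_le_mul_right _ hk
          _ = 4 * d ^ 3 := by ring
      obtain ⟨x, hx1, hx2⟩ := hcon P hPsub hPcard
      set Q := N.primeFactors \ P with hQ
      have hQsub : Q ⊆ N.primeFactors := Finset.sdiff_subset
      have hQx : x ^ (∑ p ∈ Q, e p) = x := by
        have h1 : ∑ p ∈ Q, e p + ∑ p ∈ P, e p = ∑ p ∈ N.primeFactors, e p :=
          Finset.sum_sdiff hPsub
        have h2 : x ^ (∑ p ∈ N.primeFactors, e p) = x ^ 1 :=
          pow_eq_pow_of_modEq (sum_full_modEq hN he) (hexp x)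
        rw [← h1, pow_add, hx1, mul_one, pow_one] at h2
        exact h2
      set S := Q.powerset.filter (fun B' => f (x ^ (∑ p ∈ B', e p)) ≠ 0) with hS
      have hSne : S.Nonempty := ⟨Q, by
        rw [hS, Finset.mem_filter]
        exact ⟨Finset.mem_powerset_self Q, by rw [hQx]; exact hx2⟩⟩
      obtain ⟨B0, hB0, hmin⟩ := Finset.exists_min_image S Finset.card hSne
      rw [hS, Finset.mem_filter, Finset.mem_powerset] at hB0
      have hB0sub : B0 ⊆ N.primeFactors := hB0.1.trans hQsub
      have hB0card : B0.card ≤ d := by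
        apply block_card_le hN he hexp f W hW hr B0 hB0sub x hB0.2
        intro B' hB' hne
        by_contra h
        have hlt : B'.card < B0.card := Finset.card_lt_card (Finset.ssubset_iff_subset_ne.2 ⟨hB', hne⟩)
        have hmem : B' ∈ S := by
          rw [hS, Finset.mem_filter, Finset.mem_powerset]
          exact ⟨hB'.trans hB0.1, h⟩
        exact absurd (hmin B' hmem) (not_le.2 hlt)
      have hB0dis : ∀ j, Disjoint (B j) B0 := by
        intro j
        rw [Finset.disjoint_left]
        intro q hq hq0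
        have h1 := hB0.1 hq0
        rw [hQ, Finset.mem_sdiff] at h1
        exact h1.2 (by rw [hP, Finset.mem_biUnion]; exact ⟨j, Finset.mem_univ _, hq⟩)
      refine ⟨Fin.snoc B B0, Fin.snoc z x, ?_, ?_, ?_, ?_⟩
      · intro j
        induction j using Fin.lastCases with
        | last => simpa using hB0sub
        | cast j => simpa using hB j
      · intro i j hij
        induction i using Fin.lastCases with
        | last =>
          induction j using Fin.lastCases with
          | last => exact absurd rfl hij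
          | cast j => simpa using (hB0dis j).symm
        | cast i =>
          induction j using Fin.lastCases with
          | last => simpa using hB0dis i
          | cast j =>
            have : i ≠ j := fun h => hij (by rw [h])
            simpa using hdis i j this
      · intro j
        induction j using Fin.lastCases with
        | last => simpa using hB0card
        | cast j => simpa using hcard j
      · intro j
        induction j using Fin.lastCases with
        | last =>
          rcases hf01 (x ^ (∑ p ∈ B0, e p)) with h | h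
          · exact absurd h hB0.2
          · simpa using h
        | cast j => simpa using hz j
  obtain ⟨B, z, hB, hdis, _, hz⟩ := hfam (4 * d ^ 2 + 1)
  have := family_le hN he hexp hhom f W hW hr hf01 hf1 _ B z hB hdis hz
  rw [← hd] at this
  omega

theorem exp_inv {P : Finset ℕ} (hP : P ⊆ N.primeFactors) (z x y : Γ) :
    f (y * z ^ ((∑ p ∈ P, e p) * ∏ p ∈ P, p ^ Nat.log p (2 * r)) * x) = f (y * x) := by
  by_contra hne
  set M := (∑ p ∈ P, e p) * ∏ p ∈ P, p ^ Nat.log p (2 * r) with hM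
  have h1 : aeval (tr z) (∏ j ∈ ({()} : Finset Unit), (X ^ (fun _ : Unit => M) j - 1 : ℚ[X]))
      (tr x f) ≠ 0 := by
    intro h
    rw [Finset.prod_singleton] at h
    have h2 := congrFun h y
    simp only [map_sub, map_pow, aeval_X, map_one, LinearMap.sub_apply, Pi.sub_apply, tr_pow,
      tr_apply, Module.End.one_apply, Pi.zero_apply] at h2
    exact hne (by linarith)
  obtain ⟨m, hmN, hphi, hnd⟩ := lemD f W hW (Nat.pos_of_ne_zero hN) z x (hexp z) _ _ h1
  exact hnd () (by simp) (dvd_sum_mul_prod hN he hP hmN (hphi.trans hr))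

include hhom in
/-- existence of a good colouring function of the group -/
theorem exists_colouring (hf01 : ∀ x, f x = 0 ∨ f x = 1) (hf1 : f 1 = 0) (hrpos : 0 < r)
    {t : ℕ} (σ : Fin t → Γ)
    (hσ : ∀ g : Γ, ∃ a : Fin t → ℤ, g = (List.ofFn fun i => σ i ^ a i).prod) :
    ∃ c : Γ → (Fin t → Fin ((2 * r) ^ (4 * (Nat.log 2 (2 * r)) ^ 3))),
      ∀ x y, c x = c y → f (x⁻¹ * y) = 0 := by
  classical
  obtain ⟨P, hP, hPcard, hPf⟩ := exists_cert hN he hexp hhom f W hW hr hf01 hf1
  set EP := ∑ p ∈ P, e p with hEP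
  set K := ∏ p ∈ P, p ^ Nat.log p (2 * r) with hK
  have hKpos : 0 < K := Finset.prod_pos fun p hp =>
    pow_pos (Nat.prime_of_mem_primeFactors (hP hp)).pos _
  have hKle : K ≤ (2 * r) ^ (4 * (Nat.log 2 (2 * r)) ^ 3) := by
    calc K ≤ ∏ _p ∈ P, (2 * r) := Finset.prod_le_prod' fun p _ => Nat.pow_log_le_self p (by omega)
      _ = (2 * r) ^ P.card := by simp
      _ ≤ _ := Nat.pow_le_pow_right (by omega) hPcard
  have hinv : ∀ z x y : Γ, f (y * z ^ (EP * K) * x) = f (y * x) := fun z x y =>
    exp_inv hN he hexp f W hW hr hP z x y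
  -- kernel
  let S : Subgroup Γ :=
    { carrier := {g | ∀ x y, f (y * g * x) = f (y * x)}
      mul_mem' := by
        intro a b ha hb x y
        have h1 := hb x (y * a)
        have h2 := ha x y
        rw [← h2, ← h1]; congr 1; group
      one_mem' := by intro x y; rw [mul_one]
      inv_mem' := by
        intro a ha x y
        have := ha x (y * a⁻¹)
        rw [inv_mul_cancel_right] at this
        exact this.symm }
  have hSn : S.Normal := by
    constructor
    intro a ha g x y
    have := ha (g⁻¹ * x) (y * g)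
    calc f (y * (g * a * g⁻¹) * x) = f (y * g * a * (g⁻¹ * x)) := by congr 1; group
      _ = f (y * g * (g⁻¹ * x)) := this
      _ = f (y * x) := by congr 1; group
  let π : Γ →* (Γ ⧸ S) := (QuotientGroup.mk' S).comp
    { toFun := fun x => x ^ EP, map_one' := one_pow _, map_mul' := fun x y => hhom P hP x y }
  have hπ : ∀ x, π x = QuotientGroup.mk (x ^ EP) := fun x => rfl
  have hπK : ∀ x, π x ^ K = 1 := by
    intro x
    rw [hπ, ← QuotientGroup.mk_pow, ← pow_mul, QuotientGroup.eq_one_iff]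
    exact fun x' y' => hinv _ _ _
  choose a ha using hσ
  refine ⟨fun x i => ⟨(a x i % (K : ℤ)).toNat, ?_⟩, ?_⟩
  · have h1 : 0 ≤ a x i % (K : ℤ) := Int.emod_nonneg _ (by omega)
    have h2 : a x i % (K : ℤ) < K := Int.emod_lt_of_pos _ (by omega)
    omega
  · intro x y hxy
    have hmod : ∀ i, (K : ℤ) ∣ a y i - a x i := by
      intro i
      have h := congrFun hxy i
      rw [Fin.mk.injEq] at h
      have h1 : 0 ≤ a x i % (K : ℤ) := Int.emod_nonneg _ (by omega)
      have h1' : 0 ≤ a y i % (K : ℤ) := Int.emod_nonneg _ (by omega)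
      have h2 : a x i % (K : ℤ) = a y i % (K : ℤ) := by omega
      exact Int.ModEq.dvd h2
    have hπxy : π x = π y := by
      conv_lhs => rw [ha x]
      conv_rhs => rw [ha y]
      rw [map_list_prod, map_list_prod, List.map_ofFn, List.map_ofFn]
      congr 2
      funext i
      simp only [Function.comp_apply, map_zpow]
      obtain ⟨c, hc⟩ := hmod i
      have h1 : a y i = a x i + K * c := by linarith
      rw [h1, zpow_add, zpow_mul, zpow_natCast, hπK, one_zpow, mul_one]
    set z := x⁻¹ * y with hz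
    have hzS : z ^ EP ∈ S := by
      have h1 : π z = 1 := by rw [hz, map_mul, map_inv, hπxy, inv_mul_cancel]
      rw [hπ, QuotientGroup.eq_one_iff] at h1
      exact h1
    have h2 : f (z * (z ^ EP)⁻¹) = f z := by
      have := (S.inv_mem hzS) 1 z
      rwa [mul_one, mul_one] at this
    rw [← h2]
    apply hPf
    have h3 : Commute z (z ^ EP)⁻¹ := ((Commute.refl z).pow_right EP).inv_right
    rw [h3.mul_pow, inv_pow, ← pow_mul,
      pow_eq_pow_of_modEq (sum_mul_self_modEq hN he hP) (hexp z), mul_inv_cancel]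

end

end Pool.Agent.Helper25
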