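import Mathlib
import Pool.Agent.Helper25.NilGroup
set_option autoImplicit false
open Polynomial Module

namespace Pool.Agent.Helper25

theorem rank_rat_le_real {m n : Type*} [Fintype m] [Fintype n] (M : Matrix m n ℚ) :
    M.rank ≤ (M.map (algebraMap ℚ ℝ)).rank := by
  classical
  rw [Matrix.rank_eq_finrank_span_cols, Matrix.rank_eq_finrank_span_cols]
  obtain ⟨b, hb1, hb2, hb3⟩ := exists_linearIndependent ℚ (Set.range M.col)
  have hbfin : b.Finite := (Set.finite_range _).subset hb1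
  have := hbfin.fintype
  have h1 : finrank ℚ (Submodule.span ℚ (Set.range M.col)) = Fintype.card b := by
    rw [← hb2]
    have := finrank_span_eq_card hb3
    rwa [Subtype.range_coe] at this
  rw [h1]
  have h2 : LinearIndependent ℝ (fun i : b => algebraMap ℚ ℝ ∘ (i : m → ℚ)) :=
    linearIndependent_algebraMap_comp_iff.2 hb3
  rw [← finrank_span_eq_card h2]
  apply Submodule.finrank_mono
  apply Submodule.span_mono
  rintro _ ⟨i, rfl⟩
  obtain ⟨j, hj⟩ := hb1 i.2
  refine ⟨j, ?_⟩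
  funext k
  simp only [Matrix.col_apply, Matrix.map_apply, Function.comp_apply]
  rw [← hj]; rfl

/-- In a finite nilpotent group, taking the part supported on a set of primes is a homomorphism. -/
theorem part_hom {Γ : Type*} [Group Γ] [Finite Γ] [Group.IsNilpotent Γ] {e : ℕ → ℕ}
    (he : ∀ p ∈ (Nat.card Γ).primeFactors, e p ≡ 1 [MOD p ^ (Nat.card Γ).factorization p] ∧
      ∀ q ∈ (Nat.card Γ).primeFactors, q ≠ p → q ^ (Nat.card Γ).factorization q ∣ e p)
    (B : Finset ℕ) (hB : B ⊆ (Nat.card Γ).primeFactors) (x y : Γ) :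
    (x * y) ^ (∑ p ∈ B, e p) = x ^ (∑ p ∈ B, e p) * y ^ (∑ p ∈ B, e p) := by
  classical
  have hiso := (Group.isNilpotent_of_finite_tfae (G := Γ)).out 0 4 rfl rfl |>.mp inferInstance
  obtain ⟨φ⟩ := hiso
  obtain ⟨a, rfl⟩ := φ.surjective x
  obtain ⟨b, rfl⟩ := φ.surjective y
  rw [← map_mul, ← map_pow, ← map_pow, ← map_pow, ← map_mul]
  congr 1
  funext p P
  simp only [Pi.pow_apply, Pi.mul_apply]
  have hp := p.2
  have : Fact (p : ℕ).Prime := ⟨Nat.prime_of_mem_primeFactors hp⟩
  have hcard : ∀ u : (P : Subgroup Γ), u ^ ((p : ℕ) ^ (Nat.card Γ).factorization p) = 1 := by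
    intro u
    rw [← P.card_eq_multiplicity]
    exact pow_card_eq_one'
  by_cases hpB : (p : ℕ) ∈ B
  · have h1 : ∀ u : (P : Subgroup Γ), u ^ (∑ p ∈ B, e p) = u := by
      intro u
      rw [pow_eq_pow_of_modEq (sum_modEq he hB hpB) (hcard u), pow_one]
    rw [h1, h1, h1]
  · have h1 : ∀ u : (P : Subgroup Γ), u ^ (∑ p ∈ B, e p) = 1 := by
      intro u
      obtain ⟨k, hk⟩ := sum_dvd he hB hp hpB
      rw [hk, pow_mul, hcard, one_pow]
    rw [h1, h1, h1, one_mul]

theorem exists_graph_colouring {Γ : Type*} [Group Γ] [Finite Γ] [Group.IsNilpotent Γ]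
    {V : Type*} [Fintype V]
    [DecidableEq V] [MulAction Γ V] (G : SimpleGraph V) [DecidableRel G.Adj]
    (hG : ∀ (g : Γ) (u v : V), G.Adj (g • u) (g • v) ↔ G.Adj u v)
    {t : ℕ} (σ : Fin t → Γ)
    (hσ : ∀ g : Γ, ∃ a : Fin t → ℤ, g = (List.ofFn fun i => σ i ^ a i).prod)
    {r : ℕ} (hrpos : 0 < r)
    (hr : (G.adjMatrix ℝ).rank ≤ r) :
    ∃ c : V → MulAction.orbitRel.Quotient Γ V ×
        (Fin t → Fin ((2 * r) ^ (4 * (Nat.log 2 (2 * r)) ^ 3))),
      ∀ u v, G.Adj u v → c u ≠ c v := by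
  classical
  have := Fintype.ofFinite Γ
  have hN : Nat.card Γ ≠ 0 := Nat.card_pos.ne'
  have hexp : ∀ x : Γ, x ^ Nat.card Γ = 1 := fun x => pow_card_eq_one'
  obtain ⟨e, he⟩ := exists_idem (Nat.card Γ) hN
  have hhom := fun B hB x y => part_hom (Γ := Γ) he B hB x y
  have hrq : (G.adjMatrix ℚ).rank ≤ r := by
    refine (rank_rat_le_real _).trans (le_trans (le_of_eq ?_) hr)
    congr 1
    ext i j
    simp only [Matrix.map_apply, SimpleGraph.adjMatrix_apply]
    split_ifs <;> simp
  have hmain : ∀ o : V, ∃ c : Γ → (Fin t → Fin ((2 * r) ^ (4 * (Nat.log 2 (2 * r)) ^ 3))),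
      ∀ x y, c x = c y → ¬ G.Adj o ((x⁻¹ * y) • o) := by
    intro o
    set f : Γ → ℚ := fun x => if G.Adj o (x • o) then 1 else 0 with hf
    set W : Submodule ℚ (Γ → ℚ) := Submodule.span ℚ (Set.range (fun x : Γ => fun y : Γ => f (y * x))) with hWdef
    have hW : ∀ x, (fun y => f (y * x)) ∈ W := fun x => Submodule.subset_span ⟨x, rfl⟩
    have hWr : finrank ℚ W ≤ r := by
      have h1 : (((G.adjMatrix ℚ).submatrix (fun y : Γ => y⁻¹ • o) (fun x : Γ => x • o))).rank ≤
        (G.adjMatrix ℚ).rank := Matrix.rank_submatrix_le _ _ _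
      rw [Matrix.rank_eq_finrank_span_cols] at h1
      refine le_trans (le_of_eq ?_) (h1.trans hrq)
      have h2 : Set.range (fun x : Γ => fun y : Γ => f (y * x)) = Set.range
          ((G.adjMatrix ℚ).submatrix (fun y : Γ => y⁻¹ • o) (fun x : Γ => x • o)).col := by
        congr 1
        funext x y
        simp only [hf, Matrix.col_apply, Matrix.submatrix_apply, SimpleGraph.adjMatrix_apply]
        have h3 : G.Adj o ((y * x) • o) ↔ G.Adj (y⁻¹ • o) (x • o) := by
          rw [← hG y (y⁻¹ • o) (x • o), smul_inv_smul, mul_smul]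
        simp only [h3]
      rw [hWdef, h2]
    have hf01 : ∀ x, f x = 0 ∨ f x = 1 := by
      intro x
      simp only [hf]
      split_ifs <;> simp
    have hf1 : f 1 = 0 := by simp [hf]
    obtain ⟨c, hc⟩ := exists_colouring hN he hexp hhom f W hW hWr hf01 hf1 hrpos σ hσ
    refine ⟨c, fun x y hxy hadj => ?_⟩
    have := hc x y hxy
    simp only [hf] at this
    rw [if_pos hadj] at this
    exact one_ne_zero this
  choose c hc using hmain
  have hrep : ∀ v : V, ∃ g : Γ, g • (Quotient.out (Quotient.mk (MulAction.orbitRel Γ V) v)) = v := by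
    intro v
    have h1 : (MulAction.orbitRel Γ V) (Quotient.out (Quotient.mk (MulAction.orbitRel Γ V) v)) v :=
      Quotient.exact (Quotient.out_eq (Quotient.mk (MulAction.orbitRel Γ V) v))
    have h2 : v ∈ MulAction.orbit Γ (Quotient.out (Quotient.mk (MulAction.orbitRel Γ V) v)) :=
      (MulAction.orbitRel Γ V).symm h1
    exact h2
  choose g hg using hrep
  refine ⟨fun v => (Quotient.mk (MulAction.orbitRel Γ V) v,
    c (Quotient.out (Quotient.mk (MulAction.orbitRel Γ V) v)) (g v)), ?_⟩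
  intro u v huv hcol
  rw [Prod.mk.injEq] at hcol
  obtain ⟨h1, h2⟩ := hcol
  set o := Quotient.out (Quotient.mk (MulAction.orbitRel Γ V) u) with ho
  have ho' : Quotient.out (Quotient.mk (MulAction.orbitRel Γ V) v) = o := by rw [ho, h1]
  have hgu : g u • o = u := hg u
  have hgv : g v • o = v := by rw [← ho']; exact hg v
  have h3 : c o (g u) = c o (g v) := by
    rw [← ho'] 
    rw [← h2, ho']
  apply hc o (g u) (g v) h3
  rw [← hG (g u), ← mul_smul, mul_inv_cancel_left, hgu, hgv]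
  exact huv

end Pool.Agent.Helper25
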