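import Mathlib
import Pool.Agent.Helper25.BlockSys
import Pool.Agent.Helper25.DegLemma
set_option autoImplicit false
set_option linter.unusedSectionVars false
open Polynomial Module

namespace Pool.Agent.Helper25

section
variable {ι : Type*} [Fintype ι] [DecidableEq ι] {T : ι → Type*} [∀ i, Group (T i)]
  {Ω : ι → Type*} [∀ i, DecidableEq (Ω i)]

/-- the fibre of a set of atoms over `i` -/
noncomputable def fib (B : Finset (Σ i, Ω i)) (i : ι) : Finset (Ω i) :=
  B.preimage (Sigma.mk i) (sigma_mk_injective.injOn)

omit [Fintype ι] in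
theorem mem_fib (B : Finset (Σ i, Ω i)) (i : ι) (x : Ω i) : x ∈ fib B i ↔ (⟨i, x⟩ : Σ i, Ω i) ∈ B := by
  simp [fib]

/-- assemble from fibres -/
def asm (F : ∀ i, Finset (Ω i)) : Finset (Σ i, Ω i) := Finset.univ.sigma F

theorem mem_asm (F : ∀ i, Finset (Ω i)) (i : ι) (x : Ω i) :
    (⟨i, x⟩ : Σ i, Ω i) ∈ asm F ↔ x ∈ F i := by
  simp [asm]

theorem fib_asm (F : ∀ i, Finset (Ω i)) (i : ι) : fib (asm F) i = F i := by
  ext x; rw [mem_fib, mem_asm]

theorem card_asm (F : ∀ i, Finset (Ω i)) : (asm F).card = ∑ i, (F i).card := by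
  simp [asm]

theorem asm_subset_iff (F : ∀ i, Finset (Ω i)) (B : Finset (Σ i, Ω i)) :
    asm F ⊆ B ↔ ∀ i, F i ⊆ fib B i := by
  constructor
  · intro h i x hx
    rw [mem_fib]; exact h ((mem_asm F i x).2 hx)
  · rintro h ⟨i, x⟩ hx
    rw [mem_asm] at hx
    exact (mem_fib B i x).1 (h i hx)

theorem subset_asm_iff (F : ∀ i, Finset (Ω i)) (B : Finset (Σ i, Ω i)) :
    B ⊆ asm F ↔ ∀ i, fib B i ⊆ F i := by
  constructor
  · intro h i x hx
    rw [mem_fib] at hx
    exact (mem_asm F i x).1 (h hx)
  · rintro h ⟨i, x⟩ hx
    rw [mem_asm]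
    exact h i ((mem_fib B i x).2 hx)

theorem disjoint_asm_iff (F : ∀ i, Finset (Ω i)) (B : Finset (Σ i, Ω i)) :
    Disjoint (asm F) B ↔ ∀ i, Disjoint (F i) (fib B i) := by
  simp only [Finset.disjoint_left]
  constructor
  · intro h i x hx hx'
    exact h ((mem_asm F i x).2 hx) ((mem_fib B i x).1 hx')
  · rintro h ⟨i, x⟩ hx hx'
    exact h i ((mem_asm F i x).1 hx) ((mem_fib B i x).2 hx')

theorem asm_single_subset (i : ι) (C : Finset (Ω i)) (B : Finset (Σ i, Ω i)) (h : C ⊆ fib B i) :
    asm (Function.update (fun _ => ∅) i C) ⊆ B := by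
  rw [asm_subset_iff]
  intro j
  by_cases hj : j = i
  · subst hj; rw [Function.update_self]; exact h
  · rw [Function.update_of_ne hj]; exact Finset.empty_subset _

/-- embedding of a block of the factor `i` -/
noncomputable def embBlock (i : ι) (a : Finset (Ω i) × T i) : Finset (Σ i, Ω i) × (∀ i, T i) :=
  (asm (Function.update (fun _ => ∅) i a.1), Pi.mulSingle i a.2)

theorem prod_map_emb_self (i : ι) (L : List (Finset (Ω i) × T i)) :
    ((L.map (embBlock (T := T) i)).map Prod.snd).prod i = (L.map Prod.snd).prod := by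
  induction L with
  | nil => simp
  | cons a L ih =>
    simp only [List.map_cons, List.prod_cons, Pi.mul_apply, ih]
    simp [embBlock]

theorem prod_map_emb_ne (i j : ι) (hij : j ≠ i) (L : List (Finset (Ω i) × T i)) :
    ((L.map (embBlock (T := T) i)).map Prod.snd).prod j = 1 := by
  induction L with
  | nil => simp
  | cons a L ih => 
    simp only [List.map_cons, List.prod_cons, Pi.mul_apply, ih, mul_one]
    simp [embBlock, hij]

theorem exists_sublists (L : ∀ i, List (Finset (Ω i) × T i)) :
    ∀ (l : List ι), l.Nodup → ∀ R : List (Finset (Σ i, Ω i) × (∀ i, T i)),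
      R.Sublist (l.flatMap fun i => (L i).map (embBlock (T := T) i)) →
      ∃ R' : ∀ i, List (Finset (Ω i) × T i), (∀ i, (R' i).Sublist (L i)) ∧ (∀ i ∉ l, R' i = []) ∧
        (∀ i, (R.map Prod.snd).prod i = ((R' i).map Prod.snd).prod) ∧
        (R ≠ [] → ∃ i, R' i ≠ []) := by
  intro l
  induction l with
  | nil =>
    intro _ R hR
    simp only [List.flatMap_nil, List.sublist_nil] at hR
    subst hR
    exact ⟨fun _ => [], by simp, by simp, by simp, by simp⟩
  | cons i l ih =>
    intro hnd R hR
    rw [List.nodup_cons] at hnd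
    rw [List.flatMap_cons, List.sublist_append_iff] at hR
    obtain ⟨R1, R2, rfl, hR1, hR2⟩ := hR
    rw [List.sublist_map_iff] at hR1
    obtain ⟨R1', hR1', rfl⟩ := hR1
    obtain ⟨Q, hQ1, hQ2, hQ3, hQ4⟩ := ih hnd.2 R2 hR2
    have hQi : Q i = [] := hQ2 i hnd.1
    refine ⟨Function.update Q i R1', ?_, ?_, ?_, ?_⟩
    · intro j
      by_cases hj : j = i
      · subst hj; rw [Function.update_self]; exact hR1'
      · rw [Function.update_of_ne hj]; exact hQ1 j
    · intro j hj
      rw [List.mem_cons, not_or] at hj
      rw [Function.update_of_ne hj.1]; exact hQ2 j hj.2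
    · intro j
      rw [List.map_append, List.prod_append, Pi.mul_apply, hQ3]
      by_cases hj : j = i
      · subst hj
        rw [prod_map_emb_self, Function.update_self, hQi]; simp
      · rw [prod_map_emb_ne i j hj, Function.update_of_ne hj, one_mul]
    · intro hne
      by_cases h1 : R1' = []
      · subst h1
        simp only [List.map_nil, List.nil_append] at hne
        obtain ⟨j, hj⟩ := hQ4 hne
        refine ⟨j, ?_⟩
        have hji : j ≠ i := by rintro rfl; exact hj hQi
        rw [Function.update_of_ne hji]; exact hj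
      · exact ⟨i, by rw [Function.update_self]; exact h1⟩

/-- Product of block systems. -/
noncomputable def prodSys (S : ∀ i, BlockSys (T i) (Ω i)) (hempty : ∀ i, (S i).good ∅) :
    BlockSys (∀ i, T i) (Σ i, Ω i) where
  supp g := asm (fun i => (S i).supp (g i))
  good B := ∀ i, (S i).good (fib B i)
  sub B := Subgroup.pi Set.univ (fun i => (S i).sub (fib B i))
  mem_sub B g := by
    rw [Subgroup.mem_pi, asm_subset_iff]
    simp only [Set.mem_univ, forall_const]
    exact forall_congr' fun i => (S i).mem_sub _ _
  faithful g hg := by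
    funext i
    apply (S i).faithful
    rw [Finset.eq_empty_iff_forall_notMem] at hg ⊢
    intro x hx
    exact hg ⟨i, x⟩ ((mem_asm (fun i => (S i).supp (g i)) i x).2 hx)
  comm B C hBC g hg h hh := by
    rw [Subgroup.mem_pi] at hg hh
    funext i
    apply (S i).comm (fib B i) (fib C i) _ _ (hg i (Set.mem_univ _)) _ (hh i (Set.mem_univ _))
    rw [Finset.disjoint_left] at hBC ⊢
    intro x hx hx'
    exact hBC ((mem_fib B i x).1 hx) ((mem_fib C i x).1 hx')
  enlarge U hU g hg := by
    rw [Subgroup.mem_pi] at hg
    choose B U' h1 h2 h3 h4 h5 h6 h7 using fun i => (S i).enlarge (fib U i) (hU i) (g i)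
      (hg i (Set.mem_univ _))
    refine ⟨asm B, asm U', ?_, ?_, ?_, ?_, ?_, ?_, ?_⟩
    · intro i; rw [fib_asm]; exact h1 i
    · intro i; rw [fib_asm]; exact h2 i
    · rw [asm_subset_iff]; intro i; rw [fib_asm]; exact h3 i
    · rw [asm_subset_iff]; exact h4
    · rw [asm_subset_iff]; exact h5
    · rw [disjoint_asm_iff]; intro i; rw [fib_asm]; exact h6 i
    · have : U \ asm U' = asm (fun i => fib U i \ U' i) := by
        ext ⟨i, x⟩
        rw [Finset.mem_sdiff, mem_asm, mem_asm, Finset.mem_sdiff, mem_fib]
      rw [this, card_asm, card_asm, Finset.mul_sum]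
      exact Finset.sum_le_sum fun i _ => h7 i
  reduce U hU g hg := by
    classical
    rw [Subgroup.mem_pi] at hg
    choose L h1 h2 h3 h4 using fun i => (S i).reduce (fib U i) (hU i) (g i) (hg i (Set.mem_univ _))
    refine ⟨(Finset.univ : Finset ι).toList.flatMap fun i => (L i).map (embBlock (T := T) i),
      ?_, ?_, ?_, ?_⟩
    · rw [List.pairwise_flatMap]
      refine ⟨fun i _ => ?_, ?_⟩
      · rw [List.pairwise_map]
        refine (h1 i).imp ?_
        intro a b hab
        change Disjoint (asm _) (asm _)
        rw [disjoint_asm_iff]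
        intro j
        rw [fib_asm]
        by_cases hj : j = i
        · subst hj; rw [Function.update_self, Function.update_self]; exact hab
        · rw [Function.update_of_ne hj]; exact Finset.disjoint_empty_left _
      · refine (Finset.nodup_toList _).imp ?_
        intro i j hij a ha b hb
        rw [List.mem_map] at ha hb
        obtain ⟨a', _, rfl⟩ := ha
        obtain ⟨b', _, rfl⟩ := hb
        change Disjoint (asm _) (asm _)
        rw [disjoint_asm_iff]
        intro k
        rw [fib_asm]
        by_cases hk : k = i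
        · have : k ≠ j := by rw [hk]; exact hij
          rw [Function.update_of_ne this]; exact Finset.disjoint_empty_right _
        · rw [Function.update_of_ne hk]; exact Finset.disjoint_empty_left _
    · intro a ha
      rw [List.mem_flatMap] at ha
      obtain ⟨i, _, ha⟩ := ha
      rw [List.mem_map] at ha
      obtain ⟨a', ha', rfl⟩ := ha
      obtain ⟨g1, g2, g3⟩ := h2 i a' ha'
      refine ⟨?_, ?_, ?_⟩
      · intro j
        change (S j).good (fib (asm _) j)
        rw [fib_asm]
        by_cases hj : j = i
        · subst hj; rw [Function.update_self]; exact g1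
        · rw [Function.update_of_ne hj]; exact hempty j
      · exact asm_single_subset i _ _ g2
      · rw [Subgroup.mem_pi]
        intro j _
        change (Pi.mulSingle i a'.2 : ∀ i, T i) j ∈ (S j).sub (fib (asm _) j)
        rw [fib_asm]
        by_cases hj : j = i
        · subst hj; rw [Function.update_self, Pi.mulSingle_eq_same]; exact g3
        · rw [Pi.mulSingle_eq_of_ne hj]; exact Subgroup.one_mem _
    · rw [card_asm, List.length_flatMap]
      have : (List.map (fun i => ((L i).map (embBlock (T := T) i)).length)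
          (Finset.univ : Finset ι).toList).sum = ∑ i, (L i).length := by
        simp only [List.length_map]
        exact Finset.sum_map_toList _ _
      rw [this, Finset.mul_sum]
      exact Finset.sum_le_sum fun i _ => h3 i
    · intro R hR hne
      obtain ⟨R', hR1, _, hR3, hR4⟩ := exists_sublists L _ (Finset.nodup_toList _) R hR
      obtain ⟨i0, hi0⟩ := hR4 hne
      rw [card_asm, card_asm]
      apply Finset.sum_lt_sum
      · intro i _
        rw [Pi.mul_apply, hR3]
        by_cases h : R' i = []
        · rw [h]; simp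
        · exact (h4 i (R' i) (hR1 i) h).le
      · refine ⟨i0, Finset.mem_univ _, ?_⟩
        rw [Pi.mul_apply, hR3]
        exact h4 i0 (R' i0) (hR1 i0) hi0

end

end Pool.Agent.Helper25
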