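import Mathlib
import Pool.Agent.Helper25.BlockSys
import Pool.Agent.Helper25.DegLemma
import Pool.Agent.Helper25.ProdBlock
import Pool.Agent.Helper25.AltBlock
import Pool.Agent.Helper25.NilGroup
set_option autoImplicit false
set_option linter.unusedSectionVars false
open Polynomial Module

namespace Pool.Agent.Helper25

section transfer

variable {T T' : Type*} [Group T] [Group T'] {Ω : Type*} [DecidableEq Ω]

theorem prod_map_symm (e : T ≃* T') (L : List (Finset Ω × T')) :
    e (((L.map (fun a => ((a.1, e.symm a.2) : Finset Ω × T))).map Prod.snd).prod) =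
      (L.map Prod.snd).prod := by
  induction L with
  | nil => simp
  | cons a L ih => simp only [List.map_cons, List.prod_cons, map_mul, ih, MulEquiv.apply_symm_apply]

/-- transport of a block system along an isomorphism -/
def BlockSys.comap (e : T ≃* T') (S : BlockSys T' Ω) : BlockSys T Ω where
  supp g := S.supp (e g)
  good := S.good
  sub B := (S.sub B).comap e.toMonoidHom
  mem_sub B g := by
    rw [Subgroup.mem_comap]; exact S.mem_sub B (e g)
  faithful g hg := by
    apply e.injective
    rw [map_one]; exact S.faithful _ hg
  comm B C h g hg k hk := by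
    rw [Subgroup.mem_comap] at hg hk
    have := S.comm B C h _ hg _ hk
    apply e.injective
    rw [map_mul, map_mul]; exact this
  enlarge U hU g hg := by
    rw [Subgroup.mem_comap] at hg
    exact S.enlarge U hU _ hg
  reduce U hU g hg := by
    rw [Subgroup.mem_comap] at hg
    obtain ⟨L, h1, h2, h3, h4⟩ := S.reduce U hU _ hg
    refine ⟨L.map (fun a => ((a.1, e.symm a.2) : Finset Ω × T)), ?_, ?_, ?_, ?_⟩
    · rw [List.pairwise_map]; exact h1
    · intro a ha
      rw [List.mem_map] at ha
      obtain ⟨a', ha', rfl⟩ := ha
      obtain ⟨g1, g2, g3⟩ := h2 a' ha'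
      refine ⟨g1, g2, ?_⟩
      rw [Subgroup.mem_comap]
      change e (e.symm a'.2) ∈ _
      rw [MulEquiv.apply_symm_apply]; exact g3
    · rw [List.length_map]; exact h3
    · intro R hR hne
      rw [List.sublist_map_iff] at hR
      obtain ⟨R', hR', rfl⟩ := hR
      rw [map_mul, prod_map_symm]
      apply h4 R' hR'
      rintro rfl
      exact hne rfl

theorem comap_noChar (e : T ≃* T') (S : BlockSys T' Ω) (B : Finset Ω) (h : NoChar (S.sub B)) :
    NoChar ((S.comap e).sub B) := by
  let φ : S.sub B →* (S.comap e).sub B :=
    { toFun := fun x => ⟨e.symm x, by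
        change e (e.symm x) ∈ S.sub B
        rw [MulEquiv.apply_symm_apply]; exact x.2⟩
      map_one' := by apply Subtype.ext; simp
      map_mul' := by intro x y; apply Subtype.ext; simp }
  apply noChar_of_surjective φ _ h
  intro y
  refine ⟨⟨e y, y.2⟩, ?_⟩
  apply Subtype.ext
  change e.symm (e y) = y
  rw [MulEquiv.symm_apply_apply]

end transfer

section one

variable (T : Type*) [Group T]

open Classical in
/-- block system with a single atom -/
noncomputable def oneSys : BlockSys T Unit where
  supp g := if g = 1 then ∅ else {()}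
  good _ := True
  sub B := if B = ∅ then ⊥ else ⊤
  mem_sub B g := by
    by_cases hB : B = ∅
    · subst hB
      by_cases hg : g = 1 <;> simp [hg]
    · rw [if_neg hB]
      have : () ∈ B := by
        obtain ⟨x, hx⟩ := Finset.nonempty_iff_ne_empty.2 hB
        exact hx
      by_cases hg : g = 1 <;> simp [hg, this]
  faithful g hg := by
    by_contra h
    simp [h] at hg
  comm B C h g hg k hk := by
    by_cases hB : B = ∅
    · rw [if_pos hB, Subgroup.mem_bot] at hg
      subst hg; exact Commute.one_left _
    · have hC : C = ∅ := by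
        obtain ⟨x, hx⟩ := Finset.nonempty_iff_ne_empty.2 hB
        by_contra hC
        obtain ⟨y, hy⟩ := Finset.nonempty_iff_ne_empty.2 hC
        exact (Finset.disjoint_left.1 h hx) hy
      rw [if_pos hC, Subgroup.mem_bot] at hk
      subst hk; exact Commute.one_right _
  enlarge U _ g hg := by
    refine ⟨if g = 1 then ∅ else {()}, U \ (if g = 1 then ∅ else {()}), trivial, trivial,
      Finset.Subset.refl _, ?_, Finset.sdiff_subset, Finset.disjoint_sdiff, ?_⟩
    · by_cases h : g = 1
      · simp [h]
      · rw [if_neg h]
        by_cases hU : U = ∅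
        · rw [if_pos hU, Subgroup.mem_bot] at hg; exact absurd hg h
        · obtain ⟨x, hx⟩ := Finset.nonempty_iff_ne_empty.2 hU
          intro y _; exact hx
    · have : U \ (U \ (if g = 1 then ∅ else {()})) ⊆ (if g = 1 then ∅ else {()}) := by
        intro x hx
        simp only [Finset.mem_sdiff, not_and, not_not] at hx
        exact hx.2 hx.1
      have h2 := Finset.card_le_card this
      omega
  reduce U _ g hg := by
    by_cases h : g = 1
    · refine ⟨[], List.Pairwise.nil, by simp, by simp [h], ?_⟩
      intro R hR hne
      exact absurd (List.sublist_nil.1 hR) hne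
    · refine ⟨[(U, g⁻¹)], List.pairwise_singleton _ _, ?_, by simp [h], ?_⟩
      · intro a ha
        rw [List.mem_singleton] at ha
        subst ha
        exact ⟨trivial, Finset.Subset.refl _, Subgroup.inv_mem _ hg⟩
      · intro R hR hne
        have hR' : R = [(U, g⁻¹)] := by
          rcases List.sublist_singleton.1 hR with h | h
          · exact absurd h hne
          · exact h
        subst hR'
        simp [h]

theorem one_noChar (h : NoChar T) (B : Finset Unit) : NoChar ((oneSys T).sub B) := by
  classical
  have h1 : (oneSys T).sub B = if B = ∅ then ⊥ else ⊤ := by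
    by_cases hB : B = ∅
    · rw [if_pos hB]
      ext g
      rw [(oneSys T).mem_sub]
      simp only [oneSys, Subgroup.mem_bot]
      by_cases hg : g = 1 <;> simp [hg, hB]
    · rw [if_neg hB]
      ext g
      rw [(oneSys T).mem_sub]
      have : () ∈ B := by
        obtain ⟨x, hx⟩ := Finset.nonempty_iff_ne_empty.2 hB
        exact hx
      simp only [oneSys, Subgroup.mem_top, iff_true]
      by_cases hg : g = 1 <;> simp [hg, this]
  rw [h1]
  by_cases hB : B = ∅
  · rw [if_pos hB]
    intro χ x
    have : x = 1 := Subtype.ext (Subgroup.mem_bot.1 x.2)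
    rw [this, map_one]
  · rw [if_neg hB]
    exact noChar_of_surjective (Subgroup.topEquiv (G := T)).symm.toMonoidHom
      (Subgroup.topEquiv (G := T)).symm.surjective h

end one

section prod
variable {ι : Type*} [Fintype ι] [DecidableEq ι] {T : ι → Type*} [∀ i, Group (T i)]
  {Ω : ι → Type*} [∀ i, DecidableEq (Ω i)]

theorem prod_noChar (S : ∀ i, BlockSys (T i) (Ω i)) (hempty : ∀ i, (S i).good ∅)
    (hno : ∀ i B, (S i).good B → NoChar ((S i).sub B)) (B : Finset (Σ i, Ω i))
    (hB : (prodSys S hempty).good B) : NoChar ((prodSys S hempty).sub B) := by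
  let φ : (∀ i, (S i).sub (fib B i)) →* (prodSys S hempty).sub B :=
    { toFun := fun x => ⟨fun i => (x i : T i), by
        change _ ∈ Subgroup.pi Set.univ _
        rw [Subgroup.mem_pi]
        exact fun i _ => (x i).2⟩
      map_one' := by apply Subtype.ext; funext i; simp
      map_mul' := by intro x y; apply Subtype.ext; funext i; simp }
  have hφ : Function.Surjective φ := by
    intro y
    have hy : (y : ∀ i, T i) ∈ Subgroup.pi Set.univ (fun i => (S i).sub (fib B i)) := y.2
    rw [Subgroup.mem_pi] at hy
    exact ⟨fun i => ⟨(y : ∀ i, T i) i, hy i (Set.mem_univ _)⟩, rfl⟩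
  apply noChar_of_surjective φ hφ
  intro χ x
  have h1 : χ = 1 := by
    apply MonoidHom.pi_ext
    intro i y
    exact hno i (fib B i) (hB i) (χ.comp (MonoidHom.mulSingle (fun i => ↥((S i).sub (fib B i))) i)) y
  rw [h1]; rfl

end prod

end Pool.Agent.Helper25
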