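import Mathlib
import Pool.Agent.Helper25.SimpleGroup
set_option autoImplicit false
set_option linter.unusedSectionVars false
open Polynomial Module

namespace Pool.Agent.Helper25

section
variable {Γ : Type*} [Group Γ]

/-- right translation on complex functions, as a representation -/
def trC : Γ →* Module.End ℂ (Γ → ℂ) where
  toFun x := LinearMap.funLeft ℂ ℂ (fun y => y * x)
  map_one' := by
    apply LinearMap.ext; intro g; funext y
    simp [LinearMap.funLeft]
  map_mul' a b := by
    apply LinearMap.ext; intro g; funext y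
    change g (y * (a * b)) = g (y * a * b)
    rw [mul_assoc]

theorem trC_apply (x : Γ) (g : Γ → ℂ) (y : Γ) : trC x g y = g (y * x) := rfl

theorem opL_trC (L : List Γ) (g : Γ → ℂ) : opL trC L g = Del L g := by
  induction L with
  | nil => rfl
  | cons z L ih =>
    funext y
    simp only [opL, Module.End.mul_apply, LinearMap.sub_apply, Module.End.one_apply, Pi.sub_apply,
      trC_apply, ih, Del]

theorem Del_cast (f : Γ → ℚ) (L : List Γ) (y : Γ) :
    ((Del L f y : ℚ) : ℂ) = Del L (fun x => (f x : ℂ)) y := by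
  induction L generalizing y with
  | nil => rfl
  | cons z L ih => simp only [Del, Rat.cast_sub, ih]

/-- span of the complex right translates of `f` -/
def WC (f : Γ → ℚ) : Submodule ℂ (Γ → ℂ) :=
  Submodule.span ℂ (Set.range (fun x : Γ => fun y : Γ => ((f (y * x) : ℚ) : ℂ)))

theorem WC_gen (f : Γ → ℚ) (x : Γ) : (fun y : Γ => ((f (y * x) : ℚ) : ℂ)) ∈ WC f :=
  Submodule.subset_span ⟨x, rfl⟩

theorem WC_inv (f : Γ → ℚ) (z : Γ) (w : Γ → ℂ) (hw : w ∈ WC f) : trC z w ∈ WC f := by
  have h1 : WC f ≤ (WC f).comap (trC z) := by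
    unfold WC
    rw [Submodule.span_le]
    rintro _ ⟨x, rfl⟩
    change trC z _ ∈ Submodule.span ℂ _
    apply Submodule.subset_span
    refine ⟨z * x, ?_⟩
    funext y
    rw [trC_apply]
    dsimp only
    rw [mul_assoc]
  exact h1 hw

theorem degLE_of_noChar [Finite Γ] {Ω : Type*} [DecidableEq Ω] (S : BlockSys Γ Ω)
    (hno : ∀ B, S.good B → NoChar (S.sub B)) (f : Γ → ℚ) {r : ℕ} (hr : finrank ℂ (WC f) ≤ r) :
    S.DegLE f (Nat.log 2 r) := by
  intro L hpw hL hlt y
  by_contra hne
  have hW : ∀ z : Γ, ∀ w ∈ WC f, trC z w ∈ WC f := WC_inv f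
  have h1 := two_pow_le_finrank trC (L.map (fun a => (S.sub a.1, a.2))) ?_ ?_ (WC f) ?_
    (fun x => (f x : ℂ)) ?_ ?_
  · rw [List.length_map] at h1
    have h2 := Nat.le_log_of_pow_le (by norm_num) (h1.trans hr)
    omega
  · rw [List.pairwise_map]
    exact hpw.imp (fun {a b} hab x hx y hy => S.comm _ _ hab x hx y hy)
  · intro a ha
    rw [List.mem_map] at ha
    obtain ⟨a', ha', rfl⟩ := ha
    exact ⟨(hL a' ha').2, hno _ (hL a' ha').1⟩
  · intro a _ x _ w hw
    exact hW x w hw
  · have := WC_gen f 1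
    simpa using this
  · rw [opL_trC, List.map_map]
    intro h
    have h2 := congrFun h y
    have h3 : (Prod.snd ∘ fun a : Finset Ω × Γ => (S.sub a.1, a.2)) = Prod.snd := rfl
    rw [h3, ← Del_cast, Pi.zero_apply] at h2
    exact hne (by exact_mod_cast h2)

/-- the kernel of `f` -/
def kerF (f : Γ → ℚ) : Subgroup Γ where
  carrier := {g | ∀ x y, f (y * g * x) = f (y * x)}
  mul_mem' := by
    intro a b ha hb x y
    have h1 := hb x (y * a)
    have h2 := ha x y
    rw [← h2, ← h1]; congr 1; group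
  one_mem' := by intro x y; rw [mul_one]
  inv_mem' := by
    intro a ha x y
    have := ha x (y * a⁻¹)
    rw [inv_mul_cancel_right] at this
    exact this.symm

theorem mem_kerF (f : Γ → ℚ) (g : Γ) : g ∈ kerF f ↔ ∀ x y, f (y * g * x) = f (y * x) := Iff.rfl

instance kerF_normal (f : Γ → ℚ) : (kerF f).Normal := by
  constructor
  intro a ha g x y
  have := ha (g⁻¹ * x) (y * g)
  calc f (y * (g * a * g⁻¹) * x) = f (y * g * a * (g⁻¹ * x)) := by congr 1; group
    _ = f (y * g * (g⁻¹ * x)) := this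
    _ = f (y * x) := by congr 1; group

theorem kerF_apply (f : Γ → ℚ) {g : Γ} (hg : g ∈ kerF f) (y : Γ) : f (y * g) = f y := by
  have := hg 1 y
  rwa [mul_one, mul_one] at this

theorem alt_degree_le [Finite Γ] (f : Γ → ℚ) (W : Submodule ℚ (Γ → ℚ)) [FiniteDimensional ℚ W]
    (hW : ∀ x, (fun y => f (y * x)) ∈ W) {r : ℕ} (hr : finrank ℚ W ≤ r) {m : ℕ} (hm : 5 ≤ m)
    (φ : alternatingGroup (Fin m) →* Γ) (hφ : ∃ g, φ g ∉ kerF f) : m ≤ 2 * r + 2 := by
  have hs : IsSimpleGroup (alternatingGroup (Fin m)) := alternatingGroup.isSimpleGroup (by simpa using hm)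
  have hbot : (kerF f).comap φ = ⊥ := by
    rcases (inferInstance : ((kerF f).comap φ).Normal).eq_bot_or_eq_top with h | h
    · exact h
    · obtain ⟨g, hg⟩ := hφ
      exact absurd ((Subgroup.mem_comap).1 (h ▸ Subgroup.mem_top g)) hg
  obtain ⟨p, hp, hp1, hp2⟩ := Nat.exists_prime_lt_and_le_two_mul (m / 2) (by omega)
  have hpm : p ≤ m := by omega
  have hp3 : 2 < p := by omega
  have : Fact p.Prime := ⟨hp⟩
  have hdvd : p ∣ Nat.card (alternatingGroup (Fin m)) := by
    have : Nontrivial (Fin m) := Fin.nontrivial_iff_two_le.2 (by omega)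
    have h1 : 2 * Nat.card (alternatingGroup (Fin m)) = Nat.card (Equiv.Perm (Fin m)) :=
      two_mul_nat_card_alternatingGroup
    have h2 : p ∣ Nat.card (Equiv.Perm (Fin m)) := by
      rw [Nat.card_perm, Nat.card_fin]
      exact (hp.dvd_factorial).2 hpm
    rw [← h1] at h2
    rcases hp.dvd_mul.1 h2 with h | h
    · exact absurd (Nat.le_of_dvd (by norm_num) h) (by omega)
    · exact h
  obtain ⟨z, hz⟩ := exists_prime_orderOf_dvd_card' p hdvd
  have hz1 : z ≠ 1 := by
    rintro rfl
    rw [orderOf_one] at hz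
    omega
  have hzK : φ z ∉ kerF f := by
    intro h
    have : z ∈ (kerF f).comap φ := h
    rw [hbot, Subgroup.mem_bot] at this
    exact hz1 this
  rw [mem_kerF] at hzK
  push Not at hzK
  obtain ⟨x, y, hxy⟩ := hzK
  have h1 : aeval (tr (φ z)) (∏ j ∈ ({()} : Finset Unit), (X ^ (fun _ : Unit => 1) j - 1 : ℚ[X]))
      (tr x f) ≠ 0 := by
    intro h
    rw [Finset.prod_singleton] at h
    have h2 := congrFun h y
    simp only [map_sub, map_pow, aeval_X, map_one, LinearMap.sub_apply, Pi.sub_apply, tr_pow,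
      tr_apply, Module.End.one_apply, Pi.zero_apply, pow_one] at h2
    exact hxy (by linarith)
  obtain ⟨k, hk1, hk2, hk3⟩ := lemD f W hW hp.pos (φ z) x (by
    rw [← map_pow, ← hz, pow_orderOf_eq_one, map_one]) _ _ h1
  have hk4 : ¬ k ∣ 1 := hk3 () (by simp)
  have hkp : k = p := by
    rcases (Nat.dvd_prime hp).1 hk1 with h | h
    · rw [h] at hk4; exact absurd (dvd_refl 1) hk4
    · exact h
  rw [hkp, Nat.totient_prime hp] at hk2
  omega

theorem exists_rep [Finite Γ] (f : Γ → ℚ) {T : Type*} [Group T] (φ : T →* Γ)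
    (hφ : ∃ g, φ g ∉ kerF f) : ∃ ρ : T →* GL (Fin (finrank ℂ (WC f))) ℂ, ρ ≠ 1 := by
  classical
  let R : T →* Module.End ℂ (WC f) :=
    { toFun := fun t => (trC (φ t)).restrict (WC_inv f (φ t))
      map_one' := by
        apply LinearMap.ext; intro w
        apply Subtype.ext
        simp
      map_mul' := by
        intro a b
        apply LinearMap.ext; intro w
        apply Subtype.ext
        simp [LinearMap.restrict_apply] }
  let b := Module.finBasis ℂ (WC f)
  let e := LinearMap.toMatrixAlgEquiv b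
  let ρ0 : T →* Matrix (Fin (finrank ℂ (WC f))) (Fin (finrank ℂ (WC f))) ℂ :=
    (e : _ →* _).comp R
  refine ⟨ρ0.toHomUnits, ?_⟩
  intro hρ
  obtain ⟨g, hg⟩ := hφ
  apply hg
  intro x y
  have h1 : ρ0 g = 1 := by
    have := congrArg Units.val (DFunLike.congr_fun hρ g)
    simpa using this
  have h2 : R g = 1 := by
    apply e.injective
    rw [map_one]; exact h1
  have h3 := congrArg (fun F : Module.End ℂ (WC f) => ((F ⟨_, WC_gen f x⟩ : WC f) : Γ → ℂ) y) h2
  have h4 : ((f (y * φ g * x) : ℚ) : ℂ) = ((f (y * x) : ℚ) : ℂ) := h3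
  exact_mod_cast h4

end

end Pool.Agent.Helper25
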