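import Mathlib
import Pool.Agent.Helper25.SimpleKernel
set_option autoImplicit false
set_option linter.unusedSectionVars false
open Polynomial Module

namespace Pool.Agent.Helper25

section
variable {ι : Type*} [Fintype ι] [DecidableEq ι] {T : ι → Type*} [∀ i, Group (T i)]
  {Ω : ι → Type*} [∀ i, DecidableEq (Ω i)] [∀ i, Fintype (Ω i)]

theorem supp_one {Γ : Type*} [Group Γ] {Ω : Type*} [DecidableEq Ω] (S : BlockSys Γ Ω) :
    S.supp 1 = ∅ := by
  have : (1 : Γ) ∈ S.sub ∅ := Subgroup.one_mem _
  rw [S.mem_sub, Finset.subset_empty] at this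
  exact this

/-- colouring of a product of groups with block systems -/
theorem exists_colour_prod (S : ∀ i, BlockSys (T i) (Ω i)) (hempty : ∀ i, (S i).good ∅)
    (huniv : ∀ i, (S i).good Finset.univ)
    (f : (∀ i, T i) → ℚ) (hf01 : ∀ x, f x = 0 ∨ f x = 1) (hf1 : f 1 = 0) (D q : ℕ) (hq : 0 < q)
    (hD : (prodSys S hempty).DegLE f D)
    (hlab : ∀ i, (∃ t : T i, (Pi.mulSingle i t : ∀ i, T i) ∉ kerF f) →
      ∃ lab : T i → Ω i → Fin q, ∀ z w x, lab z x = lab w x → x ∉ (S i).supp (z⁻¹ * w)) :
    ∃ c : (∀ i, T i) → Fin (q ^ (200 * D ^ 3)), ∀ x y, c x = c y → f (x⁻¹ * y) = 0 := by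
  classical
  have hgu : (prodSys S hempty).good Finset.univ := by
    intro i
    have : fib (Finset.univ : Finset (Σ i, Ω i)) i = Finset.univ := by
      ext x; simp [mem_fib]
    change (S i).good (fib (Finset.univ : Finset (Σ i, Ω i)) i)
    rw [this]; exact huniv i
  obtain ⟨A, hAc, hA⟩ := (prodSys S hempty).exists_cert hgu f hf01 hf1 D hD
  set rel : ι → Prop := fun i => ∃ t : T i, (Pi.mulSingle i t : ∀ i, T i) ∉ kerF f with hrel
  set A' := A.filter (fun a => rel a.1) with hA'
  have hA'c : A'.card ≤ 200 * D ^ 3 := (Finset.card_filter_le _ _).trans hAc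
  have hcert : ∀ z, Disjoint ((prodSys S hempty).supp z) A' → f z = 0 := by
    intro z hz
    set k : ∀ i, T i := fun i => if rel i then 1 else (z i)⁻¹ with hk
    have hkK : k ∈ kerF f := by
      apply Subgroup.pi_mem_of_mulSingle_mem
      intro i
      by_cases hi : rel i
      · simp only [hk, if_pos hi, Pi.mulSingle_one]
        exact Subgroup.one_mem _
      · have hi' := hi
        simp only [hrel] at hi'
        push Not at hi'
        exact hi' _
    rw [← kerF_apply f hkK z]
    apply hA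
    change Disjoint (asm (fun i => (S i).supp ((z * k) i))) A
    change Disjoint (asm (fun i => (S i).supp (z i))) A' at hz
    rw [disjoint_asm_iff] at hz ⊢
    intro i
    by_cases hi : rel i
    · have h1 : (z * k) i = z i := by simp [hk, hi]
      rw [h1]
      have h2 := hz i
      rw [Finset.disjoint_left] at h2 ⊢
      intro x hx hx'
      apply h2 hx
      rw [mem_fib] at hx' ⊢
      rw [hA', Finset.mem_filter]
      exact ⟨hx', hi⟩
    · have h1 : (z * k) i = 1 := by simp [hk, hi]
      rw [h1, supp_one]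
      exact Finset.disjoint_empty_left _
  have hl : ∀ i, ∃ lab : T i → Ω i → Fin q, rel i → ∀ z w x, lab z x = lab w x →
      x ∉ (S i).supp (z⁻¹ * w) := by
    intro i
    by_cases hi : rel i
    · obtain ⟨lab, hlab'⟩ := hlab i hi
      exact ⟨lab, fun _ => hlab'⟩
    · exact ⟨fun _ _ => ⟨0, hq⟩, fun h => absurd h hi⟩
  choose lab hlab' using hl
  have hemb : Nonempty ((A' → Fin q) ↪ Fin (q ^ (200 * D ^ 3))) := by
    apply Function.Embedding.nonempty_of_card_le
    rw [Fintype.card_fun, Fintype.card_fin, Fintype.card_coe, Fintype.card_fin]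
    exact Nat.pow_le_pow_right hq hA'c
  obtain ⟨em⟩ := hemb
  refine ⟨fun x => em (fun a => lab a.1.1 (x a.1.1) a.1.2), ?_⟩
  intro x y hxy
  have h1 := em.injective hxy
  apply hcert
  rw [Finset.disjoint_left]
  rintro ⟨i, a⟩ ha ha'
  have h2 := congrFun h1 ⟨⟨i, a⟩, ha'⟩
  have hi : rel i := (Finset.mem_filter.1 ha').2
  change (⟨i, a⟩ : Σ i, Ω i) ∈ asm (fun i => (S i).supp ((x⁻¹ * y) i)) at ha
  rw [mem_asm] at ha
  exact hlab' i hi (x i) (y i) a h2 ha

end

end Pool.Agent.Helper25
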