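import Mathlib
import Pool.Agent.Helper25.SimpleColour
import Pool.Agent.Helper25.NilGraph
set_option autoImplicit false
set_option linter.unusedSectionVars false
open Polynomial Module

namespace Pool.Agent.Helper25

theorem rank_complex_le_real {m n : Type*} [Fintype m] [Fintype n] (M : Matrix m n ℝ) :
    (M.map (algebraMap ℝ ℂ)).rank ≤ M.rank := by
  classical
  rw [Matrix.rank_eq_finrank_span_cols, Matrix.rank_eq_finrank_span_cols]
  obtain ⟨b, hb1, hb2, hb3⟩ := exists_linearIndependent ℝ (Set.range M.col)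
  have hbfin : b.Finite := (Set.finite_range _).subset hb1
  have := hbfin.fintype
  have h1 : finrank ℝ (Submodule.span ℝ (Set.range M.col)) = Fintype.card b := by
    rw [← hb2]
    have := finrank_span_eq_card hb3
    rwa [Subtype.range_coe] at this
  rw [h1]
  set cv : (m → ℝ) → (m → ℂ) := fun v => algebraMap ℝ ℂ ∘ v with hcv
  have h2 : Submodule.span ℂ (Set.range (M.map (algebraMap ℝ ℂ)).col) ≤
      Submodule.span ℂ (Set.range (fun i : b => cv (i : m → ℝ))) := by
    rw [Submodule.span_le]
    rintro _ ⟨j, rfl⟩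
    have hj : M.col j ∈ Submodule.span ℝ b := by rw [hb2]; exact Submodule.subset_span ⟨j, rfl⟩
    have key : ∀ v ∈ Submodule.span ℝ b, cv v ∈ Submodule.span ℂ (Set.range (fun i : b => cv (i : m → ℝ))) := by
      intro v hv
      induction hv using Submodule.span_induction with
      | mem x hx => exact Submodule.subset_span ⟨⟨x, hx⟩, rfl⟩
      | zero =>
        have : cv 0 = 0 := by funext i; simp [hcv]
        rw [this]; exact Submodule.zero_mem _
      | add x y _ _ hx hy =>
        have : cv (x + y) = cv x + cv y := by funext i; simp [hcv]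
        rw [this]; exact Submodule.add_mem _ hx hy
      | smul a x _ hx =>
        have : cv (a • x) = (a : ℂ) • cv x := by funext i; simp [hcv]
        rw [this]; exact Submodule.smul_mem _ _ hx
    exact key _ hj
  refine (Submodule.finrank_mono h2).trans ?_
  exact finrank_range_le_card _

/-- span of the rational right translates of `f` -/
def WQ {Γ : Type*} [Group Γ] (f : Γ → ℚ) : Submodule ℚ (Γ → ℚ) :=
  Submodule.span ℚ (Set.range (fun x : Γ => fun y : Γ => f (y * x)))

theorem WQ_gen {Γ : Type*} [Group Γ] (f : Γ → ℚ) (x : Γ) : (fun y : Γ => f (y * x)) ∈ WQ f :=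
  Submodule.subset_span ⟨x, rfl⟩

/-- a group all of whose `0/1` functions of rank at most `r` vanishing at `1` have
Cayley colourings with at most `M` colours -/
def GoodGroup (Γ : Type*) [Group Γ] (r M : ℕ) : Prop :=
  ∀ f : Γ → ℚ, (∀ x, f x = 0 ∨ f x = 1) → f 1 = 0 → finrank ℂ (WC f) ≤ r →
    finrank ℚ (WQ f) ≤ r → ∃ c : Γ → Fin M, ∀ x y, c x = c y → f (x⁻¹ * y) = 0

theorem colorable_of_goodGroup {Γ : Type*} [Group Γ] [Finite Γ] {n : ℕ} (G : SimpleGraph (Fin n))
    [DecidableRel G.Adj] (Ψ : Γ →* (G ≃g G)) {r M : ℕ} (hr : (G.adjMatrix ℝ).rank ≤ r)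
    (hM : GoodGroup Γ r M) :
    G.Colorable (Nat.card (MulAction.orbitRel.Quotient Ψ.range (Fin n)) * M) := by
  classical
  have := Fintype.ofFinite Γ
  have hG : ∀ (g : Γ) (u v : Fin n), G.Adj (Ψ g u) (Ψ g v) ↔ G.Adj u v :=
    fun g u v => (Ψ g).map_rel_iff
  have hrq : (G.adjMatrix ℚ).rank ≤ r := by
    refine (rank_rat_le_real _).trans (le_trans (le_of_eq ?_) hr)
    congr 1
    ext i j
    simp only [Matrix.map_apply, SimpleGraph.adjMatrix_apply]
    split_ifs <;> simp
  have hrc : (G.adjMatrix ℂ).rank ≤ r := by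
    refine le_trans (le_trans (le_of_eq ?_) (rank_complex_le_real (G.adjMatrix ℝ))) hr
    congr 1
    ext i j
    simp only [Matrix.map_apply, SimpleGraph.adjMatrix_apply]
    split_ifs <;> simp
  have hmain : ∀ o : Fin n, ∃ c : Γ → Fin M, ∀ x y, c x = c y → ¬ G.Adj o (Ψ (x⁻¹ * y) o) := by
    intro o
    set f : Γ → ℚ := fun x => if G.Adj o (Ψ x o) then 1 else 0 with hf
    have hadj : ∀ x y : Γ, G.Adj o (Ψ (y * x) o) ↔ G.Adj (Ψ y⁻¹ o) (Ψ x o) := by
      intro x y
      rw [← hG y (Ψ y⁻¹ o) (Ψ x o), ← RelIso.mul_apply, ← RelIso.mul_apply, ← map_mul, ← map_mul,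
        mul_inv_cancel, map_one]
      rfl
    have hWQ : finrank ℚ (WQ f) ≤ r := by
      have h1 : (((G.adjMatrix ℚ).submatrix (fun y : Γ => Ψ y⁻¹ o) (fun x : Γ => Ψ x o))).rank ≤
        (G.adjMatrix ℚ).rank := Matrix.rank_submatrix_le _ _ _
      rw [Matrix.rank_eq_finrank_span_cols] at h1
      refine le_trans (le_of_eq ?_) (h1.trans hrq)
      have h2 : Set.range (fun x : Γ => fun y : Γ => f (y * x)) = Set.range
          ((G.adjMatrix ℚ).submatrix (fun y : Γ => Ψ y⁻¹ o) (fun x : Γ => Ψ x o)).col := by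
        congr 1
        funext x y
        simp only [hf, Matrix.col_apply, Matrix.submatrix_apply, SimpleGraph.adjMatrix_apply, hadj]
      unfold WQ
      rw [h2]
    have hWC : finrank ℂ (WC f) ≤ r := by
      have h1 : (((G.adjMatrix ℂ).submatrix (fun y : Γ => Ψ y⁻¹ o) (fun x : Γ => Ψ x o))).rank ≤
        (G.adjMatrix ℂ).rank := Matrix.rank_submatrix_le _ _ _
      rw [Matrix.rank_eq_finrank_span_cols] at h1
      refine le_trans (le_of_eq ?_) (h1.trans hrc)
      have h2 : Set.range (fun x : Γ => fun y : Γ => ((f (y * x) : ℚ) : ℂ)) = Set.range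
          ((G.adjMatrix ℂ).submatrix (fun y : Γ => Ψ y⁻¹ o) (fun x : Γ => Ψ x o)).col := by
        congr 1
        funext x y
        simp only [hf, Matrix.col_apply, Matrix.submatrix_apply, SimpleGraph.adjMatrix_apply, hadj]
        split_ifs <;> simp
      unfold WC
      rw [h2]
    have hf01 : ∀ x, f x = 0 ∨ f x = 1 := by
      intro x
      simp only [hf]
      split_ifs <;> simp
    have hf1 : f 1 = 0 := by
      have : ¬ G.Adj o ((Ψ 1) o) := by rw [map_one]; exact G.loopless.irrefl o
      simp only [hf, if_neg this]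
    obtain ⟨c, hc⟩ := hM f hf01 hf1 hWC hWQ
    refine ⟨c, fun x y hxy hadj => ?_⟩
    have := hc x y hxy
    simp only [hf] at this
    rw [if_pos hadj] at this
    exact one_ne_zero this
  choose c hc using hmain
  have hrep : ∀ v : Fin n, ∃ g : Γ,
      Ψ g (Quotient.out (Quotient.mk (MulAction.orbitRel Ψ.range (Fin n)) v)) = v := by
    intro v
    have h1 : (MulAction.orbitRel Ψ.range (Fin n))
        (Quotient.out (Quotient.mk (MulAction.orbitRel Ψ.range (Fin n)) v)) v :=
      Quotient.exact (Quotient.out_eq (Quotient.mk (MulAction.orbitRel Ψ.range (Fin n)) v))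
    have h2 : v ∈ MulAction.orbit Ψ.range
        (Quotient.out (Quotient.mk (MulAction.orbitRel Ψ.range (Fin n)) v)) :=
      (MulAction.orbitRel Ψ.range (Fin n)).symm h1
    obtain ⟨⟨_, ⟨g, rfl⟩⟩, hg⟩ := h2
    exact ⟨g, hg⟩
  choose g hg using hrep
  let col : Fin n → MulAction.orbitRel.Quotient Ψ.range (Fin n) × Fin M := fun v =>
    (Quotient.mk (MulAction.orbitRel Ψ.range (Fin n)) v,
      c (Quotient.out (Quotient.mk (MulAction.orbitRel Ψ.range (Fin n)) v)) (g v))
  have hcol : ∀ u v, G.Adj u v → col u ≠ col v := by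
    intro u v huv hcol
    simp only [col, Prod.mk.injEq] at hcol
    obtain ⟨h1, h2⟩ := hcol
    set o := Quotient.out (Quotient.mk (MulAction.orbitRel Ψ.range (Fin n)) u) with ho
    have ho' : Quotient.out (Quotient.mk (MulAction.orbitRel Ψ.range (Fin n)) v) = o := by rw [ho, h1]
    have hgu : Ψ (g u) o = u := hg u
    have hgv : Ψ (g v) o = v := by
      have := hg v
      rwa [ho'] at this
    rw [ho'] at h2
    apply hc o (g u) (g v) h2
    rw [← hG (g u), ← RelIso.mul_apply (Ψ (g u)), ← map_mul, mul_inv_cancel_left, hgu, hgv]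
    exact huv
  have hcl : G.Coloring (MulAction.orbitRel.Quotient Ψ.range (Fin n) × Fin M) :=
    SimpleGraph.Coloring.mk col (fun {u v} huv => hcol u v huv)
  have := Fintype.ofFinite (MulAction.orbitRel.Quotient Ψ.range (Fin n))
  have h2 := hcl.colorable
  rw [Fintype.card_prod, Fintype.card_fin, ← Nat.card_eq_fintype_card] at h2
  exact h2

end Pool.Agent.Helper25
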