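import Mathlib
import Pool.Agent.Helper25.SimpleKernel
set_option autoImplicit false
set_option linter.unusedSectionVars false
open Polynomial Module

namespace Pool.Agent.Helper25

section
variable {Γ : Type*} [Group Γ] {K : Type*} [CommRing K]

theorem Del_append (L1 L2 : List Γ) (f : Γ → K) : Del (L1 ++ L2) f = Del L1 (Del L2 f) := by
  induction L1 with
  | nil => rfl
  | cons z L ih =>
    funext y
    rw [List.cons_append, Del, Del, ih]

theorem Del_zero (L : List Γ) : Del L (0 : Γ → K) = 0 := by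
  induction L with
  | nil => rfl
  | cons z L ih => funext y; rw [Del, ih]; simp

theorem Del_perm {L L' : List Γ} (h : L.Perm L') (f : Γ → K) (hc : L.Pairwise Commute) :
    Del L f = Del L' f := by
  induction h with
  | nil => rfl
  | cons z _ ih =>
    rw [List.pairwise_cons] at hc
    funext y
    rw [Del, Del, ih hc.2]
  | swap a b L =>
    rw [List.pairwise_cons] at hc
    have h1 : Commute b a := hc.1 a (by simp)
    funext y
    simp only [Del]
    rw [mul_assoc, mul_assoc, h1.eq]
    ring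
  | trans h1 _ ih1 ih2 =>
    rw [ih1 hc, ih2 ((h1.pairwise_iff (fun {a b} (hab : Commute a b) => hab.symm)).1 hc)]

theorem Del_shift (L : List Γ) (z : Γ) (hz : ∀ w ∈ L, Commute z w) (f : Γ → K) (y : Γ) :
    Del L (fun x => f (x * z) - f x) y = Del L f (y * z) - Del L f y := by
  induction L generalizing y with
  | nil => rfl
  | cons w L ih =>
    have h1 : Commute z w := hz w (by simp)
    have ih' := ih (fun v hv => hz v (by simp [hv]))
    rw [Del, ih', ih', Del, Del, mul_assoc, mul_assoc, h1.eq]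
    ring

theorem Del_split {β γ : Type*} (u v : β → γ) (val : γ → Γ) (L : List β) (f : Γ → K)
    (hpw : L.Pairwise (fun a b => Commute (val (u a)) (val (u b)) ∧ Commute (val (u a)) (val (v b)) ∧
      Commute (val (v a)) (val (u b)) ∧ Commute (val (v a)) (val (v b))))
    (h : ∀ L' : List γ, List.Forall₂ (fun a c => c = u a ∨ c = v a) L L' → Del (L'.map val) f = 0) :
    Del (L.map (fun a => val (u a) * val (v a))) f = 0 := by
  induction L generalizing f with
  | nil => exact h [] List.Forall₂.nil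
  | cons a L ih =>
    rw [List.pairwise_cons] at hpw
    set z := val (u a) * val (v a) with hz
    have hcz : ∀ w ∈ L.map (fun a => val (u a) * val (v a)), Commute z w := by
      intro w hw
      rw [List.mem_map] at hw
      obtain ⟨b, hb, rfl⟩ := hw
      obtain ⟨h1, h2, h3, h4⟩ := hpw.1 b hb
      exact ((h1.mul_right h2)).mul_left (h3.mul_right h4)
    have hkey : Del (L.map (fun a => val (u a) * val (v a))) (fun x => f (x * z) - f x) = 0 := by
      apply ih _ hpw.2
      intro L' hL'
      have hcL' : ∀ w ∈ L'.map val, Commute z w := by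
        intro w hw
        rw [List.mem_map] at hw
        obtain ⟨c, hc, rfl⟩ := hw
        have : ∃ b ∈ L, c = u b ∨ c = v b := by
          clear h ih hpw hcz
          induction hL' with
          | nil => simp at hc
          | cons hR hrest ihL =>
            rename_i b' c' L1 L2
            rcases List.mem_cons.1 hc with rfl | hc'
            · exact ⟨b', by simp, hR⟩
            · obtain ⟨b, hb, hb'⟩ := ihL hc'
              exact ⟨b, by simp [hb], hb'⟩
        obtain ⟨b, hb, hb'⟩ := this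
        obtain ⟨h1, h2, h3, h4⟩ := hpw.1 b hb
        rcases hb' with rfl | rfl
        · exact h1.mul_left h3
        · exact h2.mul_left h4
      have hu := h (u a :: L') (List.Forall₂.cons (Or.inl rfl) hL')
      have hv := h (v a :: L') (List.Forall₂.cons (Or.inr rfl) hL')
      funext y
      rw [Del_shift _ _ hcL']
      have e1 := congrFun hu y
      have e2 := congrFun hv (y * val (u a))
      simp only [List.map_cons, Del, Pi.zero_apply] at e1 e2
      rw [Pi.zero_apply, hz, ← mul_assoc]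
      linear_combination e1 + e2
    funext y
    rw [List.map_cons, Del, ← Del_shift _ _ hcz, hkey]

end

section
variable {Γ : Type*} [Group Γ] {Ω : Type*} [DecidableEq Ω]

/-- degree bound for blocks satisfying `κ` -/
def BlockSys.DegOn (S : BlockSys Γ Ω) (κ : Finset Ω → Prop) (f : Γ → ℚ) (D : ℕ) : Prop :=
  ∀ L : List (Finset Ω × Γ), L.Pairwise (fun a b => Disjoint a.1 b.1) →
    (∀ a ∈ L, κ a.1 ∧ S.good a.1 ∧ a.2 ∈ S.sub a.1) → D < L.length → Del (L.map Prod.snd) f = 0

theorem BlockSys.degLE_of_degOn (S : BlockSys Γ Ω) (κ1 κ2 : Finset Ω → Prop) (f : Γ → ℚ) (D1 D2 : ℕ)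
    (h1 : S.DegOn κ1 f D1) (h2 : S.DegOn κ2 f D2)
    (hsplit : ∀ B, S.good B → ∀ g ∈ S.sub B, ∃ B1 g1 B2 g2, g = g1 * g2 ∧ B1 ⊆ B ∧ B2 ⊆ B ∧
      κ1 B1 ∧ κ2 B2 ∧ S.good B1 ∧ S.good B2 ∧ g1 ∈ S.sub B1 ∧ g2 ∈ S.sub B2) :
    S.DegLE f (D1 + D2) := by
  classical
  intro L hpw hL hlt y
  have hex : ∀ a : Finset Ω × Γ, ∃ b c : Finset Ω × Γ, a ∈ L → a.2 = b.2 * c.2 ∧ b.1 ⊆ a.1 ∧
      c.1 ⊆ a.1 ∧ κ1 b.1 ∧ κ2 c.1 ∧ S.good b.1 ∧ S.good c.1 ∧ b.2 ∈ S.sub b.1 ∧ c.2 ∈ S.sub c.1 := by
    intro a
    by_cases ha : a ∈ L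
    · obtain ⟨B1, g1, B2, g2, hh⟩ := hsplit a.1 (hL a ha).1 a.2 (hL a ha).2
      exact ⟨(B1, g1), (B2, g2), fun _ => hh⟩
    · exact ⟨(∅, 1), (∅, 1), fun h => absurd h ha⟩
  choose u v huv using hex
  have hcomm : ∀ {b c : Finset Ω × Γ}, Disjoint b.1 c.1 → b.2 ∈ S.sub b.1 → c.2 ∈ S.sub c.1 →
      Commute b.2 c.2 := fun h hb hc => S.comm _ _ h _ hb _ hc
  have hmap : L.map Prod.snd = L.map (fun a => (u a).2 * (v a).2) := by
    apply List.map_congr_left
    intro a ha
    exact (huv a ha).1
  rw [hmap]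
  have hpw2 : L.Pairwise (fun a b => a ∈ L ∧ b ∈ L ∧ Disjoint a.1 b.1) := by
    rw [List.pairwise_iff_forall_sublist] at hpw ⊢
    intro a b hab
    exact ⟨hab.subset (by simp), hab.subset (by simp), hpw hab⟩
  have hzero : Del (L.map (fun a => (u a).2 * (v a).2)) f = 0 := by
    apply Del_split u v Prod.snd L f
    · refine hpw2.imp ?_
      rintro a b ⟨ha, hb, hab⟩
      obtain ⟨_, a1, a2, _, _, _, _, a3, a4⟩ := huv a ha
      obtain ⟨_, b1, b2, _, _, _, _, b3, b4⟩ := huv b hb
      exact ⟨hcomm (Disjoint.mono a1 b1 hab) a3 b3, hcomm (Disjoint.mono a1 b2 hab) a3 b4,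
        hcomm (Disjoint.mono a2 b1 hab) a4 b3, hcomm (Disjoint.mono a2 b2 hab) a4 b4⟩
    · intro L' hL'
      -- properties of L'
      have hprop : L'.length = L.length ∧ L'.Pairwise (fun a b => Disjoint a.1 b.1) ∧
          ∀ c ∈ L', S.good c.1 ∧ c.2 ∈ S.sub c.1 ∧ (κ1 c.1 ∨ κ2 c.1) ∧ ∃ a ∈ L, c.1 ⊆ a.1 := by
        have hgen : ∀ (M : List (Finset Ω × Γ)) (M' : List (Finset Ω × Γ)), (∀ a ∈ M, a ∈ L) →
            M.Pairwise (fun a b => Disjoint a.1 b.1) →
            List.Forall₂ (fun a c => c = u a ∨ c = v a) M M' →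
            M'.length = M.length ∧ M'.Pairwise (fun a b => Disjoint a.1 b.1) ∧
            ∀ c ∈ M', S.good c.1 ∧ c.2 ∈ S.sub c.1 ∧ (κ1 c.1 ∨ κ2 c.1) ∧ ∃ a ∈ M, c.1 ⊆ a.1 := by
          intro M M' hML hMpw hF
          induction hF with
          | nil => exact ⟨rfl, List.Pairwise.nil, by simp⟩
          | cons hR hrest ih =>
            rename_i a c M1 M2
            rw [List.pairwise_cons] at hMpw
            obtain ⟨i1, i2, i3⟩ := ih (fun b hb => hML b (by simp [hb])) hMpw.2
            obtain ⟨_, a1, a2, k1, k2, g1, g2, s1, s2⟩ := huv a (hML a (by simp))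
            have hc : S.good c.1 ∧ c.2 ∈ S.sub c.1 ∧ (κ1 c.1 ∨ κ2 c.1) ∧ c.1 ⊆ a.1 := by
              rcases hR with rfl | rfl
              · exact ⟨g1, s1, Or.inl k1, a1⟩
              · exact ⟨g2, s2, Or.inr k2, a2⟩
            refine ⟨by simp [i1], ?_, ?_⟩
            · rw [List.pairwise_cons]
              refine ⟨fun d hd => ?_, i2⟩
              obtain ⟨_, _, _, b, hb, hdb⟩ := i3 d hd
              exact Disjoint.mono hc.2.2.2 hdb (hMpw.1 b hb)
            · intro d hd
              rcases List.mem_cons.1 hd with rfl | hd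
              · exact ⟨hc.1, hc.2.1, hc.2.2.1, a, by simp, hc.2.2.2⟩
              · obtain ⟨j1, j2, j3, b, hb, hdb⟩ := i3 d hd
                exact ⟨j1, j2, j3, b, by simp [hb], hdb⟩
        exact hgen L L' (fun a ha => ha) hpw hL'
      obtain ⟨hlen, hpw', hmem'⟩ := hprop
      set L1 := L'.filter (fun c => decide (κ1 c.1)) with hL1
      set L2 := L'.filter (fun c => !(decide (κ1 c.1))) with hL2
      have hperm : (L1 ++ L2).Perm L' := List.filter_append_perm _ _
      have hlen2 : L1.length + L2.length = L.length := by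
        rw [← List.length_append, hperm.length_eq, hlen]
      have hpw1 := hpw'.sublist (List.filter_sublist (p := fun c => decide (κ1 c.1)) (l := L'))
      have hpw22 := hpw'.sublist (List.filter_sublist (p := fun c => !(decide (κ1 c.1))) (l := L'))
      have hm1 : ∀ a ∈ L1, κ1 a.1 ∧ S.good a.1 ∧ a.2 ∈ S.sub a.1 := by
        intro a ha
        rw [hL1, List.mem_filter] at ha
        obtain ⟨j1, j2, _⟩ := hmem' a ha.1
        exact ⟨of_decide_eq_true ha.2, j1, j2⟩
      have hm2 : ∀ a ∈ L2, κ2 a.1 ∧ S.good a.1 ∧ a.2 ∈ S.sub a.1 := by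
        intro a ha
        rw [hL2, List.mem_filter] at ha
        obtain ⟨j1, j2, j3, _⟩ := hmem' a ha.1
        have h3 : ¬ κ1 a.1 := by simpa using ha.2
        exact ⟨j3.resolve_left h3, j1, j2⟩
      have hcomL' : (L'.map Prod.snd).Pairwise Commute := by
        rw [List.pairwise_map]
        rw [List.pairwise_iff_forall_sublist] at hpw' ⊢
        intro a b hab
        have ha := hmem' a (hab.subset (by simp))
        have hb := hmem' b (hab.subset (by simp))
        exact hcomm (hpw' hab) ha.2.1 hb.2.1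
      rcases Nat.lt_or_ge D1 L1.length with h | h
      · have e1 := h1 L1 hpw1 hm1 h
        have hp2 : (L'.map Prod.snd).Perm (L2.map Prod.snd ++ L1.map Prod.snd) := by
          rw [← List.map_append]
          exact ((List.perm_append_comm.trans hperm).symm).map _
        rw [Del_perm hp2 f hcomL', Del_append, e1, Del_zero]
      · have e2 := h2 L2 hpw22 hm2 (by omega)
        have hp1 : (L'.map Prod.snd).Perm (L1.map Prod.snd ++ L2.map Prod.snd) := by
          rw [← List.map_append]
          exact hperm.symm.map _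
        rw [Del_perm hp1 f hcomL', Del_append, e2, Del_zero]
  exact congrFun hzero y

theorem degOn_of_noChar [Finite Γ] (S : BlockSys Γ Ω) (κ : Finset Ω → Prop)
    (hno : ∀ B, κ B → S.good B → NoChar (S.sub B)) (f : Γ → ℚ) {r : ℕ}
    (hr : finrank ℂ (WC f) ≤ r) : S.DegOn κ f (Nat.log 2 r) := by
  intro L hpw hL hlt
  funext y
  rw [Pi.zero_apply]
  by_contra hne
  have hW : ∀ z : Γ, ∀ w ∈ WC f, trC z w ∈ WC f := WC_inv f
  have h1 := two_pow_le_finrank trC (L.map (fun a => (S.sub a.1, a.2))) ?_ ?_ (WC f) ?_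
    (fun x => (f x : ℂ)) ?_ ?_
  · rw [List.length_map] at h1
    have h2 := Nat.le_log_of_pow_le (by norm_num) (h1.trans hr)
    omega
  · rw [List.pairwise_map]
    exact hpw.imp (fun {a b} hab x hx y hy => S.comm _ _ hab x hx y hy)
  · intro a ha
    rw [List.mem_map] at ha
    obtain ⟨a', ha', rfl⟩ := ha
    exact ⟨(hL a' ha').2.2, hno _ (hL a' ha').1 (hL a' ha').2.1⟩
  · intro a _ x _ w hw
    exact hW x w hw
  · have := WC_gen f 1
    simpa using this
  · rw [opL_trC, List.map_map]
    intro h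
    have h2 := congrFun h y
    have h3 : (Prod.snd ∘ fun a : Finset Ω × Γ => (S.sub a.1, a.2)) = Prod.snd := rfl
    rw [h3, ← Del_cast, Pi.zero_apply] at h2
    exact hne (by exact_mod_cast h2)

end

end Pool.Agent.Helper25
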