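import Mathlib
import Pool.Agent.Helper25.MixDeg
import Pool.Agent.Helper25.GraphLift
set_option autoImplicit false
set_option linter.unusedSectionVars false
open Polynomial Module

namespace Pool.Agent.Helper25

theorem list_prod_eq_of_mem {G : Type*} [Group G] (l : List G)
    (h : l.Pairwise (fun a b => a = 1 ∨ b = 1)) (c : G) (hc : c ∈ l) (hc1 : c ≠ 1) : l.prod = c := by
  induction l with
  | nil => simp at hc
  | cons d l ih =>
    rw [List.pairwise_cons] at h
    rw [List.prod_cons]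
    rcases List.mem_cons.1 hc with rfl | hc
    · have : ∀ x ∈ l, x = 1 := fun x hx => (h.1 x hx).resolve_left hc1
      rw [List.prod_eq_one this, mul_one]
    · have hd : d = 1 := (h.1 c hc).resolve_right hc1
      rw [hd, one_mul, ih h.2 hc]

section
variable {Γ : Type*} [Group Γ]

theorem Del_eq_aeval {β : Type*} (f : Γ → ℚ) (x : Γ) (E : β → ℕ) (v : β → Γ) (L : List β)
    (h : ∀ a ∈ L, x ^ E a = v a) :
    Del (L.map v) f = aeval (tr x) ((L.map (fun a => (X ^ E a - 1 : ℚ[X]))).prod) f := by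
  induction L with
  | nil => simp; rfl
  | cons a L ih =>
    rw [List.map_cons, List.map_cons, List.prod_cons, map_mul, Module.End.mul_apply,
      ← ih (fun b hb => h b (by simp [hb]))]
    funext y
    simp only [Del, map_sub, map_pow, aeval_X, map_one, LinearMap.sub_apply, Pi.sub_apply, tr_pow,
      tr_apply, Module.End.one_apply]
    rw [h a (by simp)]

end

section
variable {ι : Type*} [Fintype ι] [DecidableEq ι] {T : ι → Type*} [∀ i, Group (T i)]
  [∀ i, Finite (T i)]
  {Ω : ι → Type*} [∀ i, DecidableEq (Ω i)]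

theorem pgroup_pow (p : ℕ) (hp : p.Prime) (i : ι) (hpg : IsPGroup p (T i)) (g : T i) :
    g ^ (p ^ (Nat.card (∀ i, T i)).factorization p) = 1 := by
  have := Fact.mk hp
  obtain ⟨k, hk⟩ := (IsPGroup.iff_orderOf.1 hpg) g
  have h1 : p ^ k ∣ Nat.card (∀ i, T i) := by
    rw [← hk]
    refine (orderOf_dvd_natCard g).trans ?_
    rw [Nat.card_pi]
    exact Finset.dvd_prod_of_mem _ (Finset.mem_univ i)
  have h2 : k ≤ (Nat.card (∀ i, T i)).factorization p :=
    (hp.pow_dvd_iff_le_factorization Nat.card_pos.ne').1 h1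
  rw [← orderOf_dvd_iff_pow_eq_one, hk]
  exact pow_dvd_pow p h2

theorem prime_mem (p : ℕ) (hp : p.Prime) (i : ι) (hpg : IsPGroup p (T i)) (g : T i) (hg : g ≠ 1) :
    p ∈ (Nat.card (∀ i, T i)).primeFactors := by
  have := Fact.mk hp
  obtain ⟨k, hk⟩ := (IsPGroup.iff_orderOf.1 hpg) g
  have hk0 : k ≠ 0 := by
    rintro rfl
    rw [pow_zero, orderOf_eq_one_iff] at hk
    exact hg hk
  rw [Nat.mem_primeFactors]
  refine ⟨hp, ?_, Nat.card_pos.ne'⟩
  refine (dvd_pow_self p hk0).trans ?_
  rw [← hk]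
  refine (orderOf_dvd_natCard g).trans ?_
  rw [Nat.card_pi]
  exact Finset.dvd_prod_of_mem _ (Finset.mem_univ i)

theorem degOn_nil (S : ∀ i, BlockSys (T i) (Ω i)) (hempty : ∀ i, (S i).good ∅)
    (κ : ι → Prop) (pr : ι → ℕ) (hprime : ∀ i, κ i → (pr i).Prime)
    (hpg : ∀ i, κ i → IsPGroup (pr i) (T i))
    (hinj : ∀ i j, κ i → κ j → pr i = pr j → i = j)
    (hss : ∀ i, κ i → Subsingleton (Ω i))
    (f : (∀ i, T i) → ℚ) {r : ℕ} (hr : finrank ℚ (WQ f) ≤ r) :
    (prodSys S hempty).DegOn (fun B => ∀ i, ¬ κ i → fib B i = ∅) f (Nat.log 2 (2 * r)) := by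
  classical
  intro L hpw hL hlt
  by_contra hne
  set M := Nat.card (∀ i, T i) with hM
  have hM0 : M ≠ 0 := Nat.card_pos.ne'
  obtain ⟨e, he⟩ := exists_idem M hM0
  set Pa : (Finset (Σ i, Ω i) × (∀ i, T i)) → Finset ℕ := fun a =>
    (Finset.univ.filter (fun i => κ i ∧ a.2 i ≠ 1)).image pr with hPa
  have hPasub : ∀ a, Pa a ⊆ M.primeFactors := by
    intro a q hq
    rw [hPa, Finset.mem_image] at hq
    obtain ⟨i, hi, rfl⟩ := hq
    rw [Finset.mem_filter] at hi
    exact prime_mem (pr i) (hprime i hi.2.1) i (hpg i hi.2.1) (a.2 i) hi.2.2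
  have hsupp : ∀ a ∈ L, ∀ i, (S i).supp (a.2 i) ⊆ fib a.1 i := by
    intro a ha i
    have h1 := ((prodSys S hempty).mem_sub _ _).1 (hL a ha).2.2
    exact (asm_subset_iff _ _).1 h1 i
  have hone : ∀ a ∈ L, ∀ i, fib a.1 i = ∅ → a.2 i = 1 := by
    intro a ha i hi
    apply (S i).faithful
    rw [← Finset.subset_empty, ← hi]
    exact hsupp a ha i
  -- at most one nontrivial entry in each `κ`-coordinate
  have hdis : ∀ (a b : Finset (Σ i, Ω i) × (∀ i, T i)), a ∈ L → b ∈ L → Disjoint a.1 b.1 →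
      ∀ i, κ i → a.2 i = 1 ∨ b.2 i = 1 := by
    intro a b ha hb hab i hi
    by_contra hcon
    push Not at hcon
    have hss' := hss i hi
    have h1 : (fib a.1 i).Nonempty := by
      rw [Finset.nonempty_iff_ne_empty]; exact fun h => hcon.1 (hone a ha i h)
    have h2 : (fib b.1 i).Nonempty := by
      rw [Finset.nonempty_iff_ne_empty]; exact fun h => hcon.2 (hone b hb i h)
    obtain ⟨x, hx⟩ := h1
    obtain ⟨y, hy⟩ := h2
    have : x = y := Subsingleton.elim _ _
    subst this
    exact (Finset.disjoint_left.1 hab ((mem_fib _ _ _).1 hx)) ((mem_fib _ _ _).1 hy)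
  have hpw2 : L.Pairwise (fun a b => ∀ i, κ i → a.2 i = 1 ∨ b.2 i = 1) := by
    rw [List.pairwise_iff_forall_sublist] at hpw ⊢
    intro a b hab
    exact hdis a b (hab.subset (by simp)) (hab.subset (by simp)) (hpw hab)
  set x := (L.map Prod.snd).prod with hx
  have hxi : ∀ i, x i = (L.map (fun a => a.2 i)).prod := by
    intro i
    have : x i = (Pi.evalMonoidHom T i) x := rfl
    rw [this, hx, map_list_prod, List.map_map]
    rfl
  set E : (Finset (Σ i, Ω i) × (∀ i, T i)) → ℕ := fun a => ∑ q ∈ Pa a, e q with hE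
  have hxE : ∀ a ∈ L, x ^ E a = a.2 := by
    intro a ha
    funext i
    rw [Pi.pow_apply, hxi]
    by_cases hi : κ i
    · have hmapw : (L.map (fun a => a.2 i)).Pairwise (fun a b => a = 1 ∨ b = 1) := by
        rw [List.pairwise_map]
        exact hpw2.imp (fun {a b} h => h i hi)
      by_cases ha1 : a.2 i = 1
      · rw [ha1]
        have hnot : pr i ∉ Pa a := by
          intro h
          rw [hPa, Finset.mem_image] at h
          obtain ⟨j, hj, hji⟩ := h
          rw [Finset.mem_filter] at hj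
          have : j = i := hinj j i hj.2.1 hi hji
          subst this
          exact hj.2.2 ha1
        have hd : pr i ^ M.factorization (pr i) ∣ E a := by
          by_cases hp : pr i ∈ M.primeFactors
          · exact sum_dvd he (hPasub a) hp hnot
          · have : M.factorization (pr i) = 0 := by
              rw [← Nat.support_factorization, Finsupp.mem_support_iff, not_not] at hp
              exact hp
            rw [this, pow_zero]; exact one_dvd _
        obtain ⟨k, hk⟩ := hd
        rw [hk, pow_mul, pgroup_pow (pr i) (hprime i hi) i (hpg i hi), one_pow]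
      · rw [list_prod_eq_of_mem _ hmapw (a.2 i) (List.mem_map.2 ⟨a, ha, rfl⟩) ha1]
        have hmem : pr i ∈ Pa a := by
          rw [hPa, Finset.mem_image]
          exact ⟨i, by rw [Finset.mem_filter]; exact ⟨Finset.mem_univ _, hi, ha1⟩, rfl⟩
        have hmod := sum_modEq he (hPasub a) hmem
        rw [pow_eq_pow_of_modEq hmod (pgroup_pow (pr i) (hprime i hi) i (hpg i hi) (a.2 i)), pow_one]
    · have hall : ∀ b ∈ L, b.2 i = 1 := fun b hb => hone b hb i ((hL b hb).1 i hi)
      rw [hall a ha, List.prod_eq_one, one_pow]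
      intro y hy
      rw [List.mem_map] at hy
      obtain ⟨b, hb, rfl⟩ := hy
      exact hall b hb
  rw [Del_eq_aeval f x E Prod.snd L hxE] at hne
  have hWQ : ∀ Q : ℚ[X], aeval (tr x) Q f ∈ WQ f := by
    intro Q
    have := aeval_mem f (WQ f) (WQ_gen f) x 1 Q
    rwa [tr_one] at this
  obtain ⟨m, hmM, hphi, hnd⟩ := exists_cyclotomic (tr x) (Nat.pos_of_ne_zero hM0)
    (by rw [tr_pow, hM, pow_card_eq_one', tr_one]) (WQ f) f hWQ _ hne
  have hndE : ∀ a ∈ L, ¬ m ∣ E a := by
    intro a ha hmE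
    apply hnd
    have h1 : cyclotomic m ℚ ∣ X ^ m - 1 := cyclotomic.dvd_X_pow_sub_one m ℚ
    obtain ⟨k, hk⟩ := hmE
    have h2 : (X ^ m - 1 : ℚ[X]) ∣ X ^ E a - 1 := by
      rw [hk]; exact pow_one_sub_dvd_pow_mul_sub_one X m k
    exact (h1.trans h2).trans (List.dvd_prod (List.mem_map.2 ⟨a, ha, rfl⟩))
  have hlen := card_le_card_primeFactors hM0 he (Finset.univ : Finset (Fin L.length))
    (fun i => Pa (L.get i)) (fun i _ => hPasub _) (by
      intro i _ j _ hij
      have hdd : Disjoint (L.get i).1 (L.get j).1 := by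
        rw [List.pairwise_iff_get] at hpw
        rcases lt_or_gt_of_ne hij with h | h
        · exact hpw i j h
        · exact (hpw j i h).symm
      rw [Finset.disjoint_left]
      intro q hq hq'
      rw [hPa, Finset.mem_image] at hq hq'
      obtain ⟨i1, hi1, hi1'⟩ := hq
      obtain ⟨i2, hi2, hi2'⟩ := hq'
      rw [Finset.mem_filter] at hi1 hi2
      have : i1 = i2 := hinj i1 i2 hi1.2.1 hi2.2.1 (by rw [hi1', hi2'])
      subst this
      rcases hdis _ _ (List.get_mem L i) (List.get_mem L j) hdd i1 hi1.2.1 with h | h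
      · exact hi1.2.2 h
      · exact hi2.2.2 h) hmM (fun i _ => hndE _ (List.get_mem L i))
  rw [Finset.card_univ, Fintype.card_fin] at hlen
  have hm0 : m ≠ 0 := fun h => hM0 (by rw [h] at hmM; exact Nat.eq_zero_of_zero_dvd hmM)
  have h2 := two_pow_card_le m hm0
  have h3 : 2 ^ L.length ≤ 2 ^ m.primeFactors.card := Nat.pow_le_pow_right (by norm_num) hlen
  have h4 : 2 ^ L.length ≤ 2 * r := by omega
  have := Nat.le_log_of_pow_le (by norm_num) h4
  omega

end

section
variable {Γ : Type*} [Group Γ] [Finite Γ]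

theorem lab_pgroup {P : Type*} [Group P] [Finite P] {p : ℕ} (hp : p.Prime) (hpg : IsPGroup p P)
    (φ : P →* Γ) (f : Γ → ℚ) {r : ℕ} (hr : finrank ℚ (WQ f) ≤ r) (hrpos : 0 < r) {t : ℕ}
    (σ : Fin t → P) (hσ : ∀ g : P, ∃ a : Fin t → ℤ, g = (List.ofFn fun i => σ i ^ a i).prod) :
    ∃ c : P → Fin ((2 * r) ^ t), ∀ z w, c z = c w → φ (z⁻¹ * w) ∈ kerF f := by
  classical
  have := Fact.mk hp
  set l := Nat.log p (2 * r) with hl
  set K := p ^ l with hK
  have hKpos : 0 < K := pow_pos hp.pos _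
  have hKle : K ≤ 2 * r := Nat.pow_log_le_self p (by omega)
  set S := (kerF f).comap φ with hS
  have hSn : S.Normal := inferInstance
  have hpow : ∀ z : P, z ^ K ∈ S := by
    intro z
    by_contra hz
    rw [hS, Subgroup.mem_comap, mem_kerF] at hz
    push Not at hz
    obtain ⟨x, y, hxy⟩ := hz
    obtain ⟨k, hk⟩ := (IsPGroup.iff_orderOf.1 hpg) z
    have h1 : aeval (tr (φ z)) (∏ j ∈ ({()} : Finset Unit), (X ^ (fun _ : Unit => K) j - 1 : ℚ[X]))
        (tr x f) ≠ 0 := by
      intro h
      rw [Finset.prod_singleton] at h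
      have h2 := congrFun h y
      simp only [map_sub, map_pow, aeval_X, map_one, LinearMap.sub_apply, Pi.sub_apply, tr_pow,
        tr_apply, Module.End.one_apply, Pi.zero_apply] at h2
      rw [map_pow] at hxy
      exact hxy (by linarith)
    obtain ⟨m, hm1, hm2, hm3⟩ := lemD f (WQ f) (WQ_gen f) (pow_pos hp.pos k) (φ z) x (by
      rw [← map_pow, ← hk, pow_orderOf_eq_one, map_one]) _ _ h1
    have hm4 : ¬ m ∣ K := hm3 () (by simp)
    obtain ⟨a, _, rfl⟩ := (Nat.dvd_prime_pow hp).1 hm1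
    have hal : l < a := by
      by_contra hle
      exact hm4 (pow_dvd_pow p (by omega))
    have h5 : 2 * r < p ^ (l + 1) := Nat.lt_pow_succ_log_self hp.one_lt _
    have h6 : p ^ (l + 1) ≤ p ^ a := Nat.pow_le_pow_right hp.pos hal
    rw [Nat.totient_prime_pow hp (by omega)] at hm2
    have h7 : p ^ a = p ^ (a - 1) * p := by rw [← pow_succ]; congr 1; omega
    have h8 : p ≤ 2 * (p - 1) := by have := hp.two_le; omega
    have h9 : p ^ a ≤ 2 * (p ^ (a - 1) * (p - 1)) := by
      rw [h7]
      calc p ^ (a - 1) * p ≤ p ^ (a - 1) * (2 * (p - 1)) := Nat.mul_le_mul_left _ h8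
        _ = _ := by ring
    omega
  let π : P →* (P ⧸ S) := QuotientGroup.mk' S
  have hπK : ∀ x, π x ^ K = 1 := by
    intro x
    change (QuotientGroup.mk x : P ⧸ S) ^ K = 1
    rw [← QuotientGroup.mk_pow, QuotientGroup.eq_one_iff]
    exact hpow x
  choose a ha using hσ
  have hcard : Fintype.card (Fin t → Fin (2 * r)) = (2 * r) ^ t := by simp
  let en : (Fin t → Fin (2 * r)) ≃ Fin ((2 * r) ^ t) := Fintype.equivFinOfCardEq hcard
  refine ⟨fun x => en (fun i => ⟨(a x i % (K : ℤ)).toNat, ?_⟩), ?_⟩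
  · have h1 : 0 ≤ a x i % (K : ℤ) := Int.emod_nonneg _ (by omega)
    have h2 : a x i % (K : ℤ) < K := Int.emod_lt_of_pos _ (by omega)
    omega
  · intro x y hxy
    have hxy' := en.injective hxy
    have hmod : ∀ i, (K : ℤ) ∣ a y i - a x i := by
      intro i
      have h := congrFun hxy' i
      rw [Fin.mk.injEq] at h
      have h1 : 0 ≤ a x i % (K : ℤ) := Int.emod_nonneg _ (by omega)
      have h1' : 0 ≤ a y i % (K : ℤ) := Int.emod_nonneg _ (by omega)
      have h2 : a x i % (K : ℤ) = a y i % (K : ℤ) := by omega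
      exact Int.ModEq.dvd h2
    have hπxy : π x = π y := by
      conv_lhs => rw [ha x]
      conv_rhs => rw [ha y]
      rw [map_list_prod, map_list_prod, List.map_ofFn, List.map_ofFn]
      congr 2
      funext i
      simp only [Function.comp_apply, map_zpow]
      obtain ⟨c, hc⟩ := hmod i
      have h1 : a y i = a x i + K * c := by linarith
      rw [h1, zpow_add, zpow_mul, zpow_natCast, hπK, one_zpow, mul_one]
    have h1 : π (x⁻¹ * y) = 1 := by rw [map_mul, map_inv, hπxy, inv_mul_cancel]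
    have h2 : x⁻¹ * y ∈ S := (QuotientGroup.eq_one_iff _).1 h1
    exact h2

end

end Pool.Agent.Helper25
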