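import Mathlib
import Pool.Agent.Helper25.NilDeg
set_option autoImplicit false
set_option linter.unusedSectionVars false
open Polynomial Module

namespace Pool.Agent.Helper25

section
variable {ι : Type*} [Fintype ι] [DecidableEq ι] {T : ι → Type*} [∀ i, Group (T i)]
  {Ω : ι → Type*} [∀ i, DecidableEq (Ω i)] [∀ i, Fintype (Ω i)]

/-- colouring of a product of groups with block systems; labels modulo the kernel -/
theorem exists_colour_prod' (S : ∀ i, BlockSys (T i) (Ω i)) (hempty : ∀ i, (S i).good ∅)
    (huniv : ∀ i, (S i).good Finset.univ)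
    (f : (∀ i, T i) → ℚ) (hf01 : ∀ x, f x = 0 ∨ f x = 1) (hf1 : f 1 = 0) (D q : ℕ) (hq : 0 < q)
    (hD : (prodSys S hempty).DegLE f D)
    (hlab : ∀ i, ∃ lab : T i → Ω i → Fin q, ∀ z w, ∃ k : T i,
      (Pi.mulSingle i k : ∀ i, T i) ∈ kerF f ∧ ∀ x, lab z x = lab w x → x ∉ (S i).supp (z⁻¹ * w * k)) :
    ∃ c : (∀ i, T i) → Fin (q ^ (200 * D ^ 3)), ∀ x y, c x = c y → f (x⁻¹ * y) = 0 := by
  classical
  have hgu : (prodSys S hempty).good Finset.univ := by
    intro i
    have : fib (Finset.univ : Finset (Σ i, Ω i)) i = Finset.univ := by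
      ext x; simp [mem_fib]
    change (S i).good (fib (Finset.univ : Finset (Σ i, Ω i)) i)
    rw [this]; exact huniv i
  obtain ⟨A, hAc, hA⟩ := (prodSys S hempty).exists_cert hgu f hf01 hf1 D hD
  choose lab hlab' using hlab
  have hemb : Nonempty ((A → Fin q) ↪ Fin (q ^ (200 * D ^ 3))) := by
    apply Function.Embedding.nonempty_of_card_le
    rw [Fintype.card_fun, Fintype.card_fin, Fintype.card_coe, Fintype.card_fin]
    exact Nat.pow_le_pow_right hq hAc
  obtain ⟨em⟩ := hemb
  refine ⟨fun x => em (fun a => lab a.1.1 (x a.1.1) a.1.2), ?_⟩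
  intro x y hxy
  have h1 := em.injective hxy
  choose k hk1 hk2 using fun i => hlab' i (x i) (y i)
  have hkK : k ∈ kerF f := by
    apply Subgroup.pi_mem_of_mulSingle_mem
    exact hk1
  rw [← kerF_apply f hkK (x⁻¹ * y)]
  apply hA
  change Disjoint (asm (fun i => (S i).supp ((x⁻¹ * y * k) i))) A
  rw [disjoint_asm_iff]
  intro i
  rw [Finset.disjoint_left]
  intro a ha ha'
  rw [mem_fib] at ha'
  exact hk2 i a (congrFun h1 ⟨⟨i, a⟩, ha'⟩) ha

end

section
variable {ι : Type} [Fintype ι] [DecidableEq ι] {T : ι → Type} [∀ i, Group (T i)]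
  [∀ i, Finite (T i)]

/-- Alternating, or perfect and (small or without small nontrivial representations). -/
def AltOrQR (T : Type) [Group T] (r q : ℕ) : Prop :=
  (∃ m, 5 ≤ m ∧ Nonempty (T ≃* alternatingGroup (Fin m))) ∨
  (commutator T = ⊤ ∧ (Nat.card T ≤ q ∨ ∀ d ≤ r, ∀ ρ : T →* GL (Fin d) ℂ, ρ = 1))

theorem goodGroup_pi (r q t : ℕ) (hr0 : 0 < r) (κ : ι → Prop) (pr : ι → ℕ)
    (hκ : ∀ j, κ j → (pr j).Prime ∧ IsPGroup (pr j) (T j) ∧
      ∃ σ : Fin t → T j, ∀ g, ∃ a : Fin t → ℤ, g = (List.ofFn fun i => σ i ^ a i).prod)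
    (hinj : ∀ i j, κ i → κ j → pr i = pr j → i = j)
    (hno : ∀ j, ¬ κ j → AltOrQR (T j) r q)
    (hq1 : (2 * r) ^ t ≤ q) (hq2 : 2 * r + 2 ≤ q) :
    GoodGroup (∀ j, T j) r (q ^ (200 * (Nat.log 2 (2 * r) + Nat.log 2 r) ^ 3)) := by
  classical
  intro f hf01 hf1 hWC hWQ
  have hq : 0 < q := by omega
  have key : ∀ j, ∃ (Ω : Type) (_ : DecidableEq Ω) (_ : Fintype Ω) (S : BlockSys (T j) Ω),
      S.good ∅ ∧ S.good Finset.univ ∧ (κ j → Subsingleton Ω) ∧
      (∀ B, S.good B → (κ j → B = ∅) → NoChar (S.sub B)) ∧
      ∃ lab : T j → Ω → Fin q, ∀ z w, ∃ k : T j,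
        (Pi.mulSingle j k : ∀ i, T i) ∈ kerF f ∧ ∀ x, lab z x = lab w x → x ∉ S.supp (z⁻¹ * w * k) := by
    intro j
    by_cases hj : κ j
    · obtain ⟨hp, hpg, σ, hσ⟩ := hκ j hj
      obtain ⟨c, hc⟩ := lab_pgroup hp hpg (MonoidHom.mulSingle T j) f hWQ hr0 σ hσ
      refine ⟨Unit, inferInstance, inferInstance, oneSys (T j), trivial, trivial,
        fun _ => inferInstance, ?_, fun z _ => Fin.castLE hq1 (c z), ?_⟩
      · intro B _ hB
        rw [hB hj]
        intro χ x
        have hx : x = 1 := by
          apply Subtype.ext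
          apply (oneSys (T j)).faithful
          rw [← Finset.subset_empty, ← (oneSys (T j)).mem_sub]
          exact x.2
        rw [hx, map_one]
      · intro z w
        by_cases hzw : c z = c w
        · refine ⟨(z⁻¹ * w)⁻¹, ?_, ?_⟩
          · have h1 := hc z w hzw
            have h2 : (Pi.mulSingle j (z⁻¹ * w)⁻¹ : ∀ i, T i) = (Pi.mulSingle j (z⁻¹ * w))⁻¹ := by
              exact map_inv (MonoidHom.mulSingle T j) (z⁻¹ * w)
            rw [h2]
            exact Subgroup.inv_mem _ h1
          · intro x _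
            rw [mul_inv_cancel, supp_one]
            exact Finset.notMem_empty _
        · refine ⟨1, by rw [Pi.mulSingle_one]; exact Subgroup.one_mem _, ?_⟩
          intro x hx
          exact absurd (Fin.castLE_injective hq1 hx) hzw
    · -- labels from relevance
      have hlabs : ∀ (Ω : Type) (_ : DecidableEq Ω) (S : BlockSys (T j) Ω),
          ((∃ g, (MonoidHom.mulSingle T j) g ∉ kerF f) →
            ∃ lab : T j → Ω → Fin q, ∀ z w x, lab z x = lab w x → x ∉ S.supp (z⁻¹ * w)) →
          ∃ lab : T j → Ω → Fin q, ∀ z w, ∃ k : T j,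
            (Pi.mulSingle j k : ∀ i, T i) ∈ kerF f ∧
              ∀ x, lab z x = lab w x → x ∉ S.supp (z⁻¹ * w * k) := by
        intro Ω _ S h
        by_cases hrel : ∃ g, (MonoidHom.mulSingle T j) g ∉ kerF f
        · obtain ⟨lab, hl⟩ := h hrel
          refine ⟨lab, fun z w => ⟨1, by rw [Pi.mulSingle_one]; exact Subgroup.one_mem _, ?_⟩⟩
          intro x hx
          rw [mul_one]; exact hl z w x hx
        · push Not at hrel
          refine ⟨fun _ _ => ⟨0, hq⟩, fun z w => ⟨(z⁻¹ * w)⁻¹, hrel _, ?_⟩⟩
          intro x _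
          rw [mul_inv_cancel, supp_one]
          exact Finset.notMem_empty _
      rcases hno j hj with ⟨m, hm, ⟨e⟩⟩ | ⟨hperf, hsize⟩
      · refine ⟨Fin m, inferInstance, inferInstance, (altSys (Fin m)).comap e, Or.inl rfl, ?_,
          fun h => absurd h hj, ?_, ?_⟩
        · right; simpa using hm
        · intro B hB _
          exact comap_noChar e _ B (alt_noChar B hB)
        · apply hlabs
          rintro ⟨g, hg⟩
          have hmr : m ≤ 2 * r + 2 := by
            apply alt_degree_le f (WQ f) (WQ_gen f) hWQ hm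
              ((MonoidHom.mulSingle T j).comp e.symm.toMonoidHom)
            refine ⟨e g, ?_⟩
            change (MonoidHom.mulSingle T j) (e.symm (e g)) ∉ kerF f
            rw [MulEquiv.symm_apply_apply]; exact hg
          refine ⟨fun z x => Fin.castLE (hmr.trans hq2) ((e z : Equiv.Perm (Fin m)) x), ?_⟩
          intro z w x hzw
          have h1 := Fin.castLE_injective (hmr.trans hq2) hzw
          change x ∉ ((e (z⁻¹ * w) : alternatingGroup (Fin m)) : Equiv.Perm (Fin m)).support
          rw [Equiv.Perm.notMem_support, map_mul, map_inv, Subgroup.coe_mul, Equiv.Perm.mul_apply,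
            ← h1]
          simp
      · refine ⟨Unit, inferInstance, inferInstance, oneSys (T j), trivial, trivial,
          fun _ => inferInstance, ?_, ?_⟩
        · intro B _ _
          exact one_noChar (T j) (noChar_of_perfect hperf) B
        · apply hlabs
          intro hg
          have hcard : Nat.card (T j) ≤ q := by
            rcases hsize with h | h
            · exact h
            · obtain ⟨ρ, hρ⟩ := exists_rep f (MonoidHom.mulSingle T j) hg
              exact absurd (h _ hWC ρ) hρ
          have := Fintype.ofFinite (T j)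
          have hcard' : Fintype.card (T j) ≤ Fintype.card (Fin q) := by
            rw [Fintype.card_fin, ← Nat.card_eq_fintype_card]; exact hcard
          obtain ⟨em⟩ := Function.Embedding.nonempty_of_card_le hcard'
          refine ⟨fun z _ => em z, ?_⟩
          intro z w x hzw
          have h1 := em.injective hzw
          rw [h1, inv_mul_cancel, supp_one]
          exact Finset.notMem_empty _
  choose Ω dec fin S hS using key
  have hempty : ∀ i, (S i).good ∅ := fun i => (hS i).1
  apply exists_colour_prod' S hempty (fun i => (hS i).2.1) f hf01 hf1 _ q hq ?_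
    (fun i => (hS i).2.2.2.2)
  apply BlockSys.degLE_of_degOn _ (fun B => ∀ i, ¬ κ i → fib B i = ∅) (fun B => ∀ i, κ i → fib B i = ∅)
  · exact degOn_nil S hempty κ pr (fun i hi => (hκ i hi).1) (fun i hi => (hκ i hi).2.1) hinj
      (fun i hi => (hS i).2.2.1 hi) f hWQ
  · apply degOn_of_noChar _ _ _ f hWC
    intro B hB hgB
    -- NoChar for blocks supported outside κ
    let φ : (∀ i, (S i).sub (fib B i)) →* (prodSys S hempty).sub B :=
      { toFun := fun x => ⟨fun i => (x i : T i), by
          change _ ∈ Subgroup.pi Set.univ _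
          rw [Subgroup.mem_pi]
          exact fun i _ => (x i).2⟩
        map_one' := by apply Subtype.ext; funext i; simp
        map_mul' := by intro x y; apply Subtype.ext; funext i; simp }
    have hφ : Function.Surjective φ := by
      intro y
      have hy : (y : ∀ i, T i) ∈ Subgroup.pi Set.univ (fun i => (S i).sub (fib B i)) := y.2
      rw [Subgroup.mem_pi] at hy
      exact ⟨fun i => ⟨(y : ∀ i, T i) i, hy i (Set.mem_univ _)⟩, rfl⟩
    apply noChar_of_surjective φ hφ
    intro χ x
    have h1 : χ = 1 := by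
      apply MonoidHom.pi_ext
      intro i y
      exact (hS i).2.2.2.1 (fib B i) (hgB i) (hB i)
        (χ.comp (MonoidHom.mulSingle (fun i => ↥((S i).sub (fib B i))) i)) y
    rw [h1]; rfl
  · intro B hB g hg
    have hg' : ∀ i, g i ∈ (S i).sub (fib B i) := by
      have : g ∈ Subgroup.pi Set.univ (fun i => (S i).sub (fib B i)) := hg
      rw [Subgroup.mem_pi] at this
      exact fun i => this i (Set.mem_univ _)
    refine ⟨asm (fun i => if κ i then fib B i else ∅), fun i => if κ i then g i else 1,
      asm (fun i => if κ i then ∅ else fib B i), fun i => if κ i then 1 else g i,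
      ?_, ?_, ?_, ?_, ?_, ?_, ?_, ?_, ?_⟩
    · funext i
      by_cases hi : κ i <;> simp [hi]
    · rw [asm_subset_iff]
      intro i
      by_cases hi : κ i <;> simp [hi]
    · rw [asm_subset_iff]
      intro i
      by_cases hi : κ i <;> simp [hi]
    · intro i hi
      rw [fib_asm, if_neg hi]
    · intro i hi
      rw [fib_asm, if_pos hi]
    · intro i
      rw [fib_asm]
      by_cases hi : κ i
      · rw [if_pos hi]; exact hB i
      · rw [if_neg hi]; exact hempty i
    · intro i
      rw [fib_asm]
      by_cases hi : κ i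
      · rw [if_pos hi]; exact hempty i
      · rw [if_neg hi]; exact hB i
    · change _ ∈ Subgroup.pi Set.univ _
      rw [Subgroup.mem_pi]
      intro i _
      rw [fib_asm]
      by_cases hi : κ i
      · simp only [if_pos hi]; exact hg' i
      · simp only [if_neg hi]; exact Subgroup.one_mem _
    · change _ ∈ Subgroup.pi Set.univ _
      rw [Subgroup.mem_pi]
      intro i _
      rw [fib_asm]
      by_cases hi : κ i
      · simp only [if_pos hi]; exact Subgroup.one_mem _
      · simp only [if_neg hi]; exact hg' i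

end

end Pool.Agent.Helper25
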