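import Mathlib
import Pool.Agent.Helper25.GoodPi
set_option autoImplicit false
set_option linter.unusedSectionVars false

namespace Pool.Agent.Helper25

/-- family indexed by a sum type -/
def SumFam {P ι : Type} (A : P → Type) (T : ι → Type) : P ⊕ ι → Type
  | Sum.inl p => A p
  | Sum.inr i => T i

instance sumFamGroup {P ι : Type} (A : P → Type) (T : ι → Type) [∀ p, Group (A p)]
    [∀ i, Group (T i)] : ∀ j, Group (SumFam A T j)
  | Sum.inl p => inferInstanceAs (Group (A p))
  | Sum.inr i => inferInstanceAs (Group (T i))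

instance sumFamFinite {P ι : Type} (A : P → Type) (T : ι → Type) [∀ p, Finite (A p)]
    [∀ i, Finite (T i)] : ∀ j, Finite (SumFam A T j)
  | Sum.inl p => inferInstanceAs (Finite (A p))
  | Sum.inr i => inferInstanceAs (Finite (T i))

def sumHom {P ι : Type} (A : P → Type) (T : ι → Type) [∀ p, Group (A p)]
    [∀ i, Group (T i)] : (∀ j, SumFam A T j) →* (∀ p, A p) × (∀ i, T i) where
  toFun x := (fun p => x (Sum.inl p), fun i => x (Sum.inr i))
  map_one' := rfl
  map_mul' _ _ := rfl

theorem sumHom_surjective {P ι : Type} (A : P → Type) (T : ι → Type) [∀ p, Group (A p)]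
    [∀ i, Group (T i)] : Function.Surjective (sumHom A T) := by
  rintro ⟨a, b⟩
  refine ⟨fun j => match j with
    | Sum.inl p => a p
    | Sum.inr i => b i, rfl⟩

theorem isPGroup_pi {N : Type} [Group N] [Finite N] (p : ℕ) :
    IsPGroup p (∀ P : Sylow p N, (P : Subgroup N)) := by
  classical
  have := Fintype.ofFinite (Sylow p N)
  intro g
  choose k hk using fun P : Sylow p N => P.isPGroup' (g P)
  refine ⟨∑ P, k P, ?_⟩
  funext P
  rw [Pi.pow_apply, Pi.one_apply, ← Finset.add_sum_erase _ _ (Finset.mem_univ P), pow_add, pow_mul, hk,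
    one_pow]

theorem cyclic_image {N Q : Type} [Group N] [Group Q] (φ : N →* Q) (hφ : Function.Surjective φ)
    {t : ℕ} (σ : Fin t → N)
    (hσ : ∀ g : N, ∃ a : Fin t → ℤ, g = (List.ofFn fun i => σ i ^ a i).prod) :
    ∃ σ' : Fin t → Q, ∀ g : Q, ∃ a : Fin t → ℤ, g = (List.ofFn fun i => σ' i ^ a i).prod := by
  refine ⟨fun i => φ (σ i), fun g => ?_⟩
  obtain ⟨x, rfl⟩ := hφ g
  obtain ⟨a, ha⟩ := hσ x
  refine ⟨a, ?_⟩
  conv_lhs => rw [ha]
  rw [map_list_prod, List.map_ofFn]
  congr 2
  funext i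
  simp

theorem colorable_main {n t : ℕ} (G : SimpleGraph (Fin n)) [DecidableRel G.Adj]
    (N : Type) [Group N] [Finite N] [Group.IsNilpotent N] (σ : Fin t → N)
    (hσ : ∀ g : N, ∃ a : Fin t → ℤ, g = (List.ofFn fun i => σ i ^ a i).prod)
    (ι : Type) [Fintype ι] (T : ι → Type) [∀ i, Group (T i)] [∀ i, Finite (T i)]
    {r q : ℕ} (hr0 : 0 < r) (hr : (G.adjMatrix ℝ).rank ≤ r)
    (hT : ∀ i, AltOrQR (T i) r q) (hq1 : (2 * r) ^ t ≤ q) (hq2 : 2 * r + 2 ≤ q)
    (Φ : N × (∀ i, T i) →* (G ≃g G)) :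
    G.Colorable (Nat.card (MulAction.orbitRel.Quotient Φ.range (Fin n)) *
      q ^ (200 * (Nat.log 2 (2 * r) + Nat.log 2 r) ^ 3)) := by
  classical
  have hiso := (Group.isNilpotent_of_finite_tfae (G := N)).out 0 4 rfl rfl |>.mp inferInstance
  obtain ⟨φ⟩ := hiso
  set A : (Nat.card N).primeFactors → Type := fun p => ∀ P : Sylow p N, (P : Subgroup N) with hA
  set F := SumFam A T with hF
  have hgood : GoodGroup (∀ j, F j) r (q ^ (200 * (Nat.log 2 (2 * r) + Nat.log 2 r) ^ 3)) := by
    apply goodGroup_pi r q t hr0 (fun j => j.isLeft = true)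
      (fun j => match j with
        | Sum.inl p => (p : ℕ)
        | Sum.inr _ => 0)
    · rintro (p | i) hj
      · refine ⟨Nat.prime_of_mem_primeFactors p.2, isPGroup_pi (p : ℕ), ?_⟩
        apply cyclic_image ((Pi.evalMonoidHom A p).comp φ.symm.toMonoidHom) _ σ hσ
        intro y
        refine ⟨φ (Pi.mulSingle p y), ?_⟩
        change (φ.symm (φ (Pi.mulSingle p y)) : ∀ p, A p) p = y
        rw [MulEquiv.symm_apply_apply, Pi.mulSingle_eq_same]
      · simp at hj
    · rintro (p | i) (p' | i') hj hj' h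
      · have : p = p' := Subtype.ext h
        rw [this]
      · simp at hj'
      · simp at hj
      · simp at hj
    · rintro (p | i) hj
      · simp at hj
      · exact hT i
    · exact hq1
    · exact hq2
  let e : (∀ j, F j) →* N × (∀ i, T i) :=
    (MonoidHom.prodMap φ.toMonoidHom (MonoidHom.id (∀ i, T i))).comp (sumHom A T)
  have he : Function.Surjective e := by
    rintro ⟨x, y⟩
    obtain ⟨z, hz⟩ := sumHom_surjective A T (φ.symm x, y)
    refine ⟨z, ?_⟩
    change (MonoidHom.prodMap φ.toMonoidHom (MonoidHom.id (∀ i, T i))) (sumHom A T z) = _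
    rw [hz]
    change (φ (φ.symm x), y) = (x, y)
    rw [MulEquiv.apply_symm_apply]
  have hcol := colorable_of_goodGroup G (Φ.comp e) hr hgood
  have hrange : (Φ.comp e).range = Φ.range := by
    ext g
    constructor
    · rintro ⟨x, rfl⟩; exact ⟨e x, rfl⟩
    · rintro ⟨x, rfl⟩
      obtain ⟨y, rfl⟩ := he x
      exact ⟨y, rfl⟩
  have h2 := congrArg (fun H : Subgroup (G ≃g G) =>
    Nat.card (MulAction.orbitRel.Quotient H (Fin n))) hrange
  rw [h2] at hcol
  exact hcol

end Pool.Agent.Helper25
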